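import Pool.Statements.S00580
import Pool.Agent.Lib_helper33.BigGroup

set_option autoImplicit false
open Pool Pool.MP_011e6c_al

namespace Pool.Agent.S00580

open Pool.Agent.Lib_helper33 in
/-- The negation: the lattice of all normal subgroups of a certain 2-group (a subgroup of the
27th power of the dihedral group of order 8) embeds in a normal subgroup lattice, its order dual
does not. -/
theorem result :
    ¬ (∀ (L : Type) [Lattice L],
      (∃ (G : Type) (_ : Group G) (f : L → Subgroup G),
        Function.Injective f ∧ (∀ x, (f x).Normal) ∧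
        (∀ x y, f (x ⊔ y) = f x ⊔ f y) ∧ (∀ x y, f (x ⊓ y) = f x ⊓ f y)) →
      (∃ (H : Type) (_ : Group H) (g : Lᵒᵈ → Subgroup H),
        Function.Injective g ∧ (∀ x, (g x).Normal) ∧
        (∀ x y, g (x ⊔ y) = g x ⊔ g y) ∧ (∀ x y, g (x ⊓ y) = g x ⊓ g y))) := by
  intro hall
  obtain ⟨H, iH, g, ginj, gnor, gsup, ginf⟩ := hall (NS BG)
    ⟨BG, inferInstance, Subtype.val, Subtype.val_injective, fun x => x.2, fun _ _ => rfl,
      fun _ _ => rfl⟩
  exact no_anti (H := H)
    { g := fun x => g (OrderDual.toDual x)
      sup := fun x y => ginf (OrderDual.toDual x) (OrderDual.toDual y)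
      inf := fun x y => gsup (OrderDual.toDual x) (OrderDual.toDual y)
      nor := fun x => gnor _ } (fun x y h => OrderDual.toDual.injective (ginj h))

end Pool.Agent.S00580
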