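import Pool.Statements.S01368
import Pool.Agent.Lib_helper30.Berman.Final

set_option autoImplicit false
open Classical
open Pool Pool.MP_490369_al

namespace Pool.Agent.S01368

/-- The negation of the preceding statement: For every finite group G and every ring automorphism σ of the centre of ℤG, there are a permutation π of the conjugacy classes and signs ±1 such that σ sends each class sum K_c to ±K_{π(c)}. -/
theorem result :
    ¬ (∀ (G : Type) [Group G] [Fintype G]
    (σ : ↥(Subring.center (MonoidAlgebra ℤ G)) ≃+* ↥(Subring.center (MonoidAlgebra ℤ G))),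
    ∃ π : Equiv.Perm (ConjClasses G), ∃ ε : ConjClasses G → ℤ,
      (∀ c, ε c = 1 ∨ ε c = -1) ∧
      ∀ (c : ConjClasses G) (x : ↥(Subring.center (MonoidAlgebra ℤ G))),
        (x : MonoidAlgebra ℤ G) =
            ∑ g ∈ Finset.univ.filter (fun g : G => ConjClasses.mk g = c),
              MonoidAlgebra.single g (1 : ℤ) →
        ((σ x : ↥(Subring.center (MonoidAlgebra ℤ G))) : MonoidAlgebra ℤ G) =
          ε c • ∑ g ∈ Finset.univ.filter (fun g : G => ConjClasses.mk g = π c),
              MonoidAlgebra.single g (1 : ℤ)) := by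
  intro H
  obtain ⟨π, ε, hε, h⟩ := H Pool.Agent.Berman.G Pool.Agent.Berman.sigma
  refine Pool.Agent.Berman.final ⟨π, ε, hε, ?_⟩
  intro c x hx
  have h1 := h c x (hx.trans (Pool.Agent.Berman.classSum_eq c _).symm)
  rw [h1]
  exact congrArg (fun y => ε c • y) (Pool.Agent.Berman.classSum_eq (π c) _)

end Pool.Agent.S01368
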