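import Pool.Statements.S02196
import Pool.Agent.Lib_helper84.FT.Final

set_option autoImplicit false
open Pool Pool.MP_89e4fc_al

namespace Pool.Agent.S02196

/-- The negation of the preceding statement: In every Garside monoid M with Garside element Δ there is a constant C such that any factorisation of Δ^k into non-identity elements has at most C·k factors, i.e. the atom length of Δ^k grows at most linearly in k. -/
theorem result :
    ¬ (∀ (M : Type) [Monoid M] (d : M),
      (∀ a b c : M, a * b = a * c → b = c) →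
      (∀ a b c : M, b * a = c * a → b = c) →
      (∃ len : M → ℕ, (∀ a b : M, len a + len b ≤ len (a * b)) ∧
          ∀ a : M, len a = 0 → a = 1) →
      (∀ a b : M, ∃ m : M, (∃ c, m = a * c) ∧ (∃ c, m = b * c) ∧
          ∀ x : M, (∃ c, x = a * c) → (∃ c, x = b * c) → ∃ c, x = m * c) →
      (∀ a b : M, ∃ g : M, (∃ c, a = g * c) ∧ (∃ c, b = g * c) ∧
          ∀ x : M, (∃ c, a = x * c) → (∃ c, b = x * c) → ∃ c, g = x * c) →
      (∀ a b : M, ∃ m : M, (∃ c, m = c * a) ∧ (∃ c, m = c * b) ∧
          ∀ x : M, (∃ c, x = c * a) → (∃ c, x = c * b) → ∃ c, x = c * m) →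
      (∀ a b : M, ∃ g : M, (∃ c, a = c * g) ∧ (∃ c, b = c * g) ∧
          ∀ x : M, (∃ c, a = c * x) → (∃ c, b = c * x) → ∃ c, g = c * x) →
      (∀ x : M, (∃ c, d = x * c) ↔ (∃ c, d = c * x)) →
      Set.Finite {x : M | ∃ c, d = x * c} →
      Submonoid.closure {x : M | ∃ c, d = x * c} = ⊤ →
      ∃ C : ℕ, ∀ k n : ℕ, ∀ f : Fin n → M,
        (∀ i, f i ≠ 1) → (List.ofFn f).prod = d ^ k → n ≤ C * k) :=
  Pool.Agent.FT.final

end Pool.Agent.S02196
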