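import Pool.Statements.S02387
import Pool.Agent.Lib_helper42.TwoCentral4

set_option autoImplicit false
open Pool Pool.MP_970c5e_al

namespace Pool.Agent.S02387

/-- For every finite 2-group in which all elements of order dividing 2 are central, the index of the subgroup generated by squares is at most 2 to the power twice the minimal number of generators of the center. -/
theorem result :
    ∀ (G : Type) [Group G] [Finite G], IsPGroup 2 G →
      (∀ g : G, g ^ 2 = 1 → g ∈ Subgroup.center G) →
      (Subgroup.closure {x : G | ∃ g : G, g ^ 2 = x}).index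
        ≤ 2 ^ (2 * Group.rank (Subgroup.center G)) := by
  intro G _ _ hG h2
  have h1 := Pool.Agent.Lib_helper42.index_Sq_le (Nat.card G) G rfl hG h2
  have h3 : Nat.card {g : G // g ^ 2 = 1} =
      Nat.card {z : Subgroup.center G // z ^ 2 = 1} := by
    refine Nat.card_congr ⟨fun g => ⟨⟨g, h2 g g.2⟩, Subtype.ext g.2⟩,
      fun z => ⟨((z : Subgroup.center G) : G), ?_⟩, fun g => rfl, fun z => rfl⟩
    have := congrArg Subtype.val z.2
    exact this
  have h4 : Nat.card {z : Subgroup.center G // z ^ 2 = 1} ≤
      2 ^ (Group.rank (Subgroup.center G)) := by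
    let cg : CommGroup (Subgroup.center G) :=
      { (inferInstance : Group (Subgroup.center G)) with
        mul_comm := fun a b => Subtype.ext (Subgroup.mem_center_iff.mp b.2 a) }
    exact Pool.Agent.Lib_helper42.card_two_torsion_le (Subgroup.center G)
  rw [h3] at h1
  calc (Subgroup.closure {x : G | ∃ g : G, g ^ 2 = x}).index
      ≤ (Nat.card {z : Subgroup.center G // z ^ 2 = 1}) ^ 2 := h1
    _ ≤ (2 ^ (Group.rank (Subgroup.center G))) ^ 2 := Nat.pow_le_pow_left h4 2
    _ = 2 ^ (2 * Group.rank (Subgroup.center G)) := by rw [← pow_mul, mul_comm]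

end Pool.Agent.S02387
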