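import Pool.Statements.S02836
import Pool.Agent.Lib_helper47.ExpFour

set_option autoImplicit false
set_option linter.unusedVariables false

open Pool Pool.MP_b7e8ae_al

namespace Pool.Agent.S02836

open MeasureTheory Pool.Agent.ExpFour

/-- the acting elementary abelian groups -/
abbrev HH (r : ℕ) : Type := Multiplicative (Fin (r + 2) → ZMod 2)

theorem HH_sq (r : ℕ) (m : HH r) : m * m = 1 := by
  have : ∀ a : Fin (r + 2) → ZMod 2, a + a = 0 := by
    intro a; funext i
    have : ∀ b : ZMod 2, b + b = 0 := by decide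
    exact this _
  exact this _

/-- the finite groups -/
abbrev Gf (r : ℕ) : Type := GG (HH r)

instance topGf (r : ℕ) : TopologicalSpace (Gf r) := ⊥
instance discGf (r : ℕ) : DiscreteTopology (Gf r) := ⟨rfl⟩
instance tgGf (r : ℕ) : IsTopologicalGroup (Gf r) where
  continuous_mul := continuous_of_discreteTopology
  continuous_inv := continuous_of_discreteTopology

/-- the profinite group -/
abbrev GP : Type := ∀ r : ℕ, Gf r

/-- projection to the acting group -/
noncomputable def rho (r : ℕ) : GP →* HH r :=
  (RegularWreathProduct.rightHom.comp (GG (HH r)).subtype).comp (Pi.evalMonoidHom _ r)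

theorem rho_apply (r : ℕ) (x : GP) : rho r x = (x r : RegularWreathProduct (KK (HH r)) (HH r)).right :=
  rfl

theorem rho_surj (r : ℕ) : Function.Surjective (rho r) := by
  classical
  intro m
  have hmem : (⟨fun _ => 1, m⟩ : RegularWreathProduct (KK (HH r)) (HH r)) ∈ GG (HH r) := by
    refine ⟨⟨0, fun x h => rfl⟩, ⟨0, fun x => ?_⟩⟩
    show par 0 = 0
    exact map_zero _
  refine ⟨Function.update 1 r ⟨_, hmem⟩, ?_⟩
  rw [rho_apply, Function.update_self]

theorem isOpen_ker (r : ℕ) : IsOpen ((rho r).ker : Set GP) := by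
  have : ((rho r).ker : Set GP) = (fun x : GP => x r) ⁻¹'
      {y : Gf r | (y : RegularWreathProduct (KK (HH r)) (HH r)).right = 1} := by
    ext x
    simp only [SetLike.mem_coe, MonoidHom.mem_ker, Set.mem_preimage]
    rfl
  rw [this]
  exact (isOpen_discrete _).preimage (continuous_apply r)

theorem ker_bound [MeasurableSpace GP] [BorelSpace GP] (r : ℕ) :
    (Measure.haar : Measure GP) ((rho r).ker : Set GP) * (2 ^ (r + 2) : ENNReal)
      ≤ (Measure.haar : Measure GP) Set.univ := by
  classical
  set μ : Measure GP := Measure.haar with hμ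
  choose s hs using rho_surj r
  have hmeas : MeasurableSet ((rho r).ker : Set GP) := (isOpen_ker r).measurableSet
  have hset : ∀ m : HH r, {x : GP | rho r x = m} = (fun x => (s m)⁻¹ * x) ⁻¹' ((rho r).ker : Set GP) := by
    intro m
    ext x
    simp only [Set.mem_preimage, SetLike.mem_coe, MonoidHom.mem_ker, map_mul, map_inv, hs]
    constructor
    · intro h
      rw [show rho r x = m from h, inv_mul_cancel]
    · intro h
      exact (inv_mul_eq_one.mp h).symm
  have hval : ∀ m : HH r, μ {x : GP | rho r x = m} = μ ((rho r).ker : Set GP) := by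
    intro m
    rw [hset, measure_preimage_mul]
  have hms : ∀ m : HH r, MeasurableSet {x : GP | rho r x = m} := by
    intro m
    rw [hset]
    exact (measurable_const_mul _) hmeas
  have hsum : ∑ m : HH r, μ {x : GP | rho r x = m} ≤ μ Set.univ := by
    rw [← measure_biUnion_finset]
    · exact measure_mono (Set.subset_univ _)
    · intro a _ b _ hab
      rw [Function.onFun, Set.disjoint_left]
      intro x hx hx'
      exact hab ((show rho r x = a from hx).symm.trans hx')
    · intro m _
      exact hms m
  have hcard : Fintype.card (HH r) = 2 ^ (r + 2) := by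
    rw [Fintype.card_multiplicative, Fintype.card_fun, ZMod.card, Fintype.card_fin]
  rw [Finset.sum_congr rfl (fun m _ => hval m), Finset.sum_const, Finset.card_univ, hcard,
    nsmul_eq_mul, mul_comm] at hsum
  push_cast at hsum
  exact hsum

theorem pow_four_of_ne (r : ℕ) (y : Gf r)
    (h : (y : RegularWreathProduct (KK (HH r)) (HH r)).right ≠ 1) : y ^ 4 = 1 := by
  apply Subtype.ext
  rw [Subgroup.coe_pow]
  exact GG_pow_four _ y.2 (HH_sq r _) h

/-- The negation of the preceding statement: For every profinite group G and natural number n: if the set of x with x^n = 1 has positive Haar measure, then some coset tH of an open subgroup H consists entirely of elements whose n-th power is the identity. -/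
theorem result :
    ¬ (∀ (G : Type) [Group G] [TopologicalSpace G] [IsTopologicalGroup G] [CompactSpace G]
      [T2Space G] [TotallyDisconnectedSpace G] [MeasurableSpace G] [BorelSpace G] (n : ℕ),
      0 < (MeasureTheory.Measure.haar : MeasureTheory.Measure G) {x : G | x ^ n = 1} →
      ∃ H : Subgroup G, IsOpen (H : Set G) ∧ ∃ t : G, ∀ h ∈ H, (t * h) ^ n = 1) := by
  classical
  intro hall
  let _ : MeasurableSpace GP := borel GP
  have : BorelSpace GP := ⟨rfl⟩
  have hpos : 0 < (Measure.haar : Measure GP) {x : GP | x ^ 4 = 1} := by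
    set μ : Measure GP := Measure.haar with hμ
    have hfin : μ Set.univ ≠ ⊤ := measure_ne_top _ _
    have hne : μ Set.univ ≠ 0 := (isOpen_univ.measure_pos μ ⟨1, trivial⟩).ne'
    by_contra h0
    have h0' : μ {x : GP | x ^ 4 = 1} = 0 := by
      rcases eq_or_ne (μ {x : GP | x ^ 4 = 1}) 0 with h | h
      · exact h
      · exact absurd (pos_iff_ne_zero.mpr h) h0
    have hcov : (Set.univ : Set GP) ⊆ {x : GP | x ^ 4 = 1} ∪ ⋃ r : ℕ, ((rho r).ker : Set GP) := by
      intro x _
      by_cases hx : ∃ r, rho r x = 1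
      · right
        obtain ⟨r, hr⟩ := hx
        exact Set.mem_iUnion.mpr ⟨r, hr⟩
      · left
        push Not at hx
        show x ^ 4 = 1
        funext r
        exact pow_four_of_ne r (x r) (hx r)
    have hle : μ Set.univ ≤ ∑' r : ℕ, μ ((rho r).ker : Set GP) := by
      calc μ Set.univ ≤ μ ({x : GP | x ^ 4 = 1} ∪ ⋃ r : ℕ, ((rho r).ker : Set GP)) :=
            measure_mono hcov
        _ ≤ μ {x : GP | x ^ 4 = 1} + μ (⋃ r : ℕ, ((rho r).ker : Set GP)) := measure_union_le _ _
        _ ≤ 0 + ∑' r : ℕ, μ ((rho r).ker : Set GP) := by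
            rw [h0']; gcongr; exact measure_iUnion_le _
        _ = _ := zero_add _
    have hterm : ∀ r : ℕ, μ ((rho r).ker : Set GP) ≤ μ Set.univ * 2⁻¹ ^ (r + 2) := by
      intro r
      have := ker_bound r
      rw [← hμ] at this
      rw [← ENNReal.inv_pow, ← div_eq_mul_inv, ENNReal.le_div_iff_mul_le]
      · exact this
      · left; positivity
      · left; exact ENNReal.pow_ne_top (by norm_num)
    have hsum : ∑' r : ℕ, μ Set.univ * (2⁻¹ : ENNReal) ^ (r + 2) = μ Set.univ * 2⁻¹ := by
      rw [ENNReal.tsum_mul_left]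
      congr 1
      have : ∀ r : ℕ, (2⁻¹ : ENNReal) ^ (r + 2) = (2⁻¹ : ENNReal) ^ 2 * 2⁻¹ ^ r := by
        intro r; rw [pow_add, mul_comm]
      rw [tsum_congr this]
      rw [ENNReal.tsum_mul_left, ENNReal.tsum_geometric]
      rw [ENNReal.one_sub_inv_two, inv_inv, pow_two, mul_assoc,
        ENNReal.inv_mul_cancel (by norm_num) (by norm_num), mul_one]
    have hlt : μ Set.univ * 2⁻¹ < μ Set.univ := by
      have : μ Set.univ * 2⁻¹ = μ Set.univ / 2 := by rw [div_eq_mul_inv]
      rw [this]
      exact ENNReal.half_lt_self hne hfin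
    have := hle.trans ((ENNReal.tsum_le_tsum hterm).trans hsum.le)
    exact absurd hlt (not_lt.mpr this)
  obtain ⟨H, hH, t, ht⟩ := hall GP 4 hpos
  have h1 : (H : Set GP) ∈ nhds (1 : GP) := hH.mem_nhds H.one_mem
  rw [nhds_pi, Filter.mem_pi] at h1
  obtain ⟨I, hI, u, hu, hsub⟩ := h1
  obtain ⟨r, hr⟩ := hI.infinite_compl.nonempty
  obtain ⟨w, hw, hw4⟩ := GG_bad (H := HH r)
  let b : Gf r := ⟨w, hw⟩
  let h : GP := Function.update 1 r ((t r)⁻¹ * b)
  have hmem : h ∈ H := by
    apply hsub
    intro i hi
    have hne : i ≠ r := fun e => hr (e ▸ hi)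
    show Function.update (1 : GP) r ((t r)⁻¹ * b) i ∈ u i
    rw [Function.update_of_ne hne]
    exact mem_of_mem_nhds (hu i)
  have h4 := congrFun (ht h hmem) r
  have e : ((t * h) ^ 4) r = b ^ 4 := by
    show (t r * Function.update (1 : GP) r ((t r)⁻¹ * b) r) ^ 4 = b ^ 4
    rw [Function.update_self, mul_inv_cancel_left]
  rw [e] at h4
  apply hw4
  have := congrArg Subtype.val h4
  rwa [Subgroup.coe_pow] at this

end Pool.Agent.S02836
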