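import Pool.Statements.S03495
import Pool.Agent.Lib_helper98.Filt

/-!
The simple Lie algebra is `L = A·τ`, the rank one module of regular vector fields on the affine
elliptic curve `y² = x³ + 1` over `ℚ`: here `A = ℚ[x, y]/(y² = x³ + 1)` and
`τ = 2y ∂/∂x + 3x² ∂/∂y`. It is simple since `A` has no nontrivial `τ`-stable ideals. It is
filtered by the pole order at the point at infinity, and its associated graded Lie algebra lies
in the positive part of the Witt algebra, which makes every element ad-pure.
-/

set_option autoImplicit false
open Pool Pool.MP_ef54ea_al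

namespace Pool.Agent.S03495

/-- There is a field K and a simple Lie algebra L over K such that for every a in L, every finite-dimensional subspace of L invariant under ad a is killed by ad a. -/
theorem result :
    ∃ (K : Type) (_ : Field K) (L : Type) (_ : LieRing L) (_ : LieAlgebra K L),
      LieAlgebra.IsSimple K L ∧
      ∀ a : L, ∀ V : Submodule K L, FiniteDimensional K V →
        (∀ v ∈ V, ⁅a, v⁆ ∈ V) → ∀ v ∈ V, ⁅a, v⁆ = 0 := by
  exact ⟨ℚ, inferInstance, Pool.Agent.Lib_helper98.VF Pool.Agent.Lib_helper98.tau, inferInstance,
    inferInstance, Pool.Agent.Lib_helper98.vf_isSimple, Pool.Agent.Lib_helper98.vf_adPure⟩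

end Pool.Agent.S03495
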