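import Pool.Statements.S03547
import Pool.Agent.Lib_helper94.SmallPartition

set_option autoImplicit false
universe u
open Pool Pool.MP_f49b6d_al

namespace Pool.Agent.S03547

/-- Every infinite group G has a coloring by natural numbers whose color classes are all ∣G∣-small. A class A is ∣G∣-small if, whenever fewer than ∣G∣ left (right) translates of L cover G, fewer than ∣G∣ left (right) translates of L minus A also cover G. -/
theorem result :
    ∀ (G : Type u) [Group G] [Infinite G],
      ∃ f : G → ℕ, ∀ n : ℕ,
        (∀ L : Set G,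
          (∃ F : Set G, Cardinal.mk F < Cardinal.mk G ∧
              ∀ g : G, ∃ x ∈ F, ∃ y ∈ L, g = x * y) →
          (∃ F : Set G, Cardinal.mk F < Cardinal.mk G ∧
              ∀ g : G, ∃ x ∈ F, ∃ y ∈ L, f y ≠ n ∧ g = x * y)) ∧
        (∀ L : Set G,
          (∃ F : Set G, Cardinal.mk F < Cardinal.mk G ∧
              ∀ g : G, ∃ x ∈ F, ∃ y ∈ L, g = y * x) →
          (∃ F : Set G, Cardinal.mk F < Cardinal.mk G ∧
              ∀ g : G, ∃ x ∈ F, ∃ y ∈ L, f y ≠ n ∧ g = y * x)) := by
  intro G _ _
  exact Pool.Agent.Lib_helper94.SmallPartition.main G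

end Pool.Agent.S03547
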