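import Pool.Statements.S04134
import Pool.Agent.Lib_helper37.Plichko4

set_option autoImplicit false
open Pool Pool.MP_28dc43_an

namespace Pool.Agent.S04134

open Cardinal Set Pool.Agent.Lib_helper37

/-- the index type -/
abbrev WW : Type := (Cardinal.aleph.{0} 2).ord.ToType

lemma aleph_two_eq : (ℵ_ 2 : Cardinal.{0}) = Order.succ ℵ₁ := by
  have : (2 : Ordinal.{0}) = Order.succ 1 := by
    rw [← Ordinal.succ_one]
  rw [this, Cardinal.aleph_succ]

lemma W1 (w : WW) : #(Iio w) ≤ ℵ₁ := by
  have h := Cardinal.mk_Iio_toType_ord_lt w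
  exact Order.lt_succ_iff.1 (h.trans_eq aleph_two_eq)

lemma W2 (A : Set WW) (hA : #A ≤ ℵ₁) : ∃ w, ∀ a ∈ A, a < w := by
  by_contra hcon
  push Not at hcon
  have h1 : #WW ≤ ℵ₁ := by
    have h2 : (Set.univ : Set WW) ⊆ ⋃ a ∈ A, Iic a := by
      intro w _
      obtain ⟨a, ha, hwa⟩ := hcon w
      exact mem_biUnion ha hwa
    rw [← Cardinal.mk_univ]
    refine (Cardinal.mk_le_mk_of_subset h2).trans ((Cardinal.mk_biUnion_le _ _).trans ?_)
    calc #A * ⨆ v : A, #(Iic v.1) ≤ ℵ₁ * ℵ₁ := by
          gcongr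
          apply ciSup_le'
          intro v
          have : Iic v.1 = insert v.1 (Iio v.1) := by
            ext x; simp [le_iff_eq_or_lt]
          rw [this]
          refine (Cardinal.mk_insert_le).trans ?_
          calc #(Iio v.1) + 1 ≤ ℵ₁ + ℵ₁ := add_le_add (W1 _)
                (Cardinal.one_le_aleph0.trans (Cardinal.aleph0_le_aleph 1))
            _ = ℵ₁ := Cardinal.add_eq_self (Cardinal.aleph0_le_aleph 1)
      _ = ℵ₁ := Cardinal.mul_eq_self (Cardinal.aleph0_le_aleph 1)
  rw [Cardinal.mk_ord_toType, aleph_two_eq] at h1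
  exact absurd h1 (not_le.2 (Order.lt_succ _))

/-- the ordinal of an index -/
noncomputable def o (w : WW) : Ordinal.{0} := ((Ordinal.ToType.mk.symm w : Set.Iio _) : Ordinal.{0})

lemma o_lt (w : WW) : o w < (Cardinal.aleph.{0} 2).ord := (Ordinal.ToType.mk.symm w).2

lemma o_mono {v w : WW} (h : v < w) : o v < o w := by
  have := (Ordinal.ToType.mk (o := (Cardinal.aleph.{0} 2).ord)).symm.lt_iff_lt.2 h
  exact this

/-- the point of the space -/
noncomputable def pt (w : WW) : Set.Iic (Cardinal.aleph.{0} 2).ord := ⟨o w, (o_lt w).le⟩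

lemma clopen (w : WW) : IsClopen (Set.Iic (pt w)) := by
  refine ⟨isClosed_Iic, ?_⟩
  have h : Set.Iic (pt w) = (fun x : Set.Iic (Cardinal.aleph.{0} 2).ord => (x : Ordinal.{0})) ⁻¹'
      (Set.Iio (Order.succ (o w))) := by
    ext x
    simp only [mem_Iic, mem_preimage, mem_Iio, Order.lt_succ_iff]
    rfl
  rw [h]
  exact isOpen_Iio.preimage continuous_subtype_val

/-- The negation of the preceding statement: There is a real Banach space with a linearly dense set M and a norming family of functionals each nonzero on only countably many points of M (a Plichko space) into which C([0,ω₂]) embeds isomorphically. -/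
theorem result :
    ¬ (∃ (X : Type) (_ : NormedAddCommGroup X) (_ : NormedSpace ℝ X) (_ : CompleteSpace X),
      (∃ M : Set X, Dense ((Submodule.span ℝ M : Submodule ℝ X) : Set X) ∧
        ∃ c : ℝ, 0 < c ∧ ∀ x : X, ∃ f : X →L[ℝ] ℝ,
          Set.Countable {m ∈ M | f m ≠ 0} ∧ ‖f‖ ≤ 1 ∧ c * ‖x‖ ≤ |f x|) ∧
      ∃ T : BoundedContinuousFunction (Set.Iic (Cardinal.aleph.{0} 2).ord) ℝ →L[ℝ] X,
        ∃ c : ℝ, 0 < c ∧ ∀ g, c * ‖g‖ ≤ ‖T g‖) := by
  rintro ⟨X, _, _, _, ⟨M, hM, c, hc, hf⟩, T, d, hd, hT⟩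
  choose F hFc hF1 hFn using hf
  let g : WW → BoundedContinuousFunction (Set.Iic (Cardinal.aleph.{0} 2).ord) ℝ :=
    fun w => BoundedContinuousFunction.indicator (Set.Iic (pt w)) (clopen w)
  have hg : ∀ w x, g w x = if x ≤ pt w then 1 else 0 := by
    intro w x
    simp only [g, BoundedContinuousFunction.indicator_apply, Set.indicator, mem_Iic]
    split_ifs <;> simp
  have hpt : ∀ v w : WW, v < w → pt v < pt w := fun v w h => o_mono h
  refine main_abstract (M := M) (F := F) hM hFc hF1 hc hFn W1 W2 (fun w => T (g w)) ‖T‖ d hd ?_ ?_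
  · intro n δ γ hδγ hγδ
    have hδm : StrictMono δ := strictMono_nat_of_lt_succ fun i => (hδγ i).trans (hγδ i)
    rw [show ∑ i ∈ Finset.range n, (T (g (δ i)) - T (g (γ i))) =
      T (∑ i ∈ Finset.range n, (g (δ i) - g (γ i))) by rw [map_sum]; simp only [map_sub]]
    have h1 : ‖∑ i ∈ Finset.range n, (g (δ i) - g (γ i))‖ ≤ 1 := by
      rw [BoundedContinuousFunction.norm_le zero_le_one]
      intro x
      have h2 : (∑ i ∈ Finset.range n, (g (δ i) - g (γ i))) x =
          - (((Finset.range n).filter (fun i => pt (δ i) < x ∧ x ≤ pt (γ i))).card : ℝ) := by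
        rw [Finset.card_filter]
        push_cast
        rw [← Finset.sum_neg_distrib]
        rw [BoundedContinuousFunction.sum_apply]
        apply Finset.sum_congr rfl
        intro i _
        rw [BoundedContinuousFunction.sub_apply, hg, hg]
        have h3 := hpt _ _ (hδγ i)
        by_cases h4 : x ≤ pt (δ i)
        · simp [h4, h4.trans h3.le, not_lt.2 h4]
        · by_cases h5 : x ≤ pt (γ i)
          · simp [h4, h5, not_le.1 h4]
          · simp [h4, h5]
      rw [h2, norm_neg]
      have h3 : ((Finset.range n).filter (fun i => pt (δ i) < x ∧ x ≤ pt (γ i))).card ≤ 1 := by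
        rw [Finset.card_le_one]
        intro i hi j hj
        rw [Finset.mem_filter] at hi hj
        by_contra hij
        rcases lt_or_gt_of_ne hij with hlt | hlt
        · have h6 : pt (γ i) < pt (δ j) := by
            refine (hpt _ _ (hγδ i)).trans_le ?_
            rcases (Nat.succ_le_of_lt hlt).eq_or_lt with h | h
            · rw [← h]
            · exact (hpt _ _ (hδm h)).le
          exact absurd ((hi.2.2.trans_lt h6).trans hj.2.1) (lt_irrefl _)
        · have h6 : pt (γ j) < pt (δ i) := by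
            refine (hpt _ _ (hγδ j)).trans_le ?_
            rcases (Nat.succ_le_of_lt hlt).eq_or_lt with h | h
            · rw [← h]
            · exact (hpt _ _ (hδm h)).le
          exact absurd ((hj.2.2.trans_lt h6).trans hi.2.1) (lt_irrefl _)
      simpa using h3
    calc ‖T (∑ i ∈ Finset.range n, (g (δ i) - g (γ i)))‖
        ≤ ‖T‖ * ‖∑ i ∈ Finset.range n, (g (δ i) - g (γ i))‖ := T.le_opNorm _
      _ ≤ ‖T‖ * 1 := by gcongr
      _ = ‖T‖ := mul_one _
  · intro n δ hδ
    rw [show ∑ i ∈ Finset.range n, (T (g (δ (n + i))) - T (g (δ i))) =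
      T (∑ i ∈ Finset.range n, (g (δ (n + i)) - g (δ i))) by rw [map_sum]; simp only [map_sub]]
    refine le_trans ?_ (hT _)
    gcongr
    have h2 : (∑ i ∈ Finset.range n, (g (δ (n + i)) - g (δ i))) (pt (δ n)) = n := by
      rw [BoundedContinuousFunction.sum_apply]
      rw [Finset.sum_congr rfl (g := fun _ => (1 : ℝ))]
      · simp
      intro i hi
      rw [Finset.mem_range] at hi
      rw [BoundedContinuousFunction.sub_apply, hg, hg]
      have h3 : pt (δ n) ≤ pt (δ (n + i)) := by
        rcases Nat.eq_zero_or_pos i with h | h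
        · subst h; rfl
        · exact (hpt _ _ (hδ (by omega))).le
      have h4 : ¬ pt (δ n) ≤ pt (δ i) := not_le.2 (hpt _ _ (hδ hi))
      simp [h3, h4]
    calc (n : ℝ) = ‖(∑ i ∈ Finset.range n, (g (δ (n + i)) - g (δ i))) (pt (δ n))‖ := by
          rw [h2]; simp
      _ ≤ _ := BoundedContinuousFunction.norm_coe_le_norm _ _

end Pool.Agent.S04134
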