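import Pool.Statements.S04144
import Pool.Agent.Lib_helper40.ExoFinal

set_option autoImplicit false
open Pool Pool.MP_2937c0_an

namespace Pool.Agent.S04144

/-- The negation of the preceding statement: For every real Banach space X and every uniformly continuous involution f of its closed unit ball, there is a sequence x_n in the ball with ‖f(x_n) − x_n‖ tending to 0. -/
theorem result :
    ¬ (∀ (X : Type) [NormedAddCommGroup X] [NormedSpace ℝ X] [CompleteSpace X] (f : X → X),
      Set.MapsTo f (Metric.closedBall (0 : X) 1) (Metric.closedBall (0 : X) 1) →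
      UniformContinuousOn f (Metric.closedBall (0 : X) 1) →
      (∀ x ∈ Metric.closedBall (0 : X) 1, f (f x) = x) →
      ∃ u : ℕ → X, (∀ n, u n ∈ Metric.closedBall (0 : X) 1) ∧
        Filter.Tendsto (fun n => ‖f (u n) - u n‖) Filter.atTop (nhds 0)) := by
  intro h
  obtain ⟨f, hm, huc, hinv, δ, hδ, hd⟩ := Pool.Agent.Lib_helper40.exotic_ball
  obtain ⟨u, hu, hlim⟩ := h Pool.Agent.Lib_helper40.X1 f hm huc hinv
  have h1 : δ ≤ 0 := ge_of_tendsto' hlim (fun n => hd _ (hu n))
  linarith

end Pool.Agent.S04144
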