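import Pool.Statements.S04194

set_option autoImplicit false
open Pool Pool.MP_2cf295_an

namespace Pool.Agent.S04194

/-- splitting a sum over `range (2 * N)` in even and odd parts. -/
lemma sum_range_two_mul {M : Type*} [AddCommMonoid M] (f : ℕ → M) (N : ℕ) :
    ∑ n ∈ Finset.range (2 * N), f n = ∑ n ∈ Finset.range N, (f (2 * n) + f (2 * n + 1)) := by
  induction N with
  | zero => simp
  | succ N ih =>
    rw [show 2 * (N + 1) = 2 * N + 1 + 1 by ring, Finset.sum_range_succ, Finset.sum_range_succ, ih,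
      Finset.sum_range_succ, add_assoc]

/-- Rudin-Shapiro polynomials. -/
lemma rudin_shapiro (k : ℕ) : ∃ ε : ℕ → ℂ, (∀ n, ‖ε n‖ = 1) ∧ ∀ z : ℂ, ‖z‖ = 1 →
    ‖∑ n ∈ Finset.range (2 ^ k), ε n * z ^ n‖ ^ 2 +
      ‖∑ n ∈ Finset.range (2 ^ k), ε n * (-z) ^ n‖ ^ 2 ≤ 2 * 2 ^ k := by
  induction k with
  | zero =>
    refine ⟨fun _ => 1, fun _ => by simp, fun z hz => ?_⟩
    simp
    norm_num
  | succ k ih =>
    obtain ⟨ε, hε, h⟩ := ih
    refine ⟨fun n => if n % 2 = 0 then ε (n / 2) else (-1) ^ (n / 2) * ε (n / 2), fun n => ?_,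
      fun z hz => ?_⟩
    · dsimp only
      split_ifs
      · exact hε _
      · simp [hε]
    · have key : ∀ w : ℂ, ∑ n ∈ Finset.range (2 ^ (k + 1)),
          (if n % 2 = 0 then ε (n / 2) else (-1) ^ (n / 2) * ε (n / 2)) * w ^ n =
          (∑ n ∈ Finset.range (2 ^ k), ε n * (w ^ 2) ^ n) +
            w * ∑ n ∈ Finset.range (2 ^ k), ε n * (-(w ^ 2)) ^ n := by
        intro w
        rw [pow_succ, mul_comm (2 ^ k) 2, sum_range_two_mul, Finset.sum_add_distrib,
          Finset.mul_sum]
        congr 1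
        · refine Finset.sum_congr rfl fun n _ => ?_
          rw [if_pos (by omega), show 2 * n / 2 = n by omega, pow_mul]
        · refine Finset.sum_congr rfl fun n _ => ?_
          rw [if_neg (by omega), show (2 * n + 1) / 2 = n by omega, pow_succ, pow_mul,
            neg_pow (w ^ 2) n]
          ring
      have hz2 : ‖z ^ 2‖ = 1 := by rw [norm_pow, hz, one_pow]
      have h2 := h (z ^ 2) hz2
      rw [key z, key (-z)]
      have e1 : (-z) ^ 2 = z ^ 2 := by ring
      rw [e1]
      set A := ∑ n ∈ Finset.range (2 ^ k), ε n * (z ^ 2) ^ n with hA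
      set B := ∑ n ∈ Finset.range (2 ^ k), ε n * (-(z ^ 2)) ^ n with hB
      have par := parallelogram_law_with_norm ℝ A (z * B)
      have e2 : A + -z * B = A - z * B := by ring
      rw [e2]
      have e3 : ‖z * B‖ = ‖B‖ := by rw [norm_mul, hz, one_mul]
      rw [e3] at par
      have : ‖A + z * B‖ ^ 2 + ‖A - z * B‖ ^ 2 = 2 * (‖A‖ ^ 2 + ‖B‖ ^ 2) := by
        nlinarith [par]
      have e4 : (2 : ℝ) ^ (k + 1) = 2 * 2 ^ k := by ring
      rw [this, e4]
      linarith

/-- the set of odd integers is not a Sidon set. -/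
lemma odd_not_sidon : ¬ (∃ C : ℝ, ∀ (s : Finset ℤ) (c : ℤ → ℂ), (↑s ⊆ {n : ℤ | Odd n}) →
        ∑ n ∈ s, ‖c n‖ ≤ C * ‖∑ n ∈ s, c n • (fourier n : C(UnitAddCircle, ℂ))‖) := by
  rintro ⟨C, hC⟩
  -- choose `k` large
  obtain ⟨k, hk⟩ : ∃ k : ℕ, 2 * C ^ 2 < 2 ^ k := pow_unbounded_of_one_lt _ (by norm_num)
  obtain ⟨ε, hε, h⟩ := rudin_shapiro k
  let g : ℕ → ℤ := fun n => 2 * (n : ℤ) + 1
  have hg : Function.Injective g := fun a b hab => by
    simp only [g] at hab; omega
  let s : Finset ℤ := (Finset.range (2 ^ k)).map ⟨g, hg⟩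
  let c : ℤ → ℂ := fun m => ε ((m - 1) / 2).toNat
  have hs : (↑s : Set ℤ) ⊆ {n : ℤ | Odd n} := by
    intro m hm
    simp only [s, Finset.coe_map, Set.mem_image, Function.Embedding.coeFn_mk] at hm
    obtain ⟨a, _, rfl⟩ := hm
    exact ⟨(a : ℤ), rfl⟩
  have hc : ∀ n : ℕ, c (g n) = ε n := by
    intro n
    simp only [c, g]
    congr 1
    omega
  have h1 := hC s c hs
  have h2 : ∑ n ∈ s, ‖c n‖ = 2 ^ k := by
    simp only [s, Finset.sum_map, Function.Embedding.coeFn_mk, hc, hε]
    simp
  have h3 : ‖∑ n ∈ s, c n • (fourier n : C(UnitAddCircle, ℂ))‖ ≤ Real.sqrt (2 * 2 ^ k) := by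
    rw [ContinuousMap.norm_le _ (Real.sqrt_nonneg _)]
    intro x
    have hz : ‖(fourier 2 x : ℂ)‖ = 1 := by
      rw [fourier_apply]; exact Circle.norm_coe _
    have e : (∑ n ∈ s, c n • (fourier n : C(UnitAddCircle, ℂ))) x =
        fourier 1 x * ∑ n ∈ Finset.range (2 ^ k), ε n * (fourier 2 x) ^ n := by
      simp only [s, Finset.sum_map, Function.Embedding.coeFn_mk, hc]
      rw [ContinuousMap.coe_sum, Finset.sum_apply, Finset.mul_sum]
      refine Finset.sum_congr rfl fun n _ => ?_
      simp only [ContinuousMap.coe_smul, Pi.smul_apply, smul_eq_mul, g]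
      rw [fourier_add]
      have : (fourier (2 * (n : ℤ)) x : ℂ) = (fourier 2 x) ^ n := by
        rw [fourier_apply, fourier_apply, mul_comm, mul_zsmul, natCast_zsmul,
          AddCircle.toCircle_nsmul]
        simp
      rw [this]; ring
    rw [e, norm_mul]
    have hf1 : ‖(fourier 1 x : ℂ)‖ = 1 := by
      rw [fourier_apply]; exact Circle.norm_coe _
    rw [hf1, one_mul]
    refine Real.le_sqrt_of_sq_le ?_
    have := h _ hz
    nlinarith [sq_nonneg ‖∑ n ∈ Finset.range (2 ^ k), ε n * (-(fourier 2 x : ℂ)) ^ n‖]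
  rw [h2] at h1
  have hpos : (0 : ℝ) < 2 ^ k := by positivity
  have hCpos : 0 < C := by
    by_contra hneg
    push Not at hneg
    have : C * ‖∑ n ∈ s, c n • (fourier n : C(UnitAddCircle, ℂ))‖ ≤ 0 :=
      mul_nonpos_of_nonpos_of_nonneg hneg (norm_nonneg _)
    linarith
  have h4 : (2 : ℝ) ^ k ≤ C * Real.sqrt (2 * 2 ^ k) :=
    h1.trans (mul_le_mul_of_nonneg_left h3 hCpos.le)
  have h5 : ((2 : ℝ) ^ k) ^ 2 ≤ C ^ 2 * (2 * 2 ^ k) := by
    have := pow_le_pow_left₀ hpos.le h4 2
    rwa [mul_pow, Real.sq_sqrt (by positivity)] at this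
  nlinarith

/-- a continuous function with all Fourier coefficients zero is zero -/
lemma eq_zero_of_fourierCoeff (f : C(UnitAddCircle, ℂ)) (h : ∀ n, fourierCoeff (⇑f) n = 0) :
    f = 0 := by
  have hs : Summable (fourierCoeff (⇑f)) := by
    have : fourierCoeff (⇑f) = fun _ => 0 := funext h
    rw [this]; exact summable_zero
  have h1 := hasSum_fourier_series_of_summable hs
  have h2 : (fun i => fourierCoeff (⇑f) i • (fourier i : C(UnitAddCircle, ℂ))) = fun _ => 0 := by
    funext i; rw [h i]; ext x; simp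
  rw [h2] at h1
  exact h1.unique hasSum_zero

/-- Fourier coefficients of a translate -/
lemma fourierCoeff_translate (f : C(UnitAddCircle, ℂ)) (a : UnitAddCircle) (n : ℤ) :
    fourierCoeff (fun x => f (x + a)) n = fourier n a * fourierCoeff (⇑f) n := by
  unfold fourierCoeff
  have h1 : ∀ t : UnitAddCircle, (fourier (-n) t : ℂ) • f (t + a) =
      (fun u : UnitAddCircle => (fourier n a : ℂ) * ((fourier (-n) u : ℂ) • f u)) (t + a) := by
    intro t
    have e1 : (fourier (-n) (t + a) : ℂ) = fourier (-n) t * fourier (-n) a := by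
      rw [fourier_apply, fourier_apply, fourier_apply, smul_add, AddCircle.toCircle_add]
      simp
    have e2 : (fourier n a : ℂ) * fourier (-n) a = 1 := by
      rw [← fourier_add]; simp
    simp only [smul_eq_mul]
    rw [e1]
    linear_combination (-(fourier (-n) t : ℂ) * f (t + a)) * e2
  simp_rw [h1]
  rw [MeasureTheory.integral_add_right_eq_self
    (fun u : UnitAddCircle => (fourier n a : ℂ) * ((fourier (-n) u : ℂ) • f u)) a]
  rw [MeasureTheory.integral_const_mul]

/-- The negation of the preceding statement: For every set E of integers: every translation-invariant linear functional on continuous circle functions with Fourier spectrum in E is sup-norm bounded if and only if E is a Sidon set. -/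
theorem result :
    ¬ (∀ E : Set ℤ,
    (∀ φ : C(UnitAddCircle, ℂ) → ℂ,
      (∀ f g : C(UnitAddCircle, ℂ),
          (∀ n ∉ E, fourierCoeff (⇑f) n = 0) →
          (∀ n ∉ E, fourierCoeff (⇑g) n = 0) →
          φ (f + g) = φ f + φ g) →
      (∀ (c : ℂ) (f : C(UnitAddCircle, ℂ)),
          (∀ n ∉ E, fourierCoeff (⇑f) n = 0) → φ (c • f) = c * φ f) →
      (∀ (a : UnitAddCircle) (f : C(UnitAddCircle, ℂ)),
          (∀ n ∉ E, fourierCoeff (⇑f) n = 0) →
          φ (f.comp (ContinuousMap.mk (fun x : UnitAddCircle => x + a)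
            (continuous_add_right a))) = φ f) →
      ∃ C : ℝ, ∀ f : C(UnitAddCircle, ℂ),
          (∀ n ∉ E, fourierCoeff (⇑f) n = 0) → ‖φ f‖ ≤ C * ‖f‖)
    ↔
    (∃ C : ℝ, ∀ (s : Finset ℤ) (c : ℤ → ℂ), (↑s ⊆ E) →
        ∑ n ∈ s, ‖c n‖ ≤ C * ‖∑ n ∈ s, c n • (fourier n : C(UnitAddCircle, ℂ))‖)) := by
  intro H
  refine odd_not_sidon ((H {n : ℤ | Odd n}).mp ?_)
  intro φ _ hsmul htrans
  refine ⟨0, fun f hf => ?_⟩
  let a : UnitAddCircle := ((1 / 2 : ℝ) : UnitAddCircle)
  have hcomp : f.comp (ContinuousMap.mk (fun x : UnitAddCircle => x + a)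
            (continuous_add_right a)) = (-1 : ℂ) • f := by
    have hz : f.comp (ContinuousMap.mk (fun x : UnitAddCircle => x + a)
            (continuous_add_right a)) + f = 0 := by
      apply eq_zero_of_fourierCoeff
      intro n
      have hadd : fourierCoeff (⇑(f.comp (ContinuousMap.mk (fun x : UnitAddCircle => x + a)
            (continuous_add_right a)) + f)) n =
          fourierCoeff (fun x => f (x + a)) n + fourierCoeff (⇑f) n := by
        have := fourierCoeff.add (T := (1 : ℝ)) (f := fun x : UnitAddCircle => f (x + a)) (g := ⇑f)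
          ((f.comp (ContinuousMap.mk (fun x : UnitAddCircle => x + a)
            (continuous_add_right a))).continuous.integrable_of_hasCompactSupport
              (HasCompactSupport.of_compactSpace _))
          (f.continuous.integrable_of_hasCompactSupport (HasCompactSupport.of_compactSpace _))
        exact congrFun this n
      rw [hadd, fourierCoeff_translate]
      by_cases hn : Odd n
      · have ha : (fourier n a : ℂ) = -1 := by
          simp only [a]
          rw [fourier_coe_apply]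
          obtain ⟨m, rfl⟩ := hn
          have : 2 * (Real.pi : ℂ) * Complex.I * ((2 * m + 1 : ℤ) : ℂ) * ((1 / 2 : ℝ) : ℂ) /
              ((1 : ℝ) : ℂ) = (Real.pi : ℂ) * Complex.I + (m : ℤ) * (2 * Real.pi * Complex.I) := by
            push_cast
            ring
          rw [this, Complex.exp_add, Complex.exp_int_mul_two_pi_mul_I, Complex.exp_pi_mul_I]
          simp
        rw [ha]; ring
      · rw [hf n hn]; ring
    rw [eq_neg_of_add_eq_zero_left hz]
    ext x; simp
  have h1 := htrans a f hf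
  rw [hcomp, hsmul (-1) f hf] at h1
  have h2 : φ f = 0 := by linear_combination (-1 / 2 : ℂ) * h1
  rw [h2]; simp

end Pool.Agent.S04194
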