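import Pool.Statements.S04768
import Pool.Agent.Lib_helper28.Heat.Main
-- import your own Pool.Agent.* helpers here

set_option autoImplicit false
open MeasureTheory ProbabilityTheory
open Pool Pool.MP_5c2e50_an

namespace Pool.Agent.S04768

/-- The negation of the preceding statement: For each 1<p<∞ there is c>0 such that for all d≥1, n, t≥0 and every polynomial f on R^n orthogonal in Gaussian L2 to all polynomials of degree <d, the Mehler-formula OU semigroup satisfies ‖P_t f‖_p ≤ e^{-tdc}‖f‖_p in Gaussian L_p. -/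
theorem result :
    ¬ (∀ p : ℝ, 1 < p → ∃ c : ℝ, 0 < c ∧
      ∀ (d n : ℕ), 1 ≤ d → ∀ f : MvPolynomial (Fin n) ℝ,
        (∀ g : MvPolynomial (Fin n) ℝ, g.totalDegree < d →
          ∫ x, MvPolynomial.eval x f * MvPolynomial.eval x g
            ∂(Measure.pi (fun _ : Fin n => gaussianReal 0 1)) = 0) →
        ∀ t : ℝ, 0 ≤ t →
          (∫ x, |∫ y, MvPolynomial.eval
                (fun i => Real.exp (-t) * x i + Real.sqrt (1 - Real.exp (-2 * t)) * y i) f
                ∂(Measure.pi (fun _ : Fin n => gaussianReal 0 1))| ^ p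
              ∂(Measure.pi (fun _ : Fin n => gaussianReal 0 1))) ^ (1 / p)
            ≤ Real.exp (-(t * (d : ℝ) * c)) *
              (∫ x, |MvPolynomial.eval x f| ^ p
                ∂(Measure.pi (fun _ : Fin n => gaussianReal 0 1))) ^ (1 / p)) := by
  intro H
  obtain ⟨c, hc, Hc⟩ := H (4 / 3) (by norm_num)
  obtain ⟨d, n, g, t, hd, ht, hg, hlt⟩ := Pool.Agent.Lib28.Heat.heat_fails c hc
  have h1 := Hc d n hd (∑ i : Fin n, Polynomial.aeval (MvPolynomial.X i) g)
    (fun G hG => Pool.Agent.Lib28.Heat.additive_tail n d g hg G hG) t ht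
  simp_rw [Pool.Agent.Lib28.Heat.additive_mehler n g t] at h1
  have h2 : ∀ x : Fin n → ℝ, MvPolynomial.eval x
      (∑ i : Fin n, Polynomial.aeval (MvPolynomial.X i) g) = ∑ i : Fin n, g.eval (x i) := by
    intro x
    rw [map_sum]
    exact Finset.sum_congr rfl fun i _ => Pool.Agent.Lib28.Heat.PM.eval_aeval g x i
  simp_rw [h2] at h1
  exact absurd h1 (not_le.mpr hlt)

end Pool.Agent.S04768
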