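import Pool.Statements.S05038
import Pool.Agent.Lib_helper40.TreeLinf
import Pool.Agent.Lib_helper40.TreeRefl

set_option autoImplicit false
open Pool Pool.MP_71cf49_an

namespace Pool.Agent.S05038

/-- The negation of the preceding statement: Every infinite-dimensional real Banach space either has a closed infinite-dimensional subspace that is an L-infinity space (finite-dim subspaces sit in uniformly ℓ∞^n-isomorphic ones) or maps onto an infinite-dimensional reflexive Banach space. -/
theorem result :
    ¬ (∀ (E : Type) [NormedAddCommGroup E] [NormedSpace ℝ E] [CompleteSpace E],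
      ¬ FiniteDimensional ℝ E →
      ((∃ W : Submodule ℝ E, IsClosed (W : Set E) ∧ ¬ FiniteDimensional ℝ W ∧
          ∃ c : ℝ, ∀ F : Submodule ℝ E, F ≤ W → FiniteDimensional ℝ F →
            ∃ G : Submodule ℝ E, F ≤ G ∧ G ≤ W ∧ FiniteDimensional ℝ G ∧
              ∃ T : G ≃L[ℝ] (Fin (Module.finrank ℝ G) → ℝ),
                ‖T.toContinuousLinearMap‖ * ‖T.symm.toContinuousLinearMap‖ ≤ c) ∨
       (∃ (Z : Type) (_ : NormedAddCommGroup Z) (_ : NormedSpace ℝ Z) (_ : CompleteSpace Z),
          ¬ FiniteDimensional ℝ Z ∧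
          Function.Surjective (NormedSpace.inclusionInDoubleDual ℝ Z) ∧
          ∃ S : E →L[ℝ] Z, Function.Surjective S))) := by
  intro h
  rcases h Pool.Agent.Lib_helper40.Tree.EE
      Pool.Agent.Lib_helper40.Tree.not_finiteDimensional with
    ⟨W, _, hW, c, hc⟩ | ⟨Z, _, _, _, hZ, hrefl, S, hS⟩
  · exact Pool.Agent.Lib_helper40.Tree.no_linf W hW c hc
  · exact Pool.Agent.Lib_helper40.Tree.no_refl hZ hrefl S hS

end Pool.Agent.S05038
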