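import Pool.Statements.S05072
import Pool.Agent.Lib_helper60.Ulam3

set_option autoImplicit false
open Pool Pool.MP_75b936_an

namespace Pool.Agent.S05072

open Set Filter Topology Pool.Agent.Lib_helper60.Ulam

/-- the three functions as a family -/
noncomputable def fam (c : ℝ → ℝ) (i : Fin 3) (x : ℝ) : ℝ := vec c x i

lemma fam_cont {c : ℝ → ℝ} (hc : Continuous c) (i : Fin 3) : Continuous (fam c i) := by
  fin_cases i
  · exact s_cont
  · exact p_cont
  · exact hc

lemma foldr_path (c : ℝ → ℝ) (k : ℕ) (x : ℝ) :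
    ((List.replicate k (0 : Fin 3) ++ [1]).foldr (fun j y => fam c j y) x) = g k x := by
  induction k with
  | zero => rfl
  | succ k ih =>
    rw [List.replicate_succ, List.cons_append, List.foldr_cons, ih]
    have : g (k + 1) x = s (g k x) := Function.iterate_succ_apply' _ _ _
    rw [this]
    rfl

/-- the key step: every quotient (including quotient by `1`) has a primitive on `I`
which is a rational combination of two superpositions. -/
lemma key {c : ℝ → ℝ} (hc : Adm c)
    (hcode : ∀ i : Idx, ∃ k N : ℕ, 0 < N ∧ ∀ x, (N : ℝ) * c (g k x) = base i c x)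
    (P Q : MvPolynomial (Fin 3) ℤ) (I : Set ℝ) (hIo : IsOpen I) (hIc : I.OrdConnected)
    (hIne : I.Nonempty) (hQ : ∀ x ∈ I, ev c Q x ≠ 0) :
    ∃ F : ℝ → ℝ, (∀ x ∈ I, HasDerivAt F (ev c P x / ev c Q x) x) ∧
      ∃ P' Q' : MvPolynomial (Fin 3 × List (Fin 3)) ℤ, MvPolynomial.constantCoeff P' = 0 ∧
        MvPolynomial.constantCoeff Q' = 0 ∧
        ∀ x ∈ I,
          MvPolynomial.aeval
            (fun v : Fin 3 × List (Fin 3) => fam c v.1 (v.2.foldr (fun j y => fam c j y) x)) Q' ≠ 0 ∧
          F x =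
            MvPolynomial.aeval
              (fun v : Fin 3 × List (Fin 3) => fam c v.1 (v.2.foldr (fun j y => fam c j y) x)) P' /
            MvPolynomial.aeval
              (fun v : Fin 3 × List (Fin 3) => fam c v.1 (v.2.foldr (fun j y => fam c j y) x)) Q' := by
  obtain ⟨x0, hx0⟩ : ∃ x0 : ℚ, (x0 : ℝ) ∈ I := by
    exact (Rat.denseRange_cast (𝕜 := ℝ)).exists_mem_open hIo hIne
  obtain ⟨k1, N1, hN1, h1⟩ := hcode (P, Q, x0, true)
  obtain ⟨k2, N2, hN2, h2⟩ := hcode (P, Q, x0, false)
  have hqc : Continuous (ev c Q) := ev_cont hc.1 Q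
  have hrc : Continuous (ev c P) := ev_cont hc.1 P
  refine ⟨fun x => ∫ t in (x0 : ℝ)..x, ev c P t / ev c Q t, ?_, ?_⟩
  · intro x hx
    have hseg : uIcc (x0 : ℝ) x ⊆ I := hIc.uIcc_subset hx0 hx
    have hcon : ContinuousOn (fun t => ev c P t / ev c Q t) I :=
      hrc.continuousOn.div hqc.continuousOn hQ
    apply intervalIntegral.integral_hasDerivAt_right
    · exact (hcon.mono hseg).intervalIntegrable
    · exact hcon.stronglyMeasurableAtFilter hIo x hx
    · exact hcon.continuousAt (hIo.mem_nhds hx)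
  · refine ⟨MvPolynomial.C (N1 : ℤ) * MvPolynomial.X (2, List.replicate k1 0 ++ [1]),
      MvPolynomial.C (N2 : ℤ) * MvPolynomial.X (2, List.replicate k2 0 ++ [1]),
      by simp, by simp, ?_⟩
    intro x hx
    have e1 : MvPolynomial.aeval
        (fun v : Fin 3 × List (Fin 3) => fam c v.1 (v.2.foldr (fun j y => fam c j y) x))
        (MvPolynomial.C (N1 : ℤ) * MvPolynomial.X (2, List.replicate k1 0 ++ [1])
          : MvPolynomial (Fin 3 × List (Fin 3)) ℤ)
        = GG (ev c Q) (ev c P) (x0 : ℝ) x := by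
      rw [map_mul, MvPolynomial.aeval_X, MvPolynomial.algHom_C]
      simp only [foldr_path]
      have h3 := h1 x
      have h4 : base (P, Q, x0, true) c = GG (ev c Q) (ev c P) (x0 : ℝ) := by simp [base]
      rw [h4] at h3
      rw [← h3]
      rfl
    have e2 : MvPolynomial.aeval
        (fun v : Fin 3 × List (Fin 3) => fam c v.1 (v.2.foldr (fun j y => fam c j y) x))
        (MvPolynomial.C (N2 : ℤ) * MvPolynomial.X (2, List.replicate k2 0 ++ [1])
          : MvPolynomial (Fin 3 × List (Fin 3)) ℤ)
        = WW (ev c Q) (x0 : ℝ) x := by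
      rw [map_mul, MvPolynomial.aeval_X, MvPolynomial.algHom_C]
      simp only [foldr_path]
      have h3 := h2 x
      have h4 : base (P, Q, x0, false) c = WW (ev c Q) (x0 : ℝ) := by simp [base]
      rw [h4] at h3
      rw [← h3]
      rfl
    rw [e1, e2]
    have hseg : uIcc (x0 : ℝ) x ⊆ I := hIc.uIcc_subset hx0 hx
    have hmp : 0 < mm (ev c Q) (x0 : ℝ) x := by
      apply mm_pos hqc
      intro θ hθ
      apply hQ
      apply hseg
      have := (convex_uIcc (x0 : ℝ) x).add_smul_sub_mem (left_mem_uIcc) (right_mem_uIcc) hθ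
      simpa [mul_comm] using this
    have hW : 0 < WW (ev c Q) (x0 : ℝ) x := by
      unfold WW
      positivity
    refine ⟨hW.ne', ?_⟩
    rw [GG_eq]
    field_simp

/-- The negation of the preceding statement: For any continuous f_1..f_n not all zero there are a rational combination R of them, defined on an open interval I, such that no antiderivative of R on I equals on I a rational combination of superpositions of the f_i. -/
theorem result :
    ¬ (∀ n : ℕ, ∀ f : Fin n → ℝ → ℝ, (∀ i, Continuous (f i)) → (∃ i x, f i x ≠ 0) →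
      ∃ (R : ℝ → ℝ) (I : Set ℝ), IsOpen I ∧ I.OrdConnected ∧ I.Nonempty ∧
        (∃ P Q : MvPolynomial (Fin n) ℤ, MvPolynomial.constantCoeff P = 0 ∧
          ((∀ x ∈ I, R x = MvPolynomial.aeval (fun i => f i x) P) ∨
           (MvPolynomial.constantCoeff Q = 0 ∧
             ∀ x ∈ I, MvPolynomial.aeval (fun i => f i x) Q ≠ 0 ∧
               R x = MvPolynomial.aeval (fun i => f i x) P /
                 MvPolynomial.aeval (fun i => f i x) Q))) ∧
        ¬ ∃ F : ℝ → ℝ, (∀ x ∈ I, HasDerivAt F (R x) x) ∧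
          ∃ P Q : MvPolynomial (Fin n × List (Fin n)) ℤ, MvPolynomial.constantCoeff P = 0 ∧
            ((∀ x ∈ I, F x =
                MvPolynomial.aeval
                  (fun v : Fin n × List (Fin n) => f v.1 (v.2.foldr (fun j y => f j y) x)) P) ∨
             (MvPolynomial.constantCoeff Q = 0 ∧
               ∀ x ∈ I,
                 MvPolynomial.aeval
                   (fun v : Fin n × List (Fin n) => f v.1 (v.2.foldr (fun j y => f j y) x)) Q ≠ 0 ∧
                 F x =
                   MvPolynomial.aeval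
                     (fun v : Fin n × List (Fin n) => f v.1 (v.2.foldr (fun j y => f j y) x)) P /
                   MvPolynomial.aeval
                     (fun v : Fin n × List (Fin n) => f v.1 (v.2.foldr (fun j y => f j y) x)) Q))) := by
  intro H
  obtain ⟨c, hc, hcode⟩ := exists_code
  obtain ⟨R, I, hIo, hIc, hIne, ⟨P, Q, _, hPQ⟩, hno⟩ :=
    H 3 (fam c) (fam_cont hc.1) ⟨1, 0, (p_pos 0).ne'⟩
  apply hno
  rcases hPQ with hP | ⟨_, hPQ⟩
  · obtain ⟨F, hF, P', Q', hP', hQ', h⟩ := key hc hcode P 1 I hIo hIc hIne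
      (by intro x _; simp [ev])
    refine ⟨F, ?_, P', Q', hP', Or.inr ⟨hQ', h⟩⟩
    intro x hx
    have h1 := hF x hx
    rw [hP x hx]
    have h2 : ev c P x / ev c 1 x = MvPolynomial.aeval (fun i => fam c i x) P := by
      have : ev c 1 x = 1 := by simp [ev]
      rw [this, div_one]
      rfl
    rw [← h2]
    exact h1
  · obtain ⟨F, hF, P', Q', hP', hQ', h⟩ := key hc hcode P Q I hIo hIc hIne
      (fun x hx => (hPQ x hx).1)
    refine ⟨F, ?_, P', Q', hP', Or.inr ⟨hQ', h⟩⟩
    intro x hx
    rw [(hPQ x hx).2]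
    exact hF x hx

end Pool.Agent.S05072
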