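import Pool.Statements.S05173
import Pool.Agent.Lib_helper7.CpCw.Final

set_option autoImplicit false
open Pool Pool.MP_7df33c_an

namespace Pool.Agent.S05173

/-- For every infinite compact Hausdorff space K, the continuous real functions on K with the pointwise topology are not homeomorphic to the Banach space C(K) with its weak topology. -/
theorem result :
    ∀ (K : Type) [TopologicalSpace K] [CompactSpace K] [T2Space K] [Infinite K],
      ¬ Nonempty ({f : K → ℝ // Continuous f} ≃ₜ WeakSpace ℝ C(K, ℝ)) := by
  intro K _ _ _ _
  exact Pool.Agent.CpCw.main

end Pool.Agent.S05173
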