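import Pool.Statements.S05678
import Pool.Agent.Lib_helper25.AD.Blk.FINAL

set_option autoImplicit false
open Filter Topology
open Pool Pool.MP_a4bf89_an

namespace Pool.Agent.S05678

/-- The negation of the preceding statement: For some 1<p<∞ there is a real Banach space with a Schauder basis that is asymptotic ℓ_p and of bounded distortion: some D bounds, for every equivalent norm and infinite-dimensional subspace Y, the norm ratio on some infinite-dimensional Z ≤ Y. -/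
theorem result :
    ¬ (∃ p : ℝ, 1 < p ∧
      ∃ (X : Type) (_ : NormedAddCommGroup X) (_ : NormedSpace ℝ X) (_ : CompleteSpace X)
        (e : ℕ → X),
        (∀ x : X, ∃! a : ℕ → ℝ,
            Tendsto (fun n => ∑ i ∈ Finset.range n, a i • e i) atTop (𝓝 x)) ∧
        (∃ K : ℝ, 0 < K ∧
          ∀ (n : ℕ) (q : ℕ → ℕ) (c : ℕ → ℕ → ℝ), Monotone q → n ≤ q 0 →
            (∀ j < n, ‖∑ i ∈ Finset.Ico (q j) (q (j + 1)), c j i • e i‖ = 1) →
            ∀ a : ℕ → ℝ,
              K⁻¹ * (∑ j ∈ Finset.range n, |a j| ^ p) ^ (1 / p) ≤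
                ‖∑ j ∈ Finset.range n,
                    a j • ∑ i ∈ Finset.Ico (q j) (q (j + 1)), c j i • e i‖ ∧
              ‖∑ j ∈ Finset.range n,
                    a j • ∑ i ∈ Finset.Ico (q j) (q (j + 1)), c j i • e i‖ ≤
                K * (∑ j ∈ Finset.range n, |a j| ^ p) ^ (1 / p)) ∧
        (∃ D : ℝ, ∀ N : Seminorm ℝ X,
          (∃ α β : ℝ, 0 < α ∧ 0 < β ∧ ∀ x : X, α * ‖x‖ ≤ N x ∧ N x ≤ β * ‖x‖) →
          ∀ Y : Submodule ℝ X, ¬ FiniteDimensional ℝ Y →
            ∃ Z : Submodule ℝ X, Z ≤ Y ∧ ¬ FiniteDimensional ℝ Z ∧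
              ∀ z ∈ Z, ∀ w ∈ Z, ‖z‖ = 1 → ‖w‖ = 1 → N z ≤ D * N w)) :=
  Pool.Agent.Lib_helper25.AD.final

end Pool.Agent.S05678
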