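import Pool.Statements.S06403
-- import your own Pool.Agent.* helpers here
import Pool.Agent.Lib_helper94.MX.Final
import Pool.Agent.Lib_helper34.MX.PlanarCount
import Pool.Agent.Lib_helper34.MX.Collinear
import Pool.Agent.Lib_helper17.MX.Ext

set_option autoImplicit false
open N62f3cee0
open scoped Gradient
open Pool Pool.MP_de1f29_an

namespace Pool.Agent.S06403

/-- For all nonzero real charges q at injective positions a in R^3, if every non-charge zero of the gradient of sum q_j/∣x-a_j∣ has nonsingular second derivative, then the set of such critical points has extended cardinality ≤ 4. -/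
theorem result :
    ∀ (q : Fin 3 → ℝ) (a : Fin 3 → EuclideanSpace ℝ (Fin 3)), Function.Injective a → (∀ j, q j ≠ 0) → (∀ x ∈ equilibria q a, HasNondegenerateHessianAt (potential q a) x) → (equilibria q a).encard ≤ 4 := by
  intro q a ha hq hnd
  exact Pool.Agent.MX.main_of Pool.Agent.MX.angle_unique Pool.Agent.MX.planar_count
    Pool.Agent.MX.collinear_case q a ha hq hnd

end Pool.Agent.S06403
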