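import Pool.Statements.S06596
import Pool.Agent.Lib_helper93.Nyman.Ideal

set_option autoImplicit false
open MeasureTheory
open Pool Pool.MP_ed36af_an

namespace Pool.Agent.S06596

/-- The negation of the preceding statement: For a continuous weight ω on [0,∞) with L^1(ω) semisimple (Laplace transform injective), every closed ideal of L^1(ω) with α(I)=0 and no common Laplace-transform zero on the character half-plane is all of L^1(ω). -/
theorem result :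
    ¬ (∀ ω : ℝ → ℝ,
    ContinuousOn ω (Set.Ici 0) →
    (∀ t : ℝ, 0 ≤ t → 0 < ω t) →
    (∀ s t : ℝ, 0 ≤ s → 0 ≤ t → ω (s + t) ≤ ω s * ω t) →
    (∀ f : ℝ → ℂ,
      Integrable (fun t => (ω t : ℂ) * f t) (volume.restrict (Set.Ioi (0:ℝ))) →
      (∀ z : ℂ, (∃ C : ℝ, ∀ t : ℝ, 0 ≤ t → Real.exp (-z.re * t) ≤ C * ω t) →
          ∫ t in Set.Ioi (0:ℝ), f t * Complex.exp (-(z * (t : ℂ))) = 0) →
      f =ᵐ[volume.restrict (Set.Ioi (0:ℝ))] 0) →
    ∀ I : Set (ℝ → ℂ),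
      (∀ f ∈ I, Integrable (fun t => (ω t : ℂ) * f t) (volume.restrict (Set.Ioi (0:ℝ)))) →
      (0 : ℝ → ℂ) ∈ I →
      (∀ f ∈ I, ∀ g ∈ I, f + g ∈ I) →
      (∀ c : ℂ, ∀ f ∈ I, c • f ∈ I) →
      (∀ f ∈ I, ∀ g : ℝ → ℂ, g =ᵐ[volume.restrict (Set.Ioi (0:ℝ))] f → g ∈ I) →
      (∀ f ∈ I, ∀ g : ℝ → ℂ,
        Integrable (fun t => (ω t : ℂ) * g t) (volume.restrict (Set.Ioi (0:ℝ))) →
        (fun t : ℝ => ∫ s in Set.Ioo (0:ℝ) t, g s * f (t - s)) ∈ I) →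
      (∀ f : ℝ → ℂ,
        Integrable (fun t => (ω t : ℂ) * f t) (volume.restrict (Set.Ioi (0:ℝ))) →
        (∀ ε : ℝ, 0 < ε → ∃ g ∈ I, ∫ t in Set.Ioi (0:ℝ), ‖f t - g t‖ * ω t < ε) →
        f ∈ I) →
      (∀ ε : ℝ, 0 < ε → ∃ f ∈ I, ¬ (f =ᵐ[volume.restrict (Set.Ioo (0:ℝ) ε)] 0)) →
      (∀ z : ℂ, (∃ C : ℝ, ∀ t : ℝ, 0 ≤ t → Real.exp (-z.re * t) ≤ C * ω t) →
        ∃ f ∈ I, ∫ t in Set.Ioi (0:ℝ), f t * Complex.exp (-(z * (t : ℂ))) ≠ 0) →
      ∀ f : ℝ → ℂ,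
        Integrable (fun t => (ω t : ℂ) * f t) (volume.restrict (Set.Ioi (0:ℝ))) →
        f ∈ I) := by
  intro H
  have key := H Pool.Agent.Nyman.om Pool.Agent.Nyman.om_continuousOn
    (fun t _ => Pool.Agent.Nyman.om_pos t)
    (fun s t hs ht => Pool.Agent.Nyman.om_submul hs ht)
    (by
      intro f hf hz
      have hfW : Pool.Agent.Nyman.IntW f := hf
      apply Pool.Agent.Nyman.H53.ae_zero_of_laplace f hfW.integrableOn
      intro y
      apply hz ((y : ℂ) * Complex.I)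
      refine ⟨1, fun t ht => ?_⟩
      have h1 : ((y : ℂ) * Complex.I).re = 0 := by simp
      rw [h1]
      simpa using Pool.Agent.Nyman.one_le_om t)
    Pool.Agent.Nyman.II
    (fun f hf => hf.1)
    Pool.Agent.Nyman.II_zero
    (fun f hf g hg => Pool.Agent.Nyman.II_add hf hg)
    (fun c f hf => Pool.Agent.Nyman.II_smul c hf)
    (fun f hf g hg => Pool.Agent.Nyman.II_congr hf hg)
    (fun f hf g hg => Pool.Agent.Nyman.II_conv hf hg)
    (fun f hf h => Pool.Agent.Nyman.II_closed hf h)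
    Pool.Agent.Nyman.II_alpha
    (by
      intro z hz
      obtain ⟨C, hC⟩ := hz
      exact Pool.Agent.Nyman.II_hull z (Pool.Agent.Nyman.re_nonneg_of_char hC))
    Pool.Agent.Nyman.uu Pool.Agent.Nyman.uu_intW
  exact Pool.Agent.Nyman.uu_not_mem key

end Pool.Agent.S06596
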