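import Pool.Statements.S06635
import Pool.Agent.Lib_helper34.EclF.FINA
import Pool.Agent.Lib_helper51.EclC.Fin

set_option autoImplicit false
open Pool Pool.MP_efcf7c_an

namespace Pool.Agent.S06635

/-- For every finite word in three letters there are positive masses and a maximal collision-free planar Newtonian three-body solution whose collinear times are finitely many, in order, with the middle body at each matching the word. -/
theorem result :
    ∀ w : List (Fin 3), ∃ m : Fin 3 → ℝ, (∀ a, 0 < m a) ∧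
      ∀ Sol : EReal → EReal → (Fin 3 → ℝ → ℂ) → Prop,
        (∀ (α ω : EReal) (q : Fin 3 → ℝ → ℂ), Sol α ω q ↔
          ∀ t : ℝ, α < (t : EReal) → (t : EReal) < ω →
            (∀ a b : Fin 3, a ≠ b → q a t ≠ q b t) ∧
            ∀ a : Fin 3, HasDerivAt (q a) (deriv (q a) t) t ∧
              HasDerivAt (deriv (q a))
                (∑ b ∈ Finset.univ.erase a,
                  (m b : ℂ) * (q b t - q a t) / ((‖q b t - q a t‖ ^ 3 : ℝ) : ℂ)) t) →
        ∃ (α ω : EReal) (q : Fin 3 → ℝ → ℂ), α < ω ∧ Sol α ω q ∧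
          (∀ (α' ω' : EReal) (q' : Fin 3 → ℝ → ℂ), Sol α' ω' q' → α' ≤ α → ω ≤ ω' →
            (∀ t : ℝ, α < (t : EReal) → (t : EReal) < ω → ∀ a, q' a t = q a t) →
            α' = α ∧ ω' = ω) ∧
          ∃ τ : Fin w.length → ℝ, StrictMono τ ∧
            (∀ i, α < (τ i : EReal) ∧ (τ i : EReal) < ω) ∧
            (∀ t : ℝ, α < (t : EReal) → (t : EReal) < ω →
              Collinear ℝ ({q 0 t, q 1 t, q 2 t} : Set ℂ) → ∃ i, τ i = t) ∧
            ∀ (i : Fin w.length) (b c : Fin 3), b ≠ w.get i → c ≠ w.get i → b ≠ c →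
              Sbtw ℝ (q b (τ i)) (q (w.get i) (τ i)) (q c (τ i)) :=
  Pool.Agent.Ecl.final Pool.Agent.Ecl.statementI

end Pool.Agent.S06635
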