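import Pool.Statements.S06787
import Pool.Agent.Lib_helper20.FiskFinal

set_option autoImplicit false
open Pool Pool.MP_fa50a1_an

namespace Pool.Agent.S06787

/-- For every real polynomial p with non-negative coefficients and only real zeros, the polynomial T_3p, whose k-th coefficient is the determinant of the 3x3 matrix (a_{k+j-i}), has non-negative coefficients and only real zeros. -/
theorem result :
    ∀ p : Polynomial ℝ, (∀ k : ℕ, 0 ≤ p.coeff k) →
      (∀ z : ℂ, Polynomial.aeval z p = 0 → z.im = 0) →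
      ∀ q : Polynomial ℝ,
        q = ∑ k ∈ Finset.range (p.natDegree + 1),
          Polynomial.C (Matrix.det (Matrix.of (fun i j : Fin 3 =>
            if 0 ≤ (k : ℤ) + ((j : ℕ) : ℤ) - ((i : ℕ) : ℤ)
            then p.coeff ((k : ℤ) + ((j : ℕ) : ℤ) - ((i : ℕ) : ℤ)).toNat
            else (0 : ℝ)))) * Polynomial.X ^ k →
        (∀ k : ℕ, 0 ≤ q.coeff k) ∧ (∀ z : ℂ, Polynomial.aeval z q = 0 → z.im = 0) := by
  exact Pool.Agent.Lib_helper20.Fisk.main

end Pool.Agent.S06787
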