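import Pool.Statements.S07654
import Pool.Agent.Lib_helper99.IDP.Num

set_option autoImplicit false
open scoped Pointwise
open Pool Pool.MP_2302e2_co

namespace Pool.Agent.S07654

/-- The negation of the preceding statement: For every lattice polytope P in R^d with the integer decomposition property, the h*-coefficients h*_0,…,h*_dim P, computed from lattice-point counts of dilates of P, increase weakly up to some index and then decrease weakly. -/
theorem result :
    ¬ (∀ (d : ℕ) (S : Finset (Fin d → ℤ)), S.Nonempty →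
    ∀ (P : Set (Fin d → ℝ)),
      P = convexHull ℝ ((fun v : Fin d → ℤ => fun i => (v i : ℝ)) '' (S : Set (Fin d → ℤ))) →
    (∀ k : ℕ, 1 ≤ k → ∀ z : Fin d → ℤ, (fun i => (z i : ℝ)) ∈ (k : ℝ) • P →
      ∃ f : Fin k → (Fin d → ℤ), (∀ j, (fun i => (f j i : ℝ)) ∈ P) ∧ ∑ j, f j = z) →
    ∀ (n : ℕ), n = Module.finrank ℝ (vectorSpan ℝ P) →
    ∀ (h : ℕ → ℤ),
      (∀ j, h j = ∑ i ∈ Finset.range (j + 1),
        (-1 : ℤ) ^ i * ((Nat.choose (n + 1) i : ℕ) : ℤ) *
          ((Set.ncard {z : Fin d → ℤ | (fun l => (z l : ℝ)) ∈ (((j - i : ℕ) : ℝ)) • P} : ℕ) : ℤ)) →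
    ∃ m : ℕ, m ≤ n ∧
      (∀ a b : ℕ, a ≤ b → b ≤ m → h a ≤ h b) ∧
      (∀ a b : ℕ, m ≤ a → a ≤ b → b ≤ n → h b ≤ h a)) := by
  intro H
  have key := H (18 + 18) (Pool.Agent.Lib_helper99.IDP.Sv 18 1000 14)
    (Pool.Agent.Lib_helper99.IDP.Sv_nonempty 18 1000 14)
    (Pool.Agent.Lib_helper99.IDP.PP 18 1000 14) rfl
    (fun k _ z hz => by
      obtain ⟨f, hf, hs⟩ := Pool.Agent.Lib_helper99.IDP.idp 18 1000 14 k z
        ((Pool.Agent.Lib_helper99.IDP.mem_smul_PP_int 18 1000 14 k z).1 hz)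
      exact ⟨f, fun j => (Pool.Agent.Lib_helper99.IDP.mem_PP_int 18 1000 14 (f j)).2 (hf j), hs⟩)
    (18 + 18) (Pool.Agent.Lib_helper99.IDP.dim_PP 18 1000 14 (by norm_num)).symm
    (Pool.Agent.Lib_helper99.IDP.hh 18 1000 14)
    (fun j => by
      rw [← Pool.Agent.Lib_helper99.IDP.hstar_formula]
      apply Finset.sum_congr rfl
      intro i _
      have : {z : Fin (18 + 18) → ℤ | (fun l => (z l : ℝ)) ∈
          (((j - i : ℕ) : ℝ)) • Pool.Agent.Lib_helper99.IDP.PP 18 1000 14}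
          = {z : Fin (18 + 18) → ℤ |
            Pool.Agent.Lib_helper99.IDP.ConZ 18 1000 14 ((j - i : ℕ) : ℤ) z} := by
        ext z
        exact Pool.Agent.Lib_helper99.IDP.mem_smul_PP_int 18 1000 14 (j - i) z
      rw [this])
  obtain ⟨m, _, h1, h2⟩ := key
  have n1 := Pool.Agent.Lib_helper99.IDP.num1
  have n2 := Pool.Agent.Lib_helper99.IDP.num2
  rcases Nat.lt_or_ge 16 m with hm | hm
  · have := h1 16 17 (by norm_num) hm
    omega
  · have := h2 17 18 (by omega) (by norm_num) (by norm_num)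
    omega

end Pool.Agent.S07654
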