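import Pool.Statements.S08286
import Pool.Agent.Lib_helper12.NZ.Fin.Main

set_option autoImplicit false
open Pool Pool.MP_3ea6d0_co

namespace Pool.Agent.S08286

/-- The negation of the preceding statement: For every permutation pattern q, the power series whose n-th coefficient counts the permutations of length n avoiding q satisfies a linear differential equation with rational polynomial coefficients and a nonzero leading coefficient. -/
theorem result :
    ¬ (∀ (k : ℕ) (q : Equiv.Perm (Fin k)),
      ∃ (d : ℕ) (p : ℕ → Polynomial ℚ),
        p d ≠ 0 ∧
        (∑ i ∈ Finset.range (d + 1),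
          (p i : PowerSeries ℚ) *
            (⇑(PowerSeries.derivative ℚ))^[i]
              (PowerSeries.mk (fun n : ℕ =>
                ((Nat.card {σ : Equiv.Perm (Fin n) //
                  ¬ ∃ f : Fin k ↪o Fin n,
                    ∀ i j : Fin k, q i < q j ↔ σ (f i) < σ (f j)} : ℕ) : ℚ)))) = 0) :=
  Pool.Agent.Lib_helper12.NZ.main

end Pool.Agent.S08286
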