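import Pool.Statements.S08477
import Pool.Agent.Lib_helper31.MDMain

set_option autoImplicit false
open Pool Pool.MP_4617fc_co

namespace Pool.Agent.S08477

/-- Every finite connected graph with m−n+1 ≥ 2 has a vertex-resolving set and an edge-resolving set, each of size at most L(G)+2(m−n+1), where L sums max(legs(v)−1,0) over vertices of degree at least 3. -/
theorem result :
  ∀ (V : Type) [Fintype V] [DecidableEq V] (G : SimpleGraph V) [DecidableRel G.Adj],
    G.Connected → Fintype.card V + 1 ≤ G.edgeFinset.card →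
    (∃ S : Finset V,
        (∀ u v : V, u ≠ v → ∃ s ∈ S, G.dist u s ≠ G.dist v s) ∧
        (S.card : ℤ) ≤
          ((∑ v ∈ Finset.univ.filter (fun v => 3 ≤ G.degree v),
              ({u : V | G.degree u = 1 ∧ ∃ p : G.Walk v u, p.IsPath ∧
                  ∀ w ∈ p.support, w ≠ v → w ≠ u → G.degree w = 2}.ncard - 1) : ℕ) : ℤ)
            + 2 * ((G.edgeFinset.card : ℤ) - (Fintype.card V : ℤ) + 1)) ∧
    (∃ S : Finset V,
        (∀ a b c d : V, G.Adj a b → G.Adj c d → s(a, b) ≠ s(c, d) →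
          ∃ s ∈ S, min (G.dist a s) (G.dist b s) ≠ min (G.dist c s) (G.dist d s)) ∧
        (S.card : ℤ) ≤
          ((∑ v ∈ Finset.univ.filter (fun v => 3 ≤ G.degree v),
              ({u : V | G.degree u = 1 ∧ ∃ p : G.Walk v u, p.IsPath ∧
                  ∀ w ∈ p.support, w ≠ v → w ≠ u → G.degree w = 2}.ncard - 1) : ℕ) : ℤ)
            + 2 * ((G.edgeFinset.card : ℤ) - (Fintype.card V : ℤ) + 1)) := by
  intro V _ _ G _ hG hc
  obtain ⟨L, hL1, hL2⟩ := Pool.Agent.Lib_helper31.MD.exists_legset G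
  obtain ⟨⟨S, hS, hSc⟩, ⟨S', hS', hSc'⟩⟩ := Pool.Agent.Lib_helper31.MD.good hG hc L hL2
  unfold Pool.Agent.Lib_helper31.MD.Legs at hL1
  refine ⟨⟨S, ?_, ?_⟩, ⟨S', ?_, ?_⟩⟩
  · intro u v huv
    by_contra hcon
    push Not at hcon
    exact hS u v ⟨huv, fun s hs => hcon s hs⟩
  · omega
  · intro a b c d hab hcd hne
    by_contra hcon
    push Not at hcon
    exact hne (hS' s(a, b) hab s(c, d) hcd (fun s hs => hcon s hs))
  · omega

end Pool.Agent.S08477
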