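import Pool.Statements.S08514
import Pool.Agent.Lib_helper79.Q3.Asm3
import Pool.Agent.Lib_helper79.Q3.BASE

set_option autoImplicit false
open Pool Pool.MP_479881_co

namespace Pool.Agent.S08514

/-- The negation of the preceding statement: For every n ≥ 1: if n² queens can be placed on an n×n×n cube with no two on a common line in any of the 13 queen directions, then gcd(n,210)=1. -/
theorem result :
    ¬ (∀ n : ℕ, 0 < n →
      (∃ S : Finset (Fin 3 → ℤ),
          S.card = n ^ 2 ∧
          (∀ p ∈ S, ∀ i : Fin 3, 0 ≤ p i ∧ p i < (n : ℤ)) ∧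
          (∀ p ∈ S, ∀ q ∈ S, p ≠ q →
              ¬ ∃ k : ℤ, 0 < k ∧ ∀ i : Fin 3, p i - q i = 0 ∨ |p i - q i| = k)) →
      Nat.gcd n 210 = 1) := by
  intro h
  have h1 := h Pool.Agent.Q3.nn (by norm_num [Pool.Agent.Q3.nn])
    (Pool.Agent.Q3.main_of_base Pool.Agent.Q3.base_pr')
  exact absurd h1 (by decide +kernel)

end Pool.Agent.S08514
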