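import Pool.Statements.S08598
-- import your own Pool.Agent.* helpers here

set_option autoImplicit false
open Pool Pool.MP_4a9f27_co

namespace Pool.Agent.S08598

/-- The ambient abelian group used in the counterexample: `ZMod p × ℤ`, written multiplicatively. -/
abbrev GG (p : ℕ) : Type := Multiplicative (ZMod p × ℤ)

/-- The `p` elements `(a, 0)`. -/
noncomputable def SA (p : ℕ) [NeZero p] : Finset (GG p) := by
  classical
  exact (Finset.univ : Finset (ZMod p)).image (fun a => Multiplicative.ofAdd (a, (0 : ℤ)))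

/-- The `t` elements `(i, 1)`, `i < t`. -/
noncomputable def SB (p t : ℕ) : Finset (GG p) := by
  classical
  exact (Finset.range t).image (fun i : ℕ => Multiplicative.ofAdd ((i : ZMod p), (1 : ℤ)))

/-- The finite set of the counterexample. -/
noncomputable def SS (p t : ℕ) [NeZero p] : Finset (GG p) := by
  classical
  exact SA p ∪ SB p t

lemma mem_SA {p : ℕ} [NeZero p] {x : GG p} :
    x ∈ SA p ↔ (Multiplicative.toAdd x).2 = 0 := by
  classical
  unfold SA
  simp only [Finset.mem_image, Finset.mem_univ, true_and]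
  constructor
  · rintro ⟨a, rfl⟩
    simp
  · intro h
    refine ⟨(Multiplicative.toAdd x).1, ?_⟩
    apply Multiplicative.toAdd.injective
    apply Prod.ext
    · simp
    · simp [h]

lemma card_SA (p : ℕ) [NeZero p] : (SA p).card = p := by
  classical
  unfold SA
  rw [Finset.card_image_of_injective]
  · simp [ZMod.card]
  · intro a b hab
    have := congrArg (fun x => (Multiplicative.toAdd x).1) hab
    simpa using this

lemma card_SB (p t : ℕ) (htp : t ≤ p) : (SB p t).card = t := by
  classical
  unfold SB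
  rw [Finset.card_image_of_injOn]
  · simp
  · intro a ha b hb hab
    have h1 := congrArg (fun x => (Multiplicative.toAdd x).1) hab
    simp only [toAdd_ofAdd] at h1
    have ha' : a < p := lt_of_lt_of_le (by simpa using ha) htp
    have hb' : b < p := lt_of_lt_of_le (by simpa using hb) htp
    have := (ZMod.natCast_eq_natCast_iff' a b p).1 h1
    rwa [Nat.mod_eq_of_lt ha', Nat.mod_eq_of_lt hb'] at this

lemma snd_of_mem_SB {p t : ℕ} {x : GG p} (hx : x ∈ SB p t) :
    (Multiplicative.toAdd x).2 = 1 := by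
  classical
  unfold SB at hx
  simp only [Finset.mem_image] at hx
  obtain ⟨i, _, rfl⟩ := hx
  simp

lemma disj_SA_SB (p t : ℕ) [NeZero p] : Disjoint (SA p) (SB p t) := by
  rw [Finset.disjoint_left]
  intro x hx hx'
  rw [mem_SA] at hx
  have := snd_of_mem_SB hx'
  omega

lemma snd_prod_list {p : ℕ} (l : List (GG p)) :
    (Multiplicative.toAdd l.prod).2 = (l.map (fun x => (Multiplicative.toAdd x).2)).sum := by
  induction l with
  | nil => simp
  | cons a l ih => rw [List.prod_cons, toAdd_mul, Prod.snd_add, ih, List.map_cons, List.sum_cons]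

lemma bounds {p t : ℕ} [NeZero p] (htp : t ≤ p) (l : List (GG p)) (hl : l.Nodup)
    (hS : ∀ x ∈ l, x ∈ SS p t) :
    0 ≤ (Multiplicative.toAdd l.prod).2 ∧ (Multiplicative.toAdd l.prod).2 ≤ t := by
  classical
  rw [snd_prod_list]
  have h1 : (l.map (fun x => (Multiplicative.toAdd x).2)).sum
      = ∑ x ∈ l.toFinset, (Multiplicative.toAdd x).2 := by
    rw [List.sum_toFinset _ hl]
  rw [h1]
  have hsub : l.toFinset ⊆ SS p t := by
    intro x hx
    exact hS x (by simpa using hx)
  have hnn : ∀ x ∈ SS p t, 0 ≤ (Multiplicative.toAdd x).2 := by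
    intro x hx
    unfold SS at hx
    rcases Finset.mem_union.1 hx with h | h
    · rw [mem_SA] at h; omega
    · have := snd_of_mem_SB h; omega
  constructor
  · exact Finset.sum_nonneg (fun x hx => hnn x (hsub hx))
  · calc ∑ x ∈ l.toFinset, (Multiplicative.toAdd x).2
        ≤ ∑ x ∈ SS p t, (Multiplicative.toAdd x).2 :=
          Finset.sum_le_sum_of_subset_of_nonneg hsub (fun x hx _ => hnn x hx)
      _ = t := by
          unfold SS
          rw [Finset.sum_union (disj_SA_SB p t)]
          rw [Finset.sum_congr rfl (fun x hx => mem_SA.1 hx),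
            Finset.sum_congr rfl (fun x hx => snd_of_mem_SB hx)]
          simp [card_SB p t htp]

/-- The box containing all the subset products. -/
noncomputable def box (p t : ℕ) [NeZero p] : Finset (GG p) := by
  classical
  exact ((Finset.univ : Finset (ZMod p)) ×ˢ (Finset.range (t + 1))).image
    (fun q => Multiplicative.ofAdd (q.1, (q.2 : ℤ)))

lemma card_box_le (p t : ℕ) [NeZero p] : (box p t).card ≤ p * (t + 1) := by
  classical
  unfold box
  refine le_trans Finset.card_image_le ?_
  simp [ZMod.card]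

lemma ncard_le {p t : ℕ} [NeZero p] (htp : t ≤ p) :
    Set.ncard {g : GG p | ∃ l : List (GG p), l.Nodup ∧ (∀ x ∈ l, x ∈ SS p t) ∧ l.prod = g}
      ≤ p * (t + 1) := by
  classical
  refine le_trans ?_ (card_box_le p t)
  rw [← Set.ncard_coe_finset]
  apply Set.ncard_le_ncard _ (Finset.finite_toSet _)
  rintro g ⟨l, hl, hS, rfl⟩
  obtain ⟨h0, h1⟩ := bounds htp l hl hS
  unfold box
  simp only [Finset.coe_image, Set.mem_image, Finset.mem_coe, Finset.mem_product,
    Finset.mem_univ, true_and, Finset.mem_range]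
  refine ⟨((Multiplicative.toAdd l.prod).1, (Multiplicative.toAdd l.prod).2.toNat), ?_, ?_⟩
  · simp only
    omega
  · apply Multiplicative.toAdd.injective
    apply Prod.ext
    · rfl
    · exact Int.toNat_of_nonneg h0

/-- The torsion subgroup. -/
def KK (p : ℕ) : Subgroup (GG p) where
  carrier := {x | (Multiplicative.toAdd x).2 = 0}
  one_mem' := by simp
  mul_mem' := by
    intro a b (ha : (Multiplicative.toAdd a).2 = 0) (hb : (Multiplicative.toAdd b).2 = 0)
    change (Multiplicative.toAdd (a * b)).2 = 0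
    simp [ha, hb]
  inv_mem' := by
    intro a (ha : (Multiplicative.toAdd a).2 = 0)
    change (Multiplicative.toAdd a⁻¹).2 = 0
    simp [ha]

lemma coe_KK (p : ℕ) [NeZero p] : ((KK p : Subgroup (GG p)) : Set (GG p)) = (SA p : Set (GG p)) := by
  ext x
  simp only [Finset.mem_coe, mem_SA]
  rfl

lemma card_KK (p : ℕ) [NeZero p] : Nat.card (KK p) = p := by
  have : Nat.card (KK p) = Set.ncard ((KK p : Subgroup (GG p)) : Set (GG p)) := by
    rfl
  rw [this, coe_KK, Set.ncard_coe_finset, card_SA]

lemma le_KK {p : ℕ} (H : Subgroup (GG p)) (hH : (H : Set (GG p)).Finite) : H ≤ KK p := by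
  intro x hx
  have hfin : Finite H := hH
  have h1 : IsOfFinOrder (⟨x, hx⟩ : H) := isOfFinOrder_of_finite _
  have h2 : IsOfFinOrder x := by
    have := H.subtype.isOfFinOrder h1
    simpa using this
  rw [isOfFinOrder_iff_pow_eq_one] at h2
  obtain ⟨n, hn, hxn⟩ := h2
  have h3 : (n : ℤ) * (Multiplicative.toAdd x).2 = 0 := by
    have h4 := congrArg (fun y => (Multiplicative.toAdd y).2) hxn
    simp only [toAdd_pow, Prod.smul_snd, toAdd_one, Prod.snd_zero] at h4
    rwa [nsmul_eq_mul] at h4
  rcases mul_eq_zero.1 h3 with h3 | h3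
  · exfalso
    have : n = 0 := by exact_mod_cast h3
    omega
  · exact h3

/-- The negation of the preceding statement: There is c>0 such that for every group G and finite S in G, some finite subgroup H has #(products of distinct elements of S in any order, including 1) at least ∣H∣ + c·∣H∣·∣S minus H∣². -/
theorem result :
    ¬ (∃ c : ℝ, 0 < c ∧ ∀ (G : Type) [Group G] (S : Finset G),
      ∃ H : Subgroup G, (H : Set G).Finite ∧
        ((Set.ncard {g : G | ∃ l : List G, l.Nodup ∧ (∀ x ∈ l, x ∈ S) ∧ l.prod = g} : ℕ) : ℝ)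
          ≥ (Nat.card H : ℝ) + c * (Nat.card H : ℝ)
              * ((Set.ncard ((S : Set G) \ (H : Set G)) : ℕ) : ℝ) ^ 2) := by
  classical
  rintro ⟨c, hc, h⟩
  -- choose `t > 1 / c`
  obtain ⟨t, ht⟩ := exists_nat_gt (1 / c)
  have ht0 : (0 : ℝ) < t := lt_trans (by positivity) ht
  have ht1 : 1 ≤ t := by
    have : 0 < t := by exact_mod_cast ht0
    exact this
  have hct : 1 < c * t := by
    rw [div_lt_iff₀ hc] at ht
    linarith
  -- choose a large prime `p`
  obtain ⟨N, hN⟩ := exists_nat_gt ((t + 1 : ℝ) / c)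
  obtain ⟨p, hpN, hp⟩ := Nat.exists_infinite_primes (max N t)
  have hNp : N ≤ p := le_trans (le_max_left _ _) hpN
  have htp : t ≤ p := le_trans (le_max_right _ _) hpN
  have hp0 : NeZero p := ⟨hp.ne_zero⟩
  have hpp : (0 : ℝ) < p := by exact_mod_cast hp.pos
  have hcp : (t + 1 : ℝ) < c * p := by
    have h1 : ((t + 1 : ℝ) / c) < p := lt_of_lt_of_le hN (by exact_mod_cast hNp)
    rw [div_lt_iff₀ hc] at h1
    linarith
  obtain ⟨H, hHfin, hH⟩ := h (GG p) (SS p t)
  have hup : ((Set.ncard {g : GG p | ∃ l : List (GG p), l.Nodup ∧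
      (∀ x ∈ l, x ∈ SS p t) ∧ l.prod = g} : ℕ) : ℝ) ≤ p * (t + 1) := by
    exact_mod_cast ncard_le htp
  have hle := le_KK H hHfin
  have hdvd : Nat.card H ∣ p := by
    have := Subgroup.card_dvd_of_le hle
    rwa [card_KK] at this
  rcases (Nat.dvd_prime hp).1 hdvd with h1 | h1
  · -- `H` is trivial
    have hbot : H = ⊥ := Subgroup.card_eq_one.1 h1
    have hsub : ((SB p t ∪ (SA p).erase 1 : Finset (GG p)) : Set (GG p))
        ⊆ ((SS p t : Set (GG p)) \ (H : Set (GG p))) := by
      intro x hx
      rw [hbot]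
      simp only [Finset.coe_union, Finset.coe_erase, Set.mem_union, Finset.mem_coe,
        Set.mem_sdiff, Set.mem_singleton_iff, Subgroup.coe_bot] at hx ⊢
      unfold SS
      rcases hx with hx | hx
      · refine ⟨Finset.mem_union_right _ hx, ?_⟩
        rintro rfl
        have := snd_of_mem_SB hx
        simp at this
      · exact ⟨Finset.mem_union_left _ hx.1, hx.2⟩
    have hcard : p ≤ Set.ncard ((SS p t : Set (GG p)) \ (H : Set (GG p))) := by
      have h2 := Set.ncard_le_ncard hsub (Set.Finite.sdiff (Finset.finite_toSet _))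
      rw [Set.ncard_coe_finset] at h2
      have h3 : (SB p t ∪ (SA p).erase 1).card = (SB p t).card + ((SA p).erase 1).card := by
        apply Finset.card_union_of_disjoint
        exact (disj_SA_SB p t).symm.mono_right (Finset.erase_subset _ _)
      have h4 : (1 : GG p) ∈ SA p := by
        rw [mem_SA]; simp
      rw [h3, card_SB p t htp, Finset.card_erase_of_mem h4, card_SA] at h2
      omega
    have hcard' : (p : ℝ) ≤ ((Set.ncard ((SS p t : Set (GG p)) \ (H : Set (GG p))) : ℕ) : ℝ) := by
      exact_mod_cast hcard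
    rw [h1] at hH
    have hsq : (p : ℝ) ^ 2
        ≤ ((Set.ncard ((SS p t : Set (GG p)) \ (H : Set (GG p))) : ℕ) : ℝ) ^ 2 :=
      pow_le_pow_left₀ hpp.le hcard' 2
    have h5 : c * (p : ℝ) ^ 2
        ≤ c * ((Set.ncard ((SS p t : Set (GG p)) \ (H : Set (GG p))) : ℕ) : ℝ) ^ 2 :=
      mul_le_mul_of_nonneg_left hsq hc.le
    have h6 : (p : ℝ) * (t + 1) < p * (c * p) := mul_lt_mul_of_pos_left hcp hpp
    push_cast at hH
    nlinarith
  · -- `H` is the whole torsion subgroup
    have hKfin : Finite (KK p) := by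
      have h2 : ((KK p : Subgroup (GG p)) : Set (GG p)).Finite := by
        rw [coe_KK]; exact Finset.finite_toSet _
      exact h2
    have hHK : H = KK p := by
      apply Subgroup.eq_of_le_of_card_ge hle
      rw [card_KK, h1]
    have hsub : ((SB p t : Finset (GG p)) : Set (GG p))
        ⊆ ((SS p t : Set (GG p)) \ (H : Set (GG p))) := by
      intro x hx
      rw [hHK, coe_KK]
      simp only [Finset.mem_coe, Set.mem_sdiff] at hx ⊢
      unfold SS
      refine ⟨Finset.mem_union_right _ hx, ?_⟩
      intro hx'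
      exact Finset.disjoint_left.1 (disj_SA_SB p t) hx' hx
    have hcard : t ≤ Set.ncard ((SS p t : Set (GG p)) \ (H : Set (GG p))) := by
      have h2 := Set.ncard_le_ncard hsub (Set.Finite.sdiff (Finset.finite_toSet _))
      rwa [Set.ncard_coe_finset, card_SB p t htp] at h2
    have hcard' : (t : ℝ) ≤ ((Set.ncard ((SS p t : Set (GG p)) \ (H : Set (GG p))) : ℕ) : ℝ) := by
      exact_mod_cast hcard
    rw [h1] at hH
    have hsq : (t : ℝ) ^ 2
        ≤ ((Set.ncard ((SS p t : Set (GG p)) \ (H : Set (GG p))) : ℕ) : ℝ) ^ 2 :=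
      pow_le_pow_left₀ ht0.le hcard' 2
    have h5 : c * (p : ℝ) * (t : ℝ) ^ 2
        ≤ c * (p : ℝ) * ((Set.ncard ((SS p t : Set (GG p)) \ (H : Set (GG p))) : ℕ) : ℝ) ^ 2 :=
      mul_le_mul_of_nonneg_left hsq (by positivity)
    have h6 : (p : ℝ) * t * 1 < p * t * (c * t) :=
      mul_lt_mul_of_pos_left hct (by positivity)
    nlinarith

end Pool.Agent.S08598
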