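import Pool.Statements.S08659
import Pool.Agent.Lib_helper66.NonrepSubdiv

set_option autoImplicit false
open Pool Pool.MP_4d584d_co

namespace Pool.Agent.S08659

/-- There are a constant C and a function f such that every finite graph that is nonrepetitively k-colourable has a subdivision, with at most f(k) new vertices on each edge, that is nonrepetitively C-colourable. -/
theorem result :
    ∃ C : ℕ, ∃ f : ℕ → ℕ, ∀ (n : ℕ) (G : SimpleGraph (Fin n)) (k : ℕ),
      (∃ c : Fin n → Fin k, ∀ (x y : Fin n) (p : G.Walk x y), p.IsPath →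
          ∀ s : List (Fin k), s ≠ [] → p.support.map c ≠ s ++ s) →
      ∃ ℓ : Fin n → Fin n → ℕ, (∀ u v, ℓ u v ≤ f k) ∧
        ∃ c : Fin n ⊕ (Fin n × Fin n × ℕ) → Fin C,
          ∀ (x y : Fin n ⊕ (Fin n × Fin n × ℕ))
            (p : (SimpleGraph.fromRel (V := Fin n ⊕ (Fin n × Fin n × ℕ))
              (fun a b => ∃ u v : Fin n, u < v ∧ G.Adj u v ∧
                ((ℓ u v = 0 ∧ a = Sum.inl u ∧ b = Sum.inl v) ∨
                 (1 ≤ ℓ u v ∧ a = Sum.inl u ∧ b = Sum.inr (u, v, 1)) ∨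
                 (∃ i : ℕ, 1 ≤ i ∧ i + 1 ≤ ℓ u v ∧
                    a = Sum.inr (u, v, i) ∧ b = Sum.inr (u, v, i + 1)) ∨
                 (1 ≤ ℓ u v ∧ a = Sum.inr (u, v, ℓ u v) ∧ b = Sum.inl v)))).Walk x y),
            p.IsPath → ∀ s : List (Fin C), s ≠ [] → p.support.map c ≠ s ++ s := by
  refine ⟨6, fun k => 2 * Nat.clog 2 k + 1, ?_⟩
  rintro n G k ⟨c, hc⟩
  refine ⟨fun _ _ => 2 * Nat.clog 2 k + 1, fun _ _ => le_rfl, ?_⟩
  exact Pool.Agent.Lib66.main (Nat.clog 2 k) (Nat.le_pow_clog one_lt_two k) G c hc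

end Pool.Agent.S08659
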