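import Pool.Statements.S08890
import Pool.Agent.Lib_helper57.Subdiv.Tree

set_option autoImplicit false
open Pool Pool.MP_58b9c4_co

namespace Pool.Agent.S08890

/-- The negation of the preceding statement: Some f exists such that every finite nonempty loopless digraph with min out-degree ≥ f(k) contains a subdivision of a nonempty loopless digraph of min out-degree ≥ k, where each arc becomes a path of length ≥ 2 and the paths are internally disjoint. -/
theorem result :
    ¬ (∃ f : ℕ → ℕ, ∀ k : ℕ, ∀ (V : Type) [Fintype V] [Nonempty V] (D : Digraph V),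
      (∀ v, ¬ D.Adj v v) →
      (∀ v, f k ≤ Nat.card {w // D.Adj v w}) →
      ∃ n : ℕ, ∃ D' : Digraph (Fin n),
        0 < n ∧
        (∀ a, ¬ D'.Adj a a) ∧
        (∀ a, k ≤ Nat.card {b // D'.Adj a b}) ∧
        ∃ φ : Fin n → V, Function.Injective φ ∧
        ∃ len : Fin n → Fin n → ℕ, ∃ p : Fin n → Fin n → ℕ → V,
          (∀ a b, D'.Adj a b →
              2 ≤ len a b ∧ p a b 0 = φ a ∧ p a b (len a b) = φ b ∧
              (∀ i, i < len a b → D.Adj (p a b i) (p a b (i + 1))) ∧
              (∀ i c, 0 < i → i < len a b → p a b i ≠ φ c)) ∧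
          (∀ a b c d i j, D'.Adj a b → D'.Adj c d →
              0 < i → i < len a b → 0 < j → j < len c d →
              p a b i = p c d j → a = c ∧ b = d ∧ i = j)) := by
  rintro ⟨f, hf⟩
  haveI : Fintype (Pool.Agent.Lib_helper57.Subdiv.Vx (f 3)) := Fintype.ofFinite _
  obtain ⟨n, D', hn, -, hdeg, φ, hφ, len, p, h1, h2⟩ :=
    hf 3 (Pool.Agent.Lib_helper57.Subdiv.Vx (f 3)) (Pool.Agent.Lib_helper57.Subdiv.Dg (f 3))
      Pool.Agent.Lib_helper57.Subdiv.Dg_loopless
      (fun v => le_trans (by omega) (Pool.Agent.Lib_helper57.Subdiv.Dg_deg v))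
  exact Pool.Agent.Lib_helper57.Subdiv.no_subdivision (f 3) n D' hn hdeg φ hφ len p h1 h2

end Pool.Agent.S08890
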