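import Pool.Statements.S09026
import Pool.Agent.Lib_helper83.PetersenMain

set_option autoImplicit false
open scoped Classical
open Pool Pool.MP_5dc923_co

namespace Pool.Agent.S09026

/-- The negation of the preceding statement: In a finite bridgeless graph, if an edge weighting is at least 2 everywhere, has even total at each vertex, and no edge exceeds half its cut's weight, then some finite list of cycles covers each edge exactly its weight times. -/
theorem result :
    ¬ (∀ (V : Type) [Fintype V] (G : SimpleGraph V) (w : Sym2 V → ℕ),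
    (∀ a b : V, G.Adj a b → (G \ SimpleGraph.fromEdgeSet {s(a, b)}).Reachable a b) →
    (∀ a b : V, G.Adj a b → 2 ≤ w s(a, b)) →
    (∀ v : V, Even (∑ u : V, if G.Adj v u then w s(v, u) else 0)) →
    (∀ S : Finset V, ∀ a b : V, a ∈ S → b ∉ S → G.Adj a b →
      2 * w s(a, b) ≤
        ∑ u : V, ∑ v : V, if (u ∈ S ∧ v ∉ S ∧ G.Adj u v) then w s(u, v) else 0) →
    ∃ (n : ℕ) (x : Fin n → V) (p : ∀ i, G.Walk (x i) (x i)),
      (∀ i, (p i).IsCycle) ∧
      ∀ a b : V, G.Adj a b →
        (∑ i : Fin n, if s(a, b) ∈ (p i).edges then 1 else 0) = w s(a, b)) := by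
  intro H
  have key := H Pool.Agent.Lib_helper83.Pet.PV Pool.Agent.Lib_helper83.Pet.petersen
    Pool.Agent.Lib_helper83.Pet.wt ?_ ?_ ?_ ?_
  · obtain ⟨n, x, p, hp, hc⟩ := key
    refine Pool.Agent.Lib_helper83.Pet.no_cover ⟨n, x, p, hp, fun a b hab => ?_⟩
    rw [← hc a b hab]
    refine Finset.sum_congr rfl fun i _ => ?_
    unfold Pool.Agent.Lib_helper83.Pet.bit
    congr
  · exact Pool.Agent.Lib_helper83.Pet.bridgeless
  · intro a b _
    exact le_trans (by norm_num) (Pool.Agent.Lib_helper83.Pet.wt_ge a b)
  · intro v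
    have h := Pool.Agent.Lib_helper83.Pet.deg_sum v
    have e : ∀ n : ℕ, n = 12 → Even n := by
      rintro n rfl
      decide
    refine e _ ?_
    rw [← h]
    refine Finset.sum_congr rfl fun u _ => ?_
    congr
  · intro S a b ha hb hab
    have h := Pool.Agent.Lib_helper83.Pet.cut_condition S a b ha hb hab
    refine h.trans (le_of_eq ?_)
    refine Finset.sum_congr rfl fun u _ => Finset.sum_congr rfl fun v _ => ?_
    unfold Pool.Agent.Lib_helper83.Pet.cutF
    congr

end Pool.Agent.S09026
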