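import Pool.Statements.S09184
import Pool.Agent.Lib_helper54.LinMat

set_option autoImplicit false
open Pool Pool.MP_633b85_co

namespace Pool.Agent.S09184

open Pool.Agent.Lib_helper54

/-- End points of the eleven edges in the two graphs (on seven vertices each). -/
def ep : Fin 2 → Fin 11 → Fin 7 × Fin 7 := ![![(3, 1), (5, 0), (3, 6), (4, 6), (1, 0), (2, 3), (5, 1), (1, 4), (2, 4), (2, 1), (2, 0)],
  ![(3, 1), (6, 2), (0, 6), (2, 4), (5, 3), (4, 5), (0, 4), (4, 3), (1, 5), (0, 2), (1, 6)]]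

/-- Eleven common spanning trees; every edge lies in exactly six of them. -/
def A : Fin 11 → Finset (Fin 11) := ![{0, 1, 3, 5, 6, 7},
  {0, 1, 3, 4, 7, 9},
  {0, 1, 3, 4, 7, 9},
  {0, 1, 3, 4, 7, 9},
  {2, 4, 5, 6, 8, 9},
  {2, 3, 4, 5, 6, 10},
  {3, 4, 5, 6, 8, 10},
  {1, 2, 5, 7, 8, 10},
  {1, 2, 5, 7, 8, 10},
  {0, 2, 6, 8, 9, 10},
  {0, 2, 6, 8, 9, 10}]

/-- For an edge of the tree number `i`, one side of its fundamental cut. -/
def cut : Fin 11 → Fin 2 → Fin 11 → Finset (Fin 7) := ![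
  ![![{2, 3}, {1, 2, 3, 4, 5, 6}, ∅, {0, 1, 2, 3, 4, 5}, ∅, {2}, {0, 5}, {0, 1, 2, 3, 5}, ∅, ∅, ∅],
    ![{0, 2, 3, 4, 5, 6}, {6}, ∅, {2, 6}, ∅, {0, 1, 2, 3, 4, 6}, {0}, {0, 2, 4, 5, 6}, ∅, ∅, ∅]],
  ![![{3}, {5}, ∅, {0, 1, 2, 3, 4, 5}, {1, 2, 3, 4, 6}, ∅, ∅, {0, 1, 2, 3, 5}, ∅, {2}, ∅],
    ![{0, 2, 3, 4, 5, 6}, {6}, ∅, {0, 2, 6}, {5}, ∅, ∅, {0, 2, 4, 6}, ∅, {0}, ∅]],
  ![![{3}, {5}, ∅, {0, 1, 2, 3, 4, 5}, {1, 2, 3, 4, 6}, ∅, ∅, {0, 1, 2, 3, 5}, ∅, {2}, ∅],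
    ![{0, 2, 3, 4, 5, 6}, {6}, ∅, {0, 2, 6}, {5}, ∅, ∅, {0, 2, 4, 6}, ∅, {0}, ∅]],
  ![![{3}, {5}, ∅, {0, 1, 2, 3, 4, 5}, {1, 2, 3, 4, 6}, ∅, ∅, {0, 1, 2, 3, 5}, ∅, {2}, ∅],
    ![{0, 2, 3, 4, 5, 6}, {6}, ∅, {0, 2, 6}, {5}, ∅, ∅, {0, 2, 4, 6}, ∅, {0}, ∅]],
  ![![∅, ∅, {0, 1, 2, 3, 4, 5}, ∅, {1, 2, 3, 4, 5, 6}, {0, 1, 2, 4, 5}, {5}, ∅, {0, 1, 2, 3, 5, 6}, {2, 3, 4, 6}, ∅],
    ![∅, ∅, {0, 1, 2, 3, 4, 5}, ∅, {0, 1, 2, 4, 5, 6}, {0, 2, 4, 6}, {0, 2, 6}, ∅, {1}, {0, 1, 3, 4, 5, 6}, ∅]],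
  ![![∅, ∅, {0, 1, 2, 3, 5}, {4}, {1, 5}, {0, 1, 2, 5}, {5}, ∅, ∅, ∅, {2, 3, 4, 6}],
    ![∅, ∅, {0, 2, 3, 4, 5}, {2}, {0, 1, 2, 4, 5, 6}, {0, 1, 2, 4, 6}, {0, 1, 6}, ∅, ∅, ∅, {1}]],
  ![![∅, ∅, ∅, {0, 1, 2, 3, 4, 5}, {1, 5}, {0, 1, 2, 4, 5, 6}, {5}, ∅, {0, 1, 2, 3, 5}, ∅, {2, 3, 4, 6}],
    ![∅, ∅, ∅, {2}, {0, 1, 2, 4, 5, 6}, {0, 2, 4}, {0}, ∅, {1, 6}, ∅, {0, 1, 2, 3, 4, 5}]],
  ![![∅, {5}, {0, 1, 2, 3, 4, 5}, ∅, ∅, {0, 1, 2, 4, 5}, ∅, {1}, {0, 2, 3, 5, 6}, ∅, {1, 2, 3, 4, 6}],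
    ![∅, {0, 1, 3, 4, 5, 6}, {0}, ∅, ∅, {3, 4}, ∅, {0, 1, 2, 4, 5, 6}, {0, 1, 2, 6}, ∅, {1, 3, 4, 5}]],
  ![![∅, {5}, {0, 1, 2, 3, 4, 5}, ∅, ∅, {0, 1, 2, 4, 5}, ∅, {1}, {0, 2, 3, 5, 6}, ∅, {1, 2, 3, 4, 6}],
    ![∅, {0, 1, 3, 4, 5, 6}, {0}, ∅, ∅, {3, 4}, ∅, {0, 1, 2, 4, 5, 6}, {0, 1, 2, 6}, ∅, {1, 3, 4, 5}]],
  ![![{3, 6}, ∅, {0, 1, 2, 3, 4, 5}, ∅, ∅, ∅, {5}, ∅, {0, 1, 2, 3, 5, 6}, {0, 2, 4}, {1, 2, 3, 4, 5, 6}],
    ![{3}, ∅, {0, 2, 4}, ∅, ∅, ∅, {0, 1, 2, 3, 5, 6}, ∅, {0, 1, 2, 3, 4, 6}, {0, 1, 3, 4, 5, 6}, {1, 3, 5}]],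
  ![![{3, 6}, ∅, {0, 1, 2, 3, 4, 5}, ∅, ∅, ∅, {5}, ∅, {0, 1, 2, 3, 5, 6}, {0, 2, 4}, {1, 2, 3, 4, 5, 6}],
    ![{3}, ∅, {0, 2, 4}, ∅, ∅, ∅, {0, 1, 2, 3, 5, 6}, ∅, {0, 1, 2, 3, 4, 6}, {0, 1, 3, 4, 5, 6}, {1, 3, 5}]]]

/-- Sixteen cycles, each a cycle of the graph with the indicated index. -/
def cyc : Fin 16 → Fin 2 × Finset (Fin 11) := ![(0, {1, 4, 6}),
  (0, {0, 5, 9}),
  (0, {7, 8, 9}),
  (0, {4, 9, 10}),
  (1, {4, 5, 7}),
  (1, {0, 4, 8}),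
  (1, {1, 2, 9}),
  (1, {3, 6, 9}),
  (0, {0, 2, 3, 7}),
  (0, {2, 3, 5, 8}),
  (0, {0, 1, 5, 6, 10}),
  (0, {1, 6, 7, 8, 10}),
  (1, {0, 1, 3, 7, 10}),
  (1, {0, 2, 6, 7, 10}),
  (1, {1, 3, 5, 8, 10}),
  (1, {2, 5, 6, 8, 10})]

/-- Incidence vector of the edge `e` in the graph `j`. -/
def edge (j : Fin 2) (e : Fin 11) : Fin 7 → ZMod 2 :=
  fun i => if i = (ep j e).1 ∨ i = (ep j e).2 then 1 else 0

/-- The vectors representing the direct sum of the two cycle matroids. -/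
def vec (x : Fin 11 × Fin 2) : Fin 2 → Fin 7 → ZMod 2 := Pi.single x.2 (edge x.2 x.1)

theorem cut_ok : ∀ i j, ∀ x ∈ A i, ∀ y ∈ A i,
    (∑ u ∈ cut i j x, edge j y u) = if y = x then 1 else 0 := by
  decide +kernel

theorem cyc_ok : ∀ t, (∀ u, ∑ e ∈ (cyc t).2, edge (cyc t).1 e u = 0) ∧ (cyc t).2.Nonempty := by
  decide +kernel

theorem A_six : ∀ e, (Finset.univ.filter (fun i => e ∈ A i)).card = 6 := by
  decide +kernel

/-- No two-colouring of the edges leaves all sixteen cycles non-monochromatic. -/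
theorem mono (b : Fin 11 → Bool) :
    ∃ t, (∀ e ∈ (cyc t).2, b e = true) ∨ (∀ e ∈ (cyc t).2, b e = false) := by
  have key : ∀ b0 b1 b2 b3 b4 b5 b6 b7 b8 b9 b10 : Bool,
      ∃ t, (∀ e ∈ (cyc t).2, (![b0, b1, b2, b3, b4, b5, b6, b7, b8, b9, b10] : Fin 11 → Bool) e = true)
        ∨ (∀ e ∈ (cyc t).2,
          (![b0, b1, b2, b3, b4, b5, b6, b7, b8, b9, b10] : Fin 11 → Bool) e = false) := by
    decide +kernel
  have hb : b = ![b 0, b 1, b 2, b 3, b 4, b 5, b 6, b 7, b 8, b 9, b 10] := by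
    funext i; fin_cases i <;> rfl
  rw [hb]
  exact key _ _ _ _ _ _ _ _ _ _ _

/-- The matroid of the counterexample: the direct sum of the cycle matroids of the two graphs. -/
def M : Matroid (Fin 11 × Fin 2) := linMatroid (ZMod 2) vec

/-- A linear functional separating the edge `(x, j)` in the tree number `i`. -/
def func (i : Fin 11) (p : Fin 11 × Fin 2) : (Fin 2 → Fin 7 → ZMod 2) →ₗ[ZMod 2] ZMod 2 :=
  ∑ u ∈ cut i p.2 p.1,
    (LinearMap.proj (φ := fun _ : Fin 7 => ZMod 2) u).comp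
      (LinearMap.proj (R := ZMod 2) (φ := fun _ : Fin 2 => Fin 7 → ZMod 2) p.2)

theorem func_vec (i : Fin 11) (p q : Fin 11 × Fin 2) (hp : p.1 ∈ A i) (hq : q.1 ∈ A i) :
    func i p (vec q) = if q = p then 1 else 0 := by
  obtain ⟨x, j⟩ := p
  obtain ⟨y, l⟩ := q
  have h := cut_ok i j x hp y hq
  by_cases hjl : l = j
  · subst hjl
    simp only [func, vec, LinearMap.sum_apply, LinearMap.comp_apply, LinearMap.proj_apply,
      Pi.single_eq_same, Prod.mk.injEq, and_true]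
    exact h
  · have h2 : ∀ u, (Pi.single l (edge l y) : Fin 2 → Fin 7 → ZMod 2) j u = 0 := by
      intro u
      rw [Pi.single_eq_of_ne (Ne.symm hjl)]
      rfl
    simp only [func, vec, LinearMap.sum_apply, LinearMap.comp_apply, LinearMap.proj_apply,
      Prod.mk.injEq, hjl, and_false, if_false]
    exact Finset.sum_eq_zero fun u _ => h2 u

theorem A_indep (i : Fin 11) :
    LinearIndepOn (ZMod 2) vec ((↑(A i) : Set (Fin 11)) ×ˢ (Set.univ : Set (Fin 2))) := by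
  have hset : ((↑(A i) : Set (Fin 11)) ×ˢ (Set.univ : Set (Fin 2)))
      = ↑(A i ×ˢ (Finset.univ : Finset (Fin 2))) := by
    ext; simp
  rw [hset, linearIndepOn_finset_iff]
  intro f hf p hp
  have hp' : p.1 ∈ A i := (Finset.mem_product.1 hp).1
  have h := congrArg (func i p) hf
  rw [map_sum, map_zero] at h
  rw [← h, Finset.sum_eq_single p]
  · rw [map_smul, func_vec i p p hp' hp']
    simp
  · intro q hq hqp
    have hq' : q.1 ∈ A i := (Finset.mem_product.1 hq).1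
    rw [map_smul, func_vec i p q hp' hq']
    simp [hqp]
  · intro hn
    exact absurd hp hn

theorem encard_prod (X : Finset (Fin 11)) :
    ((↑X : Set (Fin 11)) ×ˢ (Set.univ : Set (Fin 2))).encard = ((2 * X.card : ℕ) : ℕ∞) := by
  have hset : ((↑X : Set (Fin 11)) ×ˢ (Set.univ : Set (Fin 2)))
      = ↑(X ×ˢ (Finset.univ : Finset (Fin 2))) := by
    ext; simp
  rw [hset, Set.encard_coe_eq_coe_finsetCard, Finset.card_product]
  simp [mul_comm]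

/-- Sets of full rank contain none of the sixteen cycles. -/
theorem no_cyc (X : Finset (Fin 11)) (t : Fin 16) (hsub : (cyc t).2 ⊆ X)
    (hX : M.eRk ((↑X : Set (Fin 11)) ×ˢ (Set.univ : Set (Fin 2))) = ((2 * X.card : ℕ) : ℕ∞)) :
    False := by
  have hind : M.Indep ((↑X : Set (Fin 11)) ×ˢ (Set.univ : Set (Fin 2))) := by
    rw [Matroid.indep_iff_eRk_eq_encard_of_finite (Set.toFinite _), hX, encard_prod]
  have hind2 : LinearIndepOn (ZMod 2) vec ((↑X : Set (Fin 11)) ×ˢ (Set.univ : Set (Fin 2))) := by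
    simpa [M] using hind
  obtain ⟨hz, e, he⟩ := cyc_ok t
  have hset : (↑((cyc t).2 ×ˢ ({(cyc t).1} : Finset (Fin 2))) : Set (Fin 11 × Fin 2))
      ⊆ (↑X : Set (Fin 11)) ×ˢ (Set.univ : Set (Fin 2)) := by
    intro p hp
    have hp' := Finset.mem_product.1 (Finset.mem_coe.1 hp)
    exact ⟨Finset.mem_coe.2 (hsub hp'.1), Set.mem_univ _⟩
  have hind3 := hind2.mono hset
  rw [linearIndepOn_finset_iff] at hind3
  have h0 : ∑ p ∈ (cyc t).2 ×ˢ ({(cyc t).1} : Finset (Fin 2)), (1 : ZMod 2) • vec p = 0 := by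
    rw [Finset.sum_product]
    simp only [Finset.sum_singleton, one_smul]
    funext l u
    rw [Finset.sum_apply, Finset.sum_apply]
    by_cases hl : l = (cyc t).1
    · subst hl
      simp only [vec, Pi.single_eq_same]
      exact hz u
    · refine Finset.sum_eq_zero fun e _ => ?_
      simp only [vec]
      rw [Pi.single_eq_of_ne hl]
      rfl
  have h1 := hind3 (fun _ => 1) h0 (e, (cyc t).1) (by simp [he])
  exact one_ne_zero h1

/-- No circuit of `M` contains both copies of an element. -/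
theorem circ_ok (C : Set (Fin 11 × Fin 2)) (hC : M.IsCircuit C) (e : Fin 11) :
    ¬ ((e, 0) ∈ C ∧ (e, 1) ∈ C) := by
  rintro ⟨h0, h1⟩
  have hne : ∀ j : Fin 2, {p ∈ C | p.2 = j} ⊂ C := by
    intro j
    refine ⟨fun p hp => hp.1, fun hcon => ?_⟩
    have ha := (hcon h0).2
    have hb := (hcon h1).2
    simp only at ha hb
    rw [← ha] at hb
    exact absurd hb (by decide)
  have hI : ∀ j : Fin 2, LinearIndepOn (ZMod 2) vec {p ∈ C | p.2 = j} := by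
    intro j
    have := hC.ssubset_indep (hne j)
    simpa [M] using this
  have hspan : ∀ j l : Fin 2, l ≠ j → ∀ w ∈ Submodule.span (ZMod 2) (vec '' {p ∈ C | p.2 = j}),
      w l = 0 := by
    intro j l hl w hw
    induction hw using Submodule.span_induction with
    | mem x hx =>
      obtain ⟨p, hp, rfl⟩ := hx
      have : p.2 = j := hp.2
      simp only [vec, this]
      exact Pi.single_eq_of_ne hl _
    | zero => rfl
    | add x y _ _ hx hy => simp [hx, hy]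
    | smul a x _ hx => simp [hx]
  have hdisj : Disjoint (Submodule.span (ZMod 2) (vec '' {p ∈ C | p.2 = 0}))
      (Submodule.span (ZMod 2) (vec '' {p ∈ C | p.2 = 1})) := by
    rw [Submodule.disjoint_def]
    intro w hw0 hw1
    funext l
    fin_cases l
    · exact hspan 1 0 (by decide) w hw1
    · exact hspan 0 1 (by decide) w hw0
  have hun := (hI 0).union (hI 1) hdisj
  have hCeq : {p ∈ C | p.2 = 0} ∪ {p ∈ C | p.2 = 1} = C := by
    ext p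
    constructor
    · rintro (h | h) <;> exact h.1
    · intro hp
      have h01 : ∀ l : Fin 2, l = 0 ∨ l = 1 := by decide
      rcases h01 p.2 with h | h
      · exact Or.inl ⟨hp, h⟩
      · exact Or.inr ⟨hp, h⟩
  rw [hCeq] at hun
  exact hC.not_indep (by simpa [M] using hun)

/-- The fractional cover: each of the eleven trees with weight `1/6`. -/
noncomputable def wt (X : Finset (Fin 11)) : ℝ := ∑ i : Fin 11, if A i = X then (1 / 6 : ℝ) else 0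

theorem wt_total : ∑ X, wt X = 11 / 6 := by
  unfold wt
  rw [Finset.sum_comm]
  simp
  norm_num

theorem wt_cover (e : Fin 11) :
    1 ≤ ∑ X ∈ Finset.univ.filter (fun X : Finset (Fin 11) => e ∈ X), wt X := by
  unfold wt
  rw [Finset.sum_comm]
  have h : ∀ i : Fin 11,
      (∑ X ∈ Finset.univ.filter (fun X : Finset (Fin 11) => e ∈ X), if A i = X then (1 / 6 : ℝ) else 0)
        = if e ∈ A i then (1 / 6 : ℝ) else 0 := by
    intro i
    rw [Finset.sum_ite_eq]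
    simp
  simp_rw [h]
  rw [← Finset.sum_filter, Finset.sum_const, A_six e]
  norm_num

theorem wt_support (X : Finset (Fin 11)) (hX : wt X ≠ 0) :
    M.eRk ((↑X : Set (Fin 11)) ×ˢ (Set.univ : Set (Fin 2))) = ((2 * X.card : ℕ) : ℕ∞) := by
  have : ∃ i, A i = X := by
    by_contra hcon
    push Not at hcon
    exact hX (Finset.sum_eq_zero fun i _ => if_neg (hcon i))
  obtain ⟨i, rfl⟩ := this
  have hind : M.Indep ((↑(A i) : Set (Fin 11)) ×ˢ (Set.univ : Set (Fin 2))) := by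
    simpa [M] using A_indep i
  rw [hind.eRk_eq_encard, encard_prod]

/-- The negation of the preceding statement: For a matroid on S×{1,2} where no circuit contains both copies of an element, with f(X)=rank(X×{1,2}) and matchings meaning f(X)=2∣X∣, S can be covered by at most (fractional matching cover number)+1 matchings. -/
theorem result :
    ¬ (∀ (S : Type) [Fintype S] [DecidableEq S] (M : Matroid (S × Fin 2)),
    M.E = Set.univ →
    (∀ C : Set (S × Fin 2), M.IsCircuit C → ∀ e : S, ¬ ((e, 0) ∈ C ∧ (e, 1) ∈ C)) →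
    ∀ w : Finset S → ℝ,
      (∀ X, 0 ≤ w X) →
      (∀ X, w X ≠ 0 →
        M.eRk ((↑X : Set S) ×ˢ (Set.univ : Set (Fin 2))) = ((2 * X.card : ℕ) : ℕ∞)) →
      (∀ e : S, 1 ≤ ∑ X ∈ Finset.univ.filter (fun X : Finset S => e ∈ X), w X) →
      ∃ (k : ℕ) (c : Fin k → Finset S),
        (∀ i, M.eRk ((↑(c i) : Set S) ×ˢ (Set.univ : Set (Fin 2)))
              = ((2 * (c i).card : ℕ) : ℕ∞)) ∧
        (∀ e : S, ∃ i, e ∈ c i) ∧
        (k : ℝ) ≤ (∑ X, w X) + 1) := by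
  intro h
  obtain ⟨k, c, hc, hcov, hk⟩ := h (Fin 11) M rfl circ_ok wt
    (fun X => Finset.sum_nonneg fun i _ => by split_ifs <;> norm_num) wt_support wt_cover
  rw [wt_total] at hk
  have hk3 : k < 3 := by
    have : (k : ℝ) < 3 := lt_of_le_of_lt hk (by norm_num)
    exact_mod_cast this
  obtain ⟨t, ht⟩ := mono (fun e => decide (∃ i : Fin k, (i : ℕ) = 0 ∧ e ∈ c i))
  obtain ⟨e0, he0⟩ := (cyc_ok t).2
  rcases ht with ht | ht
  · simp only [decide_eq_true_eq] at ht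
    obtain ⟨i0, hi0, _⟩ := ht e0 he0
    refine no_cyc (c i0) t (fun e he => ?_) (hc i0)
    obtain ⟨i, hi, hei⟩ := ht e he
    have : i = i0 := Fin.ext (hi.trans hi0.symm)
    rwa [← this]
  · simp only [decide_eq_false_iff_not, not_exists, not_and] at ht
    have h1 : ∀ e ∈ (cyc t).2, ∃ i : Fin k, (i : ℕ) = 1 ∧ e ∈ c i := by
      intro e he
      obtain ⟨i, hi⟩ := hcov e
      refine ⟨i, ?_, hi⟩
      have hne : (i : ℕ) ≠ 0 := fun h0 => ht e he i h0 hi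
      have := i.isLt
      omega
    obtain ⟨i1, hi1, _⟩ := h1 e0 he0
    refine no_cyc (c i1) t (fun e he => ?_) (hc i1)
    obtain ⟨i, hi, hei⟩ := h1 e he
    have : i = i1 := Fin.ext (hi.trans hi1.symm)
    rwa [← this]

end Pool.Agent.S09184
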