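-- Proof of frozen statement S09837 (MP_83fe1d_co): c = 1 - 0.093/18 < 0.995 works, with C = 6.
-- Comb of about (sqrt n)/2 horizontal lines with averaged shift; on each line the hooked points are
-- cut into blocks of three, and each block is improved by Steiner points.
import Pool.Statements.S09837
import Pool.Agent.Lib_helper18.SteinerComb

set_option autoImplicit false
open Pool Pool.MP_83fe1d_co

namespace Pool.Agent.S09837

/-- There are constants c < 0.995 and C such that any n points in the unit square can be joined by a network of straight segments, with Steiner points allowed, of total length at most c·√n + C. -/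
theorem result :
    ∃ c : ℝ, c < 995 / 1000 ∧ ∃ C : ℝ,
      ∀ X : Finset (EuclideanSpace ℝ (Fin 2)),
        (∀ x ∈ X, ∀ i : Fin 2, 0 ≤ x i ∧ x i ≤ 1) →
        ∃ E : Finset (EuclideanSpace ℝ (Fin 2) × EuclideanSpace ℝ (Fin 2)),
          (∀ x ∈ X, ∀ y ∈ X,
            Relation.ReflTransGen (fun a b => (a, b) ∈ E ∨ (b, a) ∈ E) x y) ∧
          ∑ e ∈ E, dist e.1 e.2 ≤ c * Real.sqrt (X.card : ℝ) + C := by
  refine ⟨1 - 0.093 / 18, by norm_num, 6, ?_⟩
  intro X hX
  obtain ⟨E, h1, h2⟩ := Pool.Agent.Lib_helper18.Steiner.main X hX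
  exact ⟨E, fun x hx y hy => h1 x hx y hy, h2⟩

end Pool.Agent.S09837
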