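import Pool.Statements.S10393
import Pool.Agent.Lib_helper60.Sts.Final

set_option autoImplicit false
open Pool Pool.MP_9c4767_co

namespace Pool.Agent.S10393

/-- There is a constant c such that every finite group of order n is isomorphic to the full automorphism group of some Steiner triple system on at most n^c points. -/
theorem result :
    ∃ c : ℕ, ∀ (G : Type) [Group G] [Fintype G],
      ∃ (m : ℕ) (B : Finset (Finset (Fin m))),
        m ≤ (Fintype.card G) ^ c ∧
        (∀ b ∈ B, b.card = 3) ∧
        (∀ x y : Fin m, x ≠ y → ∃! b, b ∈ B ∧ x ∈ b ∧ y ∈ b) ∧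
        ∃ φ : G →* Equiv.Perm (Fin m), Function.Injective φ ∧
          ∀ σ : Equiv.Perm (Fin m),
            (σ ∈ φ.range ↔ ∀ b : Finset (Fin m), (b ∈ B ↔ b.map σ.toEmbedding ∈ B)) := by
  refine ⟨15, ?_⟩
  intro G _ _
  by_cases hn : 2 ≤ Fintype.card G
  · obtain ⟨V, hV, op, φ, h1, h2, h3, h4⟩ := Pool.Agent.Lib_helper60.Sts.main_n G hn
    obtain ⟨B, h5, h6, h7⟩ := Pool.Agent.Lib_helper60.Sts.convert_type op h2 φ h3 h4
    exact ⟨Fintype.card V, B, h1, h5, h6, h7⟩
  · have hpos : 0 < Fintype.card G := Fintype.card_pos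
    have h1 : Fintype.card G = 1 := by omega
    have hs : Subsingleton G := Fintype.card_le_one_iff_subsingleton.1 h1.le
    refine ⟨1, ∅, by rw [h1]; simp, by simp, ?_, 1, ?_, ?_⟩
    · intro x y hxy
      exact absurd (Subsingleton.elim x y) hxy
    · intro a b _
      exact Subsingleton.elim a b
    · intro σ
      have : σ = 1 := Subsingleton.elim _ _
      subst this
      constructor
      · intro _ b
        simp
      · intro _
        exact Subgroup.one_mem _

end Pool.Agent.S10393
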