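-- Frozen statement S10402: the negation of Q1 of MP_9cfd90_co.
-- We disprove Q1 with s = 2, k = 3, t = 21: for every c there is a finite graph of layered treewidth at most 3
-- with no K_{2,21} subgraph and no 3-colouring with clustering c.  The construction and the proof are
-- described at the top of Pool/Agent/Lib_helper92/LTW.lean.
import Pool.Statements.S10402
import Pool.Agent.Lib_helper92.LTW

set_option autoImplicit false
open Pool Pool.MP_9cfd90_co

namespace Pool.Agent.S10402

/-- The negation of the preceding statement: There is f such that for all s ≥ 2, k, t, every finite graph of layered treewidth at most k with no K_{s,t} subgraph has an (s+1)-colouring whose monochromatic components each have at most f(k,s,t) vertices. -/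
theorem result :
    ¬ (∃ f : ℕ → ℕ → ℕ → ℕ, ∀ s : ℕ, 2 ≤ s → ∀ k t : ℕ, ∀ (V : Type) [Fintype V] (G : SimpleGraph V),
      (∃ (ι : Type) (_ : Fintype ι) (T : SimpleGraph ι) (B : ι → Set V) (ℓ : V → ℕ),
        T.IsTree ∧ (∀ v : V, ∃ i, v ∈ B i) ∧
        (∀ u v : V, G.Adj u v → ∃ i, u ∈ B i ∧ v ∈ B i) ∧
        (∀ v : V, (T.induce {i | v ∈ B i}).Connected) ∧
        (∀ u v : V, G.Adj u v → ℓ u ≤ ℓ v + 1) ∧
        (∀ (i : ι) (n : ℕ), Set.ncard {x : V | x ∈ B i ∧ ℓ x = n} ≤ k)) →
      (¬ ∃ φ : completeBipartiteGraph (Fin s) (Fin t) →g G, Function.Injective φ) →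
      ∃ c : V → Fin (s + 1), ∀ v : V,
        Set.ncard {u : V | (G ⊓ SimpleGraph.fromRel (fun x y => c x = c y)).Reachable v u}
          ≤ f k s t) := by
  rintro ⟨f, hf⟩
  obtain ⟨c, hc⟩ : ∃ c, c = f 3 2 21 := ⟨_, rfl⟩
  have hn0 : 0 < c + 1 := Nat.succ_pos c
  let V := Lib_helper92.LTW.Vx (c + 1) ((c + 1) * c + 1) (2 * (c + 1) + 1)
  let _ : Fintype V := Fintype.ofFinite V
  obtain ⟨col, hcol⟩ := hf 2 le_rfl 3 21 V
    (Lib_helper92.LTW.G (c + 1) ((c + 1) * c + 1) (2 * (c + 1) + 1))
    ⟨V, inferInstance, Lib_helper92.LTW.Tr hn0 ((c + 1) * c + 1) (2 * (c + 1) + 1),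
      Lib_helper92.LTW.bag, fun v => Lib_helper92.LTW.lay v.1,
      Lib_helper92.LTW.Tr_isTree hn0,
      fun v => ⟨v, Lib_helper92.LTW.self_mem_bag v.1⟩,
      by
        intro u v huv
        rw [Lib_helper92.LTW.G, SimpleGraph.fromRel_adj] at huv
        rcases huv.2 with h | h
        · exact ⟨u, Lib_helper92.LTW.self_mem_bag u.1, Lib_helper92.LTW.rel_mem_bag h⟩
        · exact ⟨v, Lib_helper92.LTW.rel_mem_bag h, Lib_helper92.LTW.self_mem_bag v.1⟩,
      fun v => Lib_helper92.LTW.bag_connected hn0 v,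
      by
        intro u v huv
        rw [Lib_helper92.LTW.G, SimpleGraph.fromRel_adj] at huv
        rcases huv.2 with h | h
        · exact (Lib_helper92.LTW.lay_rel h).1
        · exact (Lib_helper92.LTW.lay_rel h).2,
      fun x r => Lib_helper92.LTW.bag_layer x r⟩
    Lib_helper92.LTW.no_K2
  rw [← hc] at hcol
  exact Lib_helper92.LTW.no_coloring (c := c) (Nat.lt_succ_self _) rfl col hcol rfl

end Pool.Agent.S10402
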