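import Pool.Statements.S10439
import Pool.Agent.Lib_helper28.CMPP.Main
-- import your own Pool.Agent.* helpers here

set_option autoImplicit false
open Pool Pool.MP_9edfd9_co

namespace Pool.Agent.S10439

/-- For n≥1, k_0..k_n and 0<q<1, summing q^weight over (2n+1)-coloured partitions (parts of colour c have parity of c) whose every path sum is at most k gives the stated theta-product formula. -/
theorem result :
  ∀ n : ℕ, 1 ≤ n → ∀ k : ℕ → ℕ, ∀ q : ℝ, 0 < q → q < 1 →
    HasSum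
      (fun N : ℕ =>
        ((({f : ℕ → ℕ → ℕ |
            (∀ c i, f c i ≠ 0 → 1 ≤ c ∧ c ≤ 2 * n + 1 ∧ 1 ≤ i ∧ i ≤ N ∧ Even (c + i)) ∧
            (∑ c ∈ Finset.Icc 1 (2 * n + 1), ∑ i ∈ Finset.Icc 1 N, i * f c i) = N ∧
            ∀ p : ℕ → ℤ,
              (∀ c ∈ Finset.Icc 1 (2 * n + 1), -1 ≤ p c ∧ Even (p c + (c : ℤ))) →
              (∀ c ∈ Finset.Icc 1 (2 * n), |p c - p (c + 1)| = 1) →
              (∑ c ∈ Finset.Icc 1 (2 * n + 1),
                  (if p c = -1 then (if Odd c then k ((c - 1) / 2) else 0)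
                   else f c (p c).toNat))
                ≤ ∑ t ∈ Finset.range (n + 1), k t}).ncard : ℕ) : ℝ) * q ^ N)
      ((∏' j : ℕ, (1 - q ^ (((∑ t ∈ Finset.range (n + 1), k t) + n + 1)
              + (2 * ((∑ t ∈ Finset.range (n + 1), k t) + n + 1)) * j)))
        * (∏' j : ℕ, (1 - q ^ ((2 * ((∑ t ∈ Finset.range (n + 1), k t) + n + 1))
              + (2 * ((∑ t ∈ Finset.range (n + 1), k t) + n + 1)) * j))) ^ n
        / ((∏' j : ℕ, (1 - q ^ (1 + 2 * j))) * (∏' j : ℕ, (1 - q ^ (1 + j))) ^ n)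
        * (∏ i ∈ Finset.Icc 1 n,
            ((∏' j : ℕ, (1 - q ^ (((∑ t ∈ Finset.Icc i n, k t) + (n - i) + 1)
                + ((∑ t ∈ Finset.range (n + 1), k t) + n + 1) * j)))
             * (∏' j : ℕ, (1 - q ^ ((((∑ t ∈ Finset.range (n + 1), k t) + n + 1)
                - ((∑ t ∈ Finset.Icc i n, k t) + (n - i) + 1))
                + ((∑ t ∈ Finset.range (n + 1), k t) + n + 1) * j)))))
        * (∏ i ∈ Finset.Icc 1 n, ∏ l ∈ Finset.Icc (i + 1) n,
            ((∏' j : ℕ, (1 - q ^ ((((∑ t ∈ Finset.Icc i n, k t) - (∑ t ∈ Finset.Icc l n, k t)) + (l - i))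
                + (2 * ((∑ t ∈ Finset.range (n + 1), k t) + n + 1)) * j)))
             * (∏' j : ℕ, (1 - q ^ (((2 * ((∑ t ∈ Finset.range (n + 1), k t) + n + 1))
                - (((∑ t ∈ Finset.Icc i n, k t) - (∑ t ∈ Finset.Icc l n, k t)) + (l - i)))
                + (2 * ((∑ t ∈ Finset.range (n + 1), k t) + n + 1)) * j)))
             * (∏' j : ℕ, (1 - q ^ (((∑ t ∈ Finset.Icc i n, k t) + (∑ t ∈ Finset.Icc l n, k t) + (n - i) + (n - l) + 2)
                + (2 * ((∑ t ∈ Finset.range (n + 1), k t) + n + 1)) * j)))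
             * (∏' j : ℕ, (1 - q ^ (((2 * ((∑ t ∈ Finset.range (n + 1), k t) + n + 1))
                - ((∑ t ∈ Finset.Icc i n, k t) + (∑ t ∈ Finset.Icc l n, k t) + (n - i) + (n - l) + 2))
                + (2 * ((∑ t ∈ Finset.range (n + 1), k t) + n + 1)) * j)))))) := by
  intro n hn k q hq0 hq1
  exact Pool.Agent.CMPP.main n hn k hq0 hq1

end Pool.Agent.S10439
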