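import Pool.Statements.S10521
import Pool.Agent.Lib_helper60.DD.Final

set_option autoImplicit false
open Classical
open Pool Pool.MP_a2cbb7_co

namespace Pool.Agent.S10521

/-- There are c>0 and N such that any n≥N points in the plane with no four on a common circle include a point having more than (1/3+c)n distinct distances to the other points. -/
theorem result :
    ∃ c : ℝ, 0 < c ∧ ∃ N : ℕ, ∀ n : ℕ, N ≤ n →
      ∀ S : Finset (EuclideanSpace ℝ (Fin 2)), S.card = n →
        (∀ z : EuclideanSpace ℝ (Fin 2), ∀ r : ℝ,
          (S.filter (fun p => dist p z = r)).card ≤ 3) →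
        ∃ x ∈ S, ((1 : ℝ) / 3 + c) * (n : ℝ) <
          (((S.erase x).image (fun y => dist x y)).card : ℝ) :=
  Pool.Agent.DD.H60.final

end Pool.Agent.S10521
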