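import Pool.Statements.S10620
import Pool.Agent.Lib_helper36.Contains13

set_option autoImplicit false
open Pool Pool.MP_a73857_co

namespace Pool.Agent.Lib_helper36

open Set Filter Topology

/-- The sup norm as a point of the space of norms. -/
noncomputable def supN : NormSp 2 :=
  ⟨⟨fun x => ‖x‖, continuous_norm⟩, fun _ hx => norm_eq_zero.mp hx, norm_add_le, fun c x => by
    show ‖c • x‖ = |c| * ‖x‖
    rw [norm_smul, Real.norm_eq_abs]⟩

/-- basic open neighbourhoods in the space of norms -/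
def nbhd (M : NormSp 2) (ε : ℝ) : Set (NormSp 2) :=
  {N | MapsTo (N.1 - M.1) (Metric.sphere 0 1) (Ioo (-ε) ε)}

lemma isOpen_nbhd (M : NormSp 2) (ε : ℝ) : IsOpen (nbhd M ε) := by
  have h : IsOpen {g : C(Fin 2 → ℝ, ℝ) | MapsTo g (Metric.sphere 0 1) (Ioo (-ε) ε)} :=
    ContinuousMap.isOpen_setOfPred_mapsTo (isCompact_sphere _ _) isOpen_Ioo
  exact h.preimage (continuous_subtype_val.sub continuous_const)

lemma self_mem_nbhd (M : NormSp 2) {ε : ℝ} (hε : 0 < ε) : M ∈ nbhd M ε := by
  intro x _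
  simp [hε]

lemma nbhd_bound {M N : NormSp 2} {ε : ℝ} (h : N ∈ nbhd M ε) (x : Fin 2 → ℝ) :
    |N.1 x - M.1 x| ≤ ε * ‖x‖ := by
  by_cases hx : x = 0
  · subst hx
    rw [N.map_zero, M.map_zero]; simp
  · have hn : 0 < ‖x‖ := norm_pos_iff.mpr hx
    have h1 : (‖x‖⁻¹ • x) ∈ Metric.sphere (0 : Fin 2 → ℝ) 1 := by
      simp [norm_smul, inv_mul_cancel₀ hn.ne']
    have h2 := h h1
    rw [ContinuousMap.sub_apply, N.2.2.2, M.2.2.2, abs_of_pos (inv_pos.mpr hn), ← mul_sub] at h2
    obtain ⟨h3, h4⟩ := h2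
    rw [abs_le]
    have e : N.1 x - M.1 x = ‖x‖ * (‖x‖⁻¹ * (N.1 x - M.1 x)) := by
      field_simp
    rw [e]
    constructor <;> nlinarith

lemma norm_le_euc (x : Fin 2 → ℝ) : ‖x‖ ≤ euc x := by
  rw [norm_eq_max]
  refine max_le ?_ ?_
  · refine Real.abs_le_sqrt ?_
    nlinarith [sq_nonneg (x 1)]
  · refine Real.abs_le_sqrt ?_
    nlinarith [sq_nonneg (x 0)]

/-- no residual set can avoid a nonempty open set -/
lemma residual_meets {A : Set (NormSp 2)} (hA : A ∈ residual (NormSp 2)) (M : NormSp 2) :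
    ∃ N ∈ A, N ∈ SC ∧ N ∈ nbhd M (1 / 100) := by
  have h1 : A ∩ SC ∈ residual (NormSp 2) := Filter.inter_mem hA SC_mem_residual
  have h2 : Dense (A ∩ SC) := dense_of_mem_residual h1
  obtain ⟨N, hN1, hN2⟩ := h2.inter_open_nonempty _ (isOpen_nbhd M (1 / 100))
    ⟨M, self_mem_nbhd M (by norm_num)⟩
  exact ⟨N, hN2.1, hN2.2, hN1⟩

end Pool.Agent.Lib_helper36

namespace Pool.Agent.S10620

open Pool.Agent.Lib_helper36

/-- The negation of the preceding statement: For every d ≥ 2 and finite graph H, exactly one holds: comeagre-many norms on ℝ^d have a unit distance graph containing H as a subgraph, or comeagre-many have one not containing H. Norms carry the topology of uniform convergence on compacts. -/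
theorem result :
    ¬ (∀ d : ℕ, 2 ≤ d → ∀ n : ℕ, ∀ H : SimpleGraph (Fin n),
      Xor'
        ({N : {f : C(Fin d → ℝ, ℝ) //
              (∀ x, f x = 0 → x = 0) ∧
              (∀ x y, f (x + y) ≤ f x + f y) ∧
              (∀ (c : ℝ) x, f (c • x) = |c| * f x)} |
            ∃ φ : Fin n → (Fin d → ℝ), Function.Injective φ ∧
              ∀ u v, H.Adj u v → N.1 (φ u - φ v) = 1} ∈ residual _)
        ({N : {f : C(Fin d → ℝ, ℝ) //
              (∀ x, f x = 0 → x = 0) ∧
              (∀ x y, f (x + y) ≤ f x + f y) ∧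
              (∀ (c : ℝ) x, f (c • x) = |c| * f x)} |
            ¬ ∃ φ : Fin n → (Fin d → ℝ), Function.Injective φ ∧
              ∀ u v, H.Adj u v → N.1 (φ u - φ v) = 1} ∈ residual _)) := by
  intro hall
  rcases hall 2 le_rfl 13 H13 with ⟨hA, -⟩ | ⟨hB, -⟩
  · -- strictly convex norms near the Euclidean norm do not contain the graph
    obtain ⟨N, hNA, hNS, hNV⟩ := residual_meets hA eucN
    refine not_contains hNS (fun x => ?_) hNA
    have h1 := nbhd_bound hNV x
    have h2 := norm_le_euc x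
    simp only [eucN_apply] at h1
    linarith
  · -- strictly convex norms near the sup norm contain the graph
    obtain ⟨N, hNB, hNS, hNU⟩ := residual_meets hB supN
    exact hNB (contains hNS fun x => nbhd_bound hNU x)

end Pool.Agent.S10620
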