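import Pool.Statements.S10670
-- import your own Pool.Agent.* helpers here

set_option autoImplicit false
open Pool Pool.MP_a94970_co

namespace Pool.Agent.S10670

open Finset Nat

/-!
Construction.  Let `U = Fin m`.  For every nonempty `A ⊆ U` add `(|A|-1)! (m-|A|)!` further
vertices, each joined exactly to the members of `A`.  There are `m! * H_m` further vertices, and
every nonempty `S ⊆ U` uniquely covers exactly `m!` of them.  Hence every perfect Roman dominating
function has weight at least `m! * (H_m - 1)`, which exceeds `4/5` of the order once `H_m > 6`.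
-/

theorem key {α : Type} [DecidableEq α] (T : Finset α) : ∀ (a d : ℕ),
    (∑ B ∈ T.powerset, (a + B.card)! * (T.card + d - B.card)!) * (a + d + 1)!
      = a ! * d ! * (a + T.card + d + 1)! := by
  induction T using Finset.induction_on with
  | empty =>
    intro a d
    simp
  | insert x T hx ih =>
    intro a d
    rw [Finset.sum_powerset_insert hx, Finset.card_insert_of_notMem hx]
    have h1 := ih a (d + 1)
    have h2 := ih (a + 1) d
    have e1 : ∑ B ∈ T.powerset, (a + B.card)! * (T.card + 1 + d - B.card)!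
        = ∑ B ∈ T.powerset, (a + B.card)! * (T.card + (d + 1) - B.card)! := by
      refine Finset.sum_congr rfl fun B _ => ?_
      rw [show T.card + 1 + d = T.card + (d + 1) by ring]
    have e2 : ∑ B ∈ T.powerset, (a + (insert x B).card)! * (T.card + 1 + d - (insert x B).card)!
        = ∑ B ∈ T.powerset, (a + 1 + B.card)! * (T.card + d - B.card)! := by
      refine Finset.sum_congr rfl fun B hB => ?_
      have hxB : x ∉ B := fun h => hx (Finset.mem_powerset.mp hB h)
      rw [Finset.card_insert_of_notMem hxB]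
      congr 2
      · ring
      · omega
    rw [e1, e2]
    set F1 := ∑ B ∈ T.powerset, (a + B.card)! * (T.card + (d + 1) - B.card)!
    set F2 := ∑ B ∈ T.powerset, (a + 1 + B.card)! * (T.card + d - B.card)!
    have g1 : F1 * (a + d + 2)! = a ! * (d + 1)! * (a + T.card + d + 2)! := by
      have := h1
      rw [show a + (d + 1) + 1 = a + d + 2 by ring,
        show a + T.card + (d + 1) + 1 = a + T.card + d + 2 by ring] at this
      exact this
    have g2 : F2 * (a + d + 2)! = (a + 1)! * d ! * (a + T.card + d + 2)! := by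
      have := h2
      rw [show a + 1 + d + 1 = a + d + 2 by ring,
        show a + 1 + T.card + d + 1 = a + T.card + d + 2 by ring] at this
      exact this
    have hs : (a + d + 2)! = (a + d + 2) * (a + d + 1)! := Nat.factorial_succ _
    have hpos : 0 < a + d + 2 := by omega
    apply Nat.eq_of_mul_eq_mul_left hpos
    have : (a + d + 2) * ((F1 + F2) * (a + d + 1)!) = F1 * (a + d + 2)! + F2 * (a + d + 2)! := by
      rw [hs]; ring
    rw [this, g1, g2, Nat.factorial_succ d, Nat.factorial_succ a,
      show a + (T.card + 1) + d + 1 = a + T.card + d + 2 by ring]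
    ring

/-- multiplicities -/
def cc (m k : ℕ) : ℕ := if k = 0 then 0 else (k - 1)! * (m - k)!

/-- the extra vertices -/
abbrev W (m : ℕ) : Type := Σ A : Finset (Fin m), Fin (cc m A.card)

/-- the graph -/
def Gr (m : ℕ) : SimpleGraph (Fin m ⊕ W m) where
  Adj x y := match x, y with
    | Sum.inl u, Sum.inr w => u ∈ w.1
    | Sum.inr w, Sum.inl u => u ∈ w.1
    | _, _ => False
  symm := ⟨by
    rintro (u | w) (u' | w') h
    · exact h.elim
    · exact h
    · exact h
    · exact h.elim⟩
  loopless := ⟨by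
    rintro (u | w) h
    · exact h
    · exact h⟩

theorem adj_inl_inr (m : ℕ) (u : Fin m) (w : W m) : (Gr m).Adj (Sum.inl u) (Sum.inr w) ↔ u ∈ w.1 :=
  Iff.rfl
theorem adj_inr_inl (m : ℕ) (u : Fin m) (w : W m) : (Gr m).Adj (Sum.inr w) (Sum.inl u) ↔ u ∈ w.1 :=
  Iff.rfl
theorem adj_inr_inr (m : ℕ) (u : W m) (w : W m) : ¬ (Gr m).Adj (Sum.inr w) (Sum.inr u) :=
  fun h => h

theorem conn (m : ℕ) (hm : 0 < m) : (Gr m).Connected := by
  have hc : 0 < cc m (Finset.univ : Finset (Fin m)).card := by
    simp only [cc, Finset.card_univ, Fintype.card_fin]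
    rw [if_neg hm.ne']
    positivity
  let w0 : W m := ⟨Finset.univ, ⟨0, hc⟩⟩
  have hr : ∀ x, (Gr m).Reachable x (Sum.inr w0) := by
    have h1 : ∀ u : Fin m, (Gr m).Reachable (Sum.inl u) (Sum.inr w0) := by
      intro u
      exact SimpleGraph.Adj.reachable ((adj_inl_inr m u w0).2 (Finset.mem_univ u))
    rintro (u | w)
    · exact h1 u
    · have hne : w.1.Nonempty := by
        rw [Finset.nonempty_iff_ne_empty]
        intro h
        have h2 : 0 < cc m w.1.card := lt_of_le_of_lt (Nat.zero_le _) w.2.2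
        rw [h] at h2
        simp [cc] at h2
      obtain ⟨u, hu⟩ := hne
      exact (SimpleGraph.Adj.reachable ((adj_inr_inl m u w).2 hu)).trans (h1 u)
  have : Nonempty (Fin m ⊕ W m) := ⟨Sum.inr w0⟩
  exact ⟨fun x y => (hr x).trans (hr y).symm⟩

/-- number of extra vertices -/
theorem cardW (m : ℕ) : (Fintype.card (W m) : ℚ) = m ! * harmonic m := by
  rw [Fintype.card_sigma]
  simp only [Fintype.card_fin]
  have h := Finset.sum_powerset_apply_card (fun k => (cc m k : ℚ)) (x := (Finset.univ : Finset (Fin m)))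
  rw [Finset.powerset_univ] at h
  push_cast
  rw [h, Finset.card_univ, Fintype.card_fin, Finset.sum_range_succ', harmonic, Finset.mul_sum]
  simp only [cc, nsmul_eq_mul]
  simp only [if_true, Nat.cast_zero, mul_zero, add_zero]
  refine Finset.sum_congr rfl fun k hk => ?_
  rw [if_neg (Nat.succ_ne_zero k)]
  have hk' : k + 1 ≤ m := by simpa using hk
  have := Nat.choose_mul_factorial_mul_factorial hk'
  rw [← this, Nat.factorial_succ]
  push_cast
  have : ((k : ℚ) + 1) ≠ 0 := by positivity
  field_simp


/-- unique coverage bound -/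
theorem cover (m : ℕ) (S : Finset (Fin m)) (Z : Finset (W m))
    (hZ : ∀ w ∈ Z, ∃ u ∈ S, u ∈ w.1 ∧ ∀ u' ∈ S, u' ∈ w.1 → u' = u) : Z.card ≤ m ! := by
  classical
  have hsub : Z ⊆ (S ×ˢ (Sᶜ).powerset).biUnion (fun p =>
      (Finset.univ : Finset (Fin (cc m (insert p.1 p.2).card))).image
        (fun j => (⟨insert p.1 p.2, j⟩ : W m))) := by
    intro w hw
    obtain ⟨u, huS, huw, huniq⟩ := hZ w hw
    have hw1 : insert u (w.1 \ S) = w.1 := by
      ext v
      simp only [Finset.mem_insert, Finset.mem_sdiff]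
      constructor
      · rintro (rfl | h)
        · exact huw
        · exact h.1
      · intro hv
        by_cases hvS : v ∈ S
        · exact Or.inl (huniq v hvS hv)
        · exact Or.inr ⟨hv, hvS⟩
    rw [Finset.mem_biUnion]
    refine ⟨(u, w.1 \ S), ?_, ?_⟩
    · rw [Finset.mem_product]
      refine ⟨huS, ?_⟩
      rw [Finset.mem_powerset]
      intro v hv
      rw [Finset.mem_compl]
      exact (Finset.mem_sdiff.1 hv).2
    · obtain ⟨A, j⟩ := w
      simp only at hw1 ⊢
      rw [hw1]
      exact Finset.mem_image_of_mem _ (Finset.mem_univ j)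
  refine (Finset.card_le_card hsub).trans (Finset.card_biUnion_le.trans ?_)
  have h1 : ∀ p ∈ S ×ˢ (Sᶜ).powerset,
      ((Finset.univ : Finset (Fin (cc m (insert p.1 p.2).card))).image
        (fun j => (⟨insert p.1 p.2, j⟩ : W m))).card
        ≤ (0 + p.2.card)! * ((Sᶜ).card + (S.card - 1) - p.2.card)! := by
    rintro ⟨u, B⟩ hp
    rw [Finset.mem_product, Finset.mem_powerset] at hp
    obtain ⟨hu, hB⟩ := hp
    simp only at hu hB ⊢
    refine Finset.card_image_le.trans ?_
    have huB : u ∉ B := fun h => (Finset.mem_compl.1 (hB h)) hu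
    rw [Finset.card_univ, Fintype.card_fin, Finset.card_insert_of_notMem huB, cc,
      if_neg (Nat.succ_ne_zero _)]
    have hcs : 0 < S.card := Finset.card_pos.2 ⟨u, hu⟩
    have hcc := Finset.card_add_card_compl S
    rw [Fintype.card_fin] at hcc
    have e1 : B.card + 1 - 1 = 0 + B.card := by omega
    have e2 : m - (B.card + 1) = (Sᶜ).card + (S.card - 1) - B.card := by omega
    rw [e1, e2]
  refine (Finset.sum_le_sum h1).trans ?_
  rw [Finset.sum_product]
  simp only [Finset.sum_const, smul_eq_mul]
  rcases Nat.eq_zero_or_pos S.card with h0 | hpos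
  · rw [h0, zero_mul]; exact Nat.zero_le _
  · have hk := key (Sᶜ) 0 (S.card - 1)
    have hcc := Finset.card_add_card_compl S
    rw [Fintype.card_fin] at hcc
    have e1 : 0 + (S.card - 1) + 1 = S.card - 1 + 1 := by omega
    have e2 : 0 + (Sᶜ).card + (S.card - 1) + 1 = m := by omega
    rw [e1, e2, Nat.factorial_succ, Nat.sub_add_cancel hpos, Nat.factorial_zero, one_mul] at hk
    have hf : 0 < (S.card - 1)! := Nat.factorial_pos _
    apply le_of_eq
    apply Nat.eq_of_mul_eq_mul_left hf
    rw [← hk]
    ring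

/-- weight bound for every perfect Roman dominating function of the graph -/
theorem weight (m : ℕ) (f : Fin m ⊕ W m → ℕ)
    (hf : ∀ v, f v = 0 → ∃! u, (Gr m).Adj v u ∧ f u = 2) :
    Fintype.card (W m) ≤ m ! + ∑ v, f v := by
  classical
  set Z : Finset (W m) := Finset.univ.filter (fun w => f (Sum.inr w) = 0) with hZ
  have h1 : Z.card ≤ m ! := by
    apply cover m (Finset.univ.filter (fun u => f (Sum.inl u) = 2)) Z
    intro w hw
    have hw0 : f (Sum.inr w) = 0 := by simpa [hZ] using hw
    obtain ⟨x, ⟨hx, hx2⟩, huniq⟩ := hf _ hw0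
    rcases x with u | w'
    · refine ⟨u, by simpa using hx2, hx, ?_⟩
      intro u' hu' hu'w
      have h3 := huniq (Sum.inl u') ⟨hu'w, by simpa using hu'⟩
      exact Sum.inl_injective h3
    · exact absurd hx (adj_inr_inr m _ _)
  have h2 : Fintype.card (W m) ≤ Z.card + ∑ w : W m, f (Sum.inr w) := by
    have : ∑ w : W m, 1 ≤ ∑ w : W m, ((if f (Sum.inr w) = 0 then 1 else 0) + f (Sum.inr w)) := by
      refine Finset.sum_le_sum fun w _ => ?_
      split_ifs <;> omega
    rw [Finset.sum_add_distrib, ← Finset.card_filter] at this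
    simpa [hZ] using this
  rw [Fintype.sum_sum_type]
  omega

theorem big (m : ℕ) (hm : 5 ≤ m) (hH : (6 : ℚ) < harmonic m) :
    4 * m + 5 * m ! < Fintype.card (W m) := by
  have hf : 4 * m ≤ m ! := by
    obtain ⟨k, rfl⟩ : ∃ k, m = k + 1 := ⟨m - 1, by omega⟩
    have h1 : (k + 1)! = (k + 1) * k ! := Nat.factorial_succ k
    have h2 : k ≤ k ! := Nat.self_le_factorial k
    rw [h1]
    nlinarith
  have hf' : (4 * m : ℚ) ≤ (m ! : ℕ) := by exact_mod_cast hf
  have hpos : (0 : ℚ) < (m ! : ℕ) := by exact_mod_cast Nat.factorial_pos m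
  have h : ((4 * m + 5 * m ! : ℕ) : ℚ) < (Fintype.card (W m) : ℚ) := by
    rw [cardW]
    push_cast
    nlinarith
  exact_mod_cast h

theorem exists_m : ∃ m : ℕ, 5 ≤ m ∧ (6 : ℚ) < harmonic m := by
  refine ⟨2 ^ 9 - 1, by norm_num, ?_⟩
  have h6 : (6 : ℝ) < ((harmonic (2 ^ 9 - 1) : ℚ) : ℝ) := by
    refine lt_of_lt_of_le ?_ (log_add_one_le_harmonic (2 ^ 9 - 1))
    have : (((2 ^ 9 - 1 + 1 : ℕ)) : ℝ) = 2 ^ 9 := by norm_num
    rw [this, Real.log_pow]
    have := Real.log_two_gt_d9
    push_cast
    linarith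
  exact_mod_cast h6

/-- The negation of the preceding statement: Every connected finite simple graph on n ≥ 3 vertices has a 0/1/2 labelling where each 0-vertex has exactly one neighbour labelled 2, with total label sum at most 4n/5. -/
theorem result :
    ¬ (∀ (V : Type) [Fintype V] (G : SimpleGraph V),
      G.Connected → 3 ≤ Fintype.card V →
      ∃ f : V → ℕ, (∀ v, f v ≤ 2) ∧
        (∀ v, f v = 0 → ∃! u, G.Adj v u ∧ f u = 2) ∧
        5 * (∑ v, f v) ≤ 4 * Fintype.card V) := by
  intro h
  obtain ⟨m, hm, hH⟩ := exists_m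
  have hb := big m hm hH
  obtain ⟨f, -, hf, hle⟩ := h (Fin m ⊕ W m) (Gr m) (conn m (by omega)) (by
    rw [Fintype.card_sum, Fintype.card_fin]; omega)
  have hw := weight m f hf
  rw [Fintype.card_sum, Fintype.card_fin] at hle
  omega

end Pool.Agent.S10670
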