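import Pool.Statements.S10798
import Pool.Agent.Lib_helper29.OCN.Fin239
import Pool.Agent.Lib_helper87.OCN.YcJN
import Pool.Agent.Lib_helper16.OCN.YcJ_Game

set_option autoImplicit false
open Pool Pool.MP_aeb124_co

namespace Pool.Agent.S10798

/-- The negation of the preceding statement: For every ε>0 and all large n, if 1≤b≤(1/√2−ε)n then in the monotone orientation game on K_n (OMaker first orients 1 edge, OBreaker 1 to b edges per turn), OMaker can force a directed cycle. -/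
theorem result :
    ¬ (∀ ε : ℝ, 0 < ε → ∃ N : ℕ, ∀ n : ℕ, N ≤ n → ∀ b : ℕ, 1 ≤ b →
    (b : ℝ) ≤ (1 / Real.sqrt 2 - ε) * (n : ℝ) →
    ∀ WM WB : Set (Finset (Fin n × Fin n)),
      (∀ D : Finset (Fin n × Fin n),
          (∃ v : Fin n, Relation.TransGen (fun x y => (x, y) ∈ D) v v) →
            D ∈ WM ∧ D ∈ WB) →
      (∀ D : Finset (Fin n × Fin n),
          (∃ i j : Fin n, i ≠ j ∧ (i, j) ∉ D ∧ (j, i) ∉ D ∧ insert (i, j) D ∈ WB) →
            D ∈ WM) →
      (∀ D : Finset (Fin n × Fin n),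
          (∃ i j : Fin n, i ≠ j ∧ (i, j) ∉ D ∧ (j, i) ∉ D) →
          (∀ A : Finset (Fin n × Fin n), A.Nonempty → A.card ≤ b →
              (∀ p ∈ A, p.1 ≠ p.2 ∧ p ∉ D ∧ p.swap ∉ D ∧ p.swap ∉ A) →
                D ∪ A ∈ WM) →
            D ∈ WB) →
      (∅ : Finset (Fin n × Fin n)) ∈ WM) :=
  Pool.Agent.OCN.final239 (Pool.Agent.OCN.numThm_of_game (fun P => Pool.Agent.OCN.YC.gm_game P)
    rfl rfl rfl rfl rfl rfl rfl rfl)

end Pool.Agent.S10798
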