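import Pool.Statements.S11135
import Pool.Agent.Lib_helper47.CapArea

set_option autoImplicit false
open scoped MeasureTheory
open Pool Pool.MP_bdc619_co

namespace Pool.Agent.S11135

open MeasureTheory Metric Set Pool.Agent.Kiss47

theorem measurableSet_sph : MeasurableSet {x : E3 | ‖x‖ = 1} :=
  measurable_norm (measurableSet_singleton 1)

theorem inv_haus : InvSphere ((μH[2] : Measure E3).restrict {x : E3 | ‖x‖ = 1}) where
  inv := by
    intro e A hA
    have hA' : MeasurableSet (e ⁻¹' A) := e.continuous.measurable hA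
    rw [Measure.restrict_apply hA, Measure.restrict_apply hA']
    have : e ⁻¹' A ∩ {x : E3 | ‖x‖ = 1} = e.toIsometryEquiv ⁻¹' (A ∩ {x : E3 | ‖x‖ = 1}) := by
      ext x
      simp
    rw [this, IsometryEquiv.hausdorffMeasure_preimage]
  supp := by
    have hM : MeasurableSet {x : E3 | ‖x‖ ≠ 1} := measurableSet_sph.compl
    rw [Measure.restrict_apply hM]
    have : {x : E3 | ‖x‖ ≠ 1} ∩ {x : E3 | ‖x‖ = 1} = ∅ := by
      ext x; simp
    rw [this, measure_empty]

theorem haus_restrict_cap (u : E3) (r : ℝ) :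
    ((μH[2] : Measure E3).restrict {x : E3 | ‖x‖ = 1}) (cap u r) = μH[2] (cap u r) := by
  rw [Measure.restrict_apply (measurableSet_cap u r)]
  congr 1
  ext x
  simp only [cap, Set.mem_inter_iff, Set.mem_ofPred_eq]
  tauto

theorem haus_cap_eq (u v : E3) (hu : ‖u‖ = 1) (hv : ‖v‖ = 1) (r : ℝ) :
    μH[2] (cap u r) = μH[2] (cap v r) := by
  obtain ⟨g, hg⟩ := exists_O3 v u hv hu
  rw [← haus_restrict_cap u, ← haus_restrict_cap v,
    ← inv_haus.inv (toIso g) _ (measurableSet_cap u _)]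
  congr 1
  ext x
  simp only [cap, Set.mem_preimage, Set.mem_ofPred_eq, LinearIsometryEquiv.norm_map]
  have : InnerProductGeometry.angle u (toIso g x) = InnerProductGeometry.angle v x := by
    rw [← hg, ← toIso_apply]
    exact LinearIsometry.angle_map (toIso g).toLinearIsometry v x
  rw [this]

theorem cos_angle_unit (u x : E3) (hu : ‖u‖ = 1) (hx : ‖x‖ = 1) :
    Real.cos (InnerProductGeometry.angle u x) = inner ℝ u x := by
  rw [InnerProductGeometry.cos_angle, hu, hx]; simp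

theorem mem_cap_six_iff (u x : E3) (hu : ‖u‖ = 1) :
    x ∈ cap u (Real.pi / 6) ↔ ‖x‖ = 1 ∧ Real.sqrt 3 / 2 < inner ℝ u x := by
  constructor
  · rintro ⟨hx, h⟩
    refine ⟨hx, ?_⟩
    rw [← cos_angle_unit u x hu hx, ← Real.cos_pi_div_six]
    exact Real.cos_lt_cos_of_nonneg_of_le_pi (InnerProductGeometry.angle_nonneg _ _)
      (by linarith [Real.pi_pos]) h
  · rintro ⟨hx, h⟩
    refine ⟨hx, ?_⟩
    rw [← cos_angle_unit u x hu hx, ← Real.cos_pi_div_six] at h
    by_contra hcon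
    push Not at hcon
    have := Real.cos_le_cos_of_nonneg_of_le_pi (by positivity)
      (InnerProductGeometry.angle_le_pi u x) hcon
    linarith

/-- If the sphere has infinite measure then so have the caps. -/
theorem cap_top (h : μH[2] {x : E3 | ‖x‖ = 1} = ⊤) (u : E3) (hu : ‖u‖ = 1) :
    μH[2] (cap u (Real.pi / 6)) = ⊤ := by
  have hcomp : IsCompact {x : E3 | ‖x‖ = 1} := by
    have : {x : E3 | ‖x‖ = 1} = sphere (0 : E3) 1 := by ext x; simp
    rw [this]; exact isCompact_sphere _ _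
  obtain ⟨t, ht⟩ := hcomp.elim_finite_subcover
    (fun v : {x : E3 // ‖x‖ = 1} => {x : E3 | Real.sqrt 3 / 2 < inner ℝ (v : E3) x})
    (fun v => isOpen_lt continuous_const (by fun_prop)) (by
      intro x hx
      simp only [Set.mem_iUnion]
      refine ⟨⟨x, hx⟩, ?_⟩
      show Real.sqrt 3 / 2 < inner ℝ x x
      rw [real_inner_self_eq_norm_sq, show ‖x‖ = 1 from hx]
      have : Real.sqrt 3 < 2 := by
        rw [Real.sqrt_lt' (by norm_num)]; norm_num
      linarith)
  have hsub : {x : E3 | ‖x‖ = 1} ⊆ ⋃ v ∈ t, cap (v : E3) (Real.pi / 6) := by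
    intro x hx
    have := ht hx
    simp only [Set.mem_iUnion] at this ⊢
    obtain ⟨v, hv, hvx⟩ := this
    exact ⟨v, hv, (mem_cap_six_iff v x v.2).mpr ⟨hx, hvx⟩⟩
  have hle : μH[2] {x : E3 | ‖x‖ = 1} ≤ ∑ v ∈ t, μH[2] (cap (v : E3) (Real.pi / 6)) :=
    (measure_mono hsub).trans (measure_biUnion_finset_le _ _)
  have heq : ∑ v ∈ t, μH[2] (cap (v : E3) (Real.pi / 6))
      = t.card • μH[2] (cap u (Real.pi / 6)) := by
    have : ∀ v ∈ t, μH[2] (cap (v : E3) (Real.pi / 6)) = μH[2] (cap u (Real.pi / 6)) :=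
      fun v _ => haus_cap_eq (v : E3) u v.2 hu (Real.pi / 6)
    rw [Finset.sum_congr rfl this, Finset.sum_const]
  rw [h, heq, top_le_iff, nsmul_eq_mul] at hle
  by_contra hne
  exact ENNReal.mul_ne_top (ENNReal.natCast_ne_top _) hne hle

/-- Disjointness of the small caps means separation by 60 degrees. -/
theorem sep_of_disjoint (u v : E3) (hu : ‖u‖ = 1) (hv : ‖v‖ = 1)
    (hd : Disjoint (cap u (Real.pi / 6)) (cap v (Real.pi / 6))) : inner ℝ u v ≤ (1 / 2 : ℝ) := by
  by_contra hcon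
  push Not at hcon
  have huv : ‖u + v‖ ^ 2 = 2 + 2 * inner ℝ u v := by
    rw [norm_add_sq_real, hu, hv]; ring
  have hpos : 0 < ‖u + v‖ := by
    by_contra h
    have h0 : ‖u + v‖ = 0 := le_antisymm (not_lt.mp h) (norm_nonneg _)
    rw [h0] at huv
    nlinarith
  have hm : ‖(‖u + v‖⁻¹ • (u + v) : E3)‖ = 1 := by
    rw [norm_smul, norm_inv, norm_norm, inv_mul_cancel₀ hpos.ne']
  have hs3 : Real.sqrt 3 ^ 2 = 3 := Real.sq_sqrt (by norm_num)
  have hkey : Real.sqrt 3 / 2 < ‖u + v‖⁻¹ * (1 + inner ℝ u v) := by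
    rw [inv_mul_eq_div, lt_div_iff₀ hpos]
    have h1 : 1 + inner ℝ u v = ‖u + v‖ ^ 2 / 2 := by rw [huv]; ring
    rw [h1]
    have h3 : Real.sqrt 3 < ‖u + v‖ := by
      rw [Real.sqrt_lt' hpos, huv]; linarith
    nlinarith
  have m1 : ‖u + v‖⁻¹ • (u + v) ∈ cap u (Real.pi / 6) := by
    rw [mem_cap_six_iff u _ hu]
    refine ⟨hm, ?_⟩
    rw [inner_smul_right, inner_add_right, real_inner_self_eq_norm_sq, hu]
    norm_num
    exact hkey
  have m2 : ‖u + v‖⁻¹ • (u + v) ∈ cap v (Real.pi / 6) := by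
    rw [mem_cap_six_iff v _ hv]
    refine ⟨hm, ?_⟩
    rw [inner_smul_right, inner_add_right, real_inner_self_eq_norm_sq, hv, real_inner_comm u v]
    norm_num
    rw [add_comm (inner ℝ u v) 1]
    exact hkey
  exact Set.disjoint_left.mp hd m1 m2

theorem main_aux (T : Finset E3) (hT : ∀ u ∈ T, ‖u‖ = 1)
    (hd : (↑T : Set E3).PairwiseDisjoint (fun u => cap u (Real.pi / 6))) :
    (∑ u ∈ T, (μH[2] (cap u (Real.pi / 6))).toReal)
      / (μH[2] (⋃ u ∈ T, cap u (Real.pi / 3))).toReal ≤ 6 * (1 - Real.sqrt 3 / 2) := by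
  have hsep : ∀ x ∈ T, ∀ y ∈ T, x ≠ y → inner ℝ x y ≤ (1 / 2 : ℝ) := by
    intro x hx y hy hne
    exact sep_of_disjoint x y (hT x hx) (hT y hy) (hd hx hy hne)
  have hs0 : 0 < Real.sqrt 3 := by positivity
  have hs3 : Real.sqrt 3 ^ 2 = 3 := Real.sq_sqrt (by norm_num)
  have hs2 : Real.sqrt 3 < 2 := by nlinarith
  have hR : 0 ≤ 6 * (1 - Real.sqrt 3 / 2) := by linarith
  by_cases htop : μH[2] {x : E3 | ‖x‖ = 1} = ⊤
  · have : ∑ u ∈ T, (μH[2] (cap u (Real.pi / 6))).toReal = 0 := by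
      apply Finset.sum_eq_zero
      intro u hu
      rw [cap_top htop u (hT u hu)]; rfl
    rw [this, zero_div]
    exact hR
  set μ : Measure E3 := (μH[2] : Measure E3).restrict {x : E3 | ‖x‖ = 1} with hμdef
  have hfin : IsFiniteMeasure μ := ⟨by
    rw [hμdef, Measure.restrict_apply_univ]
    exact lt_top_iff_ne_top.mpr htop⟩
  have hμ : InvSphere μ := inv_haus
  have hcap : ∀ u r, μH[2] (cap u r) = μ (cap u r) := fun u r => (haus_restrict_cap u r).symm
  have hun : μH[2] (⋃ u ∈ T, cap u (Real.pi / 3)) = μ (⋃ u ∈ T, cap u (Real.pi / 3)) := by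
    rw [hμdef, Measure.restrict_apply (measurableSet_union T _)]
    congr 1
    ext x
    simp only [Set.mem_inter_iff, Set.mem_iUnion, Set.mem_ofPred_eq]
    constructor
    · rintro ⟨u, hu, hx⟩
      exact ⟨⟨u, hu, hx⟩, hx.1⟩
    · rintro ⟨h, _⟩
      exact h
  rw [hun]
  simp_rw [hcap]
  have h1 := union_lower μ hμ T hT hsep
  have h2 : ∀ u ∈ T, (μ (cap u (Real.pi / 6))).toReal
      ≤ (1 - Real.sqrt 3 / 2) / 2 * (μ Set.univ).toReal := by
    intro u hu
    have h := inv_cap_le μ hμ u (hT u hu)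
    have h' := ENNReal.toReal_mono (ENNReal.mul_ne_top ENNReal.ofReal_ne_top (measure_ne_top μ _)) h
    rwa [ENNReal.toReal_mul, ENNReal.toReal_ofReal (by linarith)] at h'
  have h1' : (T.card : ℝ) * (μ Set.univ).toReal
      ≤ 12 * (μ (⋃ u ∈ T, cap u (Real.pi / 3))).toReal := by
    have h' := ENNReal.toReal_mono (ENNReal.mul_ne_top (by norm_num) (measure_ne_top μ _)) h1
    rw [ENNReal.toReal_mul, ENNReal.toReal_mul] at h'
    simpa using h'
  have hsum : ∑ u ∈ T, (μ (cap u (Real.pi / 6))).toReal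
      ≤ (T.card : ℝ) * ((1 - Real.sqrt 3 / 2) / 2 * (μ Set.univ).toReal) := by
    calc _ ≤ ∑ u ∈ T, (1 - Real.sqrt 3 / 2) / 2 * (μ Set.univ).toReal := Finset.sum_le_sum h2
      _ = _ := by rw [Finset.sum_const, nsmul_eq_mul]
  have hle : ∑ u ∈ T, (μ (cap u (Real.pi / 6))).toReal
      ≤ 6 * (1 - Real.sqrt 3 / 2) * (μ (⋃ u ∈ T, cap u (Real.pi / 3))).toReal := by
    have : (T.card : ℝ) * ((1 - Real.sqrt 3 / 2) / 2 * (μ Set.univ).toReal)
        = (1 - Real.sqrt 3 / 2) / 2 * ((T.card : ℝ) * (μ Set.univ).toReal) := by ring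
    rw [this] at hsum
    have h3 : (1 - Real.sqrt 3 / 2) / 2 * ((T.card : ℝ) * (μ Set.univ).toReal)
        ≤ (1 - Real.sqrt 3 / 2) / 2 * (12 * (μ (⋃ u ∈ T, cap u (Real.pi / 3))).toReal) :=
      mul_le_mul_of_nonneg_left h1' (by linarith)
    linarith
  rcases eq_or_lt_of_le (ENNReal.toReal_nonneg (a := μ (⋃ u ∈ T, cap u (Real.pi / 3)))) with h | h
  · rw [← h, div_zero]; exact hR
  · rw [div_le_iff₀ h]; exact hle

/-- For finitely many unit vectors in 3-space whose open spherical caps of angular radius π/6 are pairwise disjoint, the total area of these caps divided by the area of the union of the radius-π/3 caps is at most 6(1-√3/2). -/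
theorem result :
    ∀ T : Finset (EuclideanSpace ℝ (Fin 3)),
      (∀ u ∈ T, ‖u‖ = 1) →
      (↑T : Set (EuclideanSpace ℝ (Fin 3))).PairwiseDisjoint
        (fun u => {x : EuclideanSpace ℝ (Fin 3) |
          ‖x‖ = 1 ∧ InnerProductGeometry.angle u x < Real.pi / 6}) →
      (∑ u ∈ T, (μH[2] {x : EuclideanSpace ℝ (Fin 3) |
          ‖x‖ = 1 ∧ InnerProductGeometry.angle u x < Real.pi / 6}).toReal)
        / (μH[2] (⋃ u ∈ T, {x : EuclideanSpace ℝ (Fin 3) |
          ‖x‖ = 1 ∧ InnerProductGeometry.angle u x < Real.pi / 3})).toReal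
        ≤ 6 * (1 - Real.sqrt 3 / 2) := by
  intro T hT hd
  exact main_aux T hT hd

end Pool.Agent.S11135
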