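import Pool.Statements.S11319
import Pool.Agent.Lib_helper64.Main
import Pool.Agent.Lib_helper64.Final

set_option autoImplicit false
open Pool Pool.MP_c55dc1_co

namespace Pool.Agent.S11319

/-- If no set of non-T vertices has a finite odd edge boundary, there are edge-disjoint T-paths such that, for each t in T, one edge picked from each path ending at t forms exactly a cut separating t from the rest of T. -/
theorem result :
  ∀ (V : Type) (G : SimpleGraph V) (T : Set V),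
    (∀ X : Set V, X ⊆ Tᶜ →
      ({e : Sym2 V | e ∈ G.edgeSet ∧ (∃ x : V, x ∈ e ∧ x ∈ X) ∧ (∃ y : V, y ∈ e ∧ y ∉ X)}).Finite →
      Even (Set.ncard {e : Sym2 V | e ∈ G.edgeSet ∧ (∃ x : V, x ∈ e ∧ x ∈ X) ∧ (∃ y : V, y ∈ e ∧ y ∉ X)})) →
    ∃ (ι : Type) (a : ι → V) (b : ι → V) (p : (i : ι) → G.Walk (a i) (b i)),
      (∀ i : ι, (p i).IsPath ∧ a i ∈ T ∧ b i ∈ T ∧ a i ≠ b i ∧
        ∀ v : V, v ∈ (p i).support → v ∈ T → v = a i ∨ v = b i) ∧
      (∀ i j : ι, i ≠ j → ∀ e : Sym2 V, e ∈ (p i).edges → e ∉ (p j).edges) ∧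
      ∀ t : V, t ∈ T → ∃ f : ι → Sym2 V,
        (∀ i : ι, (a i = t ∨ b i = t) → f i ∈ (p i).edges) ∧
        ∃ X : Set V, t ∈ X ∧ (∀ u : V, u ∈ T → u ≠ t → u ∉ X) ∧
          {e : Sym2 V | ∃ i : ι, (a i = t ∨ b i = t) ∧ f i = e} =
            {e : Sym2 V | e ∈ G.edgeSet ∧ (∃ x : V, x ∈ e ∧ x ∈ X) ∧ (∃ y : V, y ∈ e ∧ y ∉ X)} := by
  exact Pool.Agent.LC.final_assembly_of
    (fun _ _ _ G A c => Pool.Agent.LC.exists_max G A c)
    (fun _ _ _ G A c hA hL => Pool.Agent.LC.main_thm G A c hA hL)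

end Pool.Agent.S11319
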