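import Pool.Statements.S11842
-- import your own Pool.Agent.* helpers here

set_option autoImplicit false
open Pool Pool.MP_dc0d0a_co

/-!
Counterexample on seven vertices. The graph is `K_7` minus the three disjoint edges 01, 23, 45, and
the prescribed entries are the rational numbers in `A` below. With `s` the square root of two, the
matrix `X s` (free entries `2/3 - 2s/9`, `1/7 - s/7`, `1 - s`) is a sum of five squares, hence a psd
completion. The matrix `Z = (2s - 2) U U^T + V V^T` is psd and vanishes at the three free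
positions, and `Z` is orthogonal to every completion `Y`, because its inner product with `Y`
only involves prescribed entries. So `Y U = 0` for every completion `Y`, whose row 5 gives
`Y_45 = 1 - s`, an irrational number. In fact the completion is unique.
-/

namespace Pool.Agent.S11842

/-- The complete graph on seven vertices minus the three edges 01, 23, 45
(the octahedron together with a universal vertex). -/
def G : SimpleGraph (Fin 7) where
  Adj i j := i.val / 2 ≠ j.val / 2
  symm := ⟨fun _ _ h => h.symm⟩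
  loopless := ⟨fun _ h => h rfl⟩

/-- The rational partial matrix: only the entries on edges of `G` matter. -/
def A : Fin 7 → Fin 7 → ℚ :=
  ![![1, 0, 0, 2/3, -2/3, 2/3, 1/3],
    ![0, 1, -1/3, 5/7, -1/3, -1/3, 2/3],
    ![0, -1/3, 1, 0, 0, 0, 0],
    ![2/3, 5/7, 0, 1, -1/7, 1/7, 6/7],
    ![-2/3, -1/3, 0, -1/7, 1, 0, 0],
    ![2/3, -1/3, 0, 1/7, 0, 1, 0],
    ![1/3, 2/3, 0, 6/7, 0, 0, 1]]

/-- A general symmetric real matrix of the prescribed shape, with the three free entries
`x` (position 01), `y` (position 23), `z` (position 45). -/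
noncomputable def M (x y z : ℝ) : Matrix (Fin 7) (Fin 7) ℝ :=
  !![1, x, 0, 2/3, -2/3, 2/3, 1/3;
    x, 1, -1/3, 5/7, -1/3, -1/3, 2/3;
    0, -1/3, 1, y, 0, 0, 0;
    2/3, 5/7, y, 1, -1/7, 1/7, 6/7;
    -2/3, -1/3, 0, -1/7, 1, z, 0;
    2/3, -1/3, 0, 1/7, z, 1, 0;
    1/3, 2/3, 0, 6/7, 0, 0, 1]

/-- The real completion, with `s` standing for the square root of two. -/
noncomputable def X (s : ℝ) : Matrix (Fin 7) (Fin 7) ℝ :=
  M (2/3 - 2/9 * s) (1/7 - 1/7 * s) (1 - s)

/-- First dual vector. -/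
noncomputable def U (s : ℝ) : Fin 7 → ℝ :=
  ![3/2, 3 - 3/2 * s, 3 - 2 * s, -7 + 7/2 * s, 1, 0, 7/2 - 2 * s]

/-- Second dual vector. -/
noncomputable def V (s : ℝ) : Fin 7 → ℝ :=
  ![3 - 3 * s, 3 - 3/2 * s, 6 - 4 * s, -14 + 21/2 * s, 0, 1, 9 - 7 * s]

theorem X_quad (s : ℝ) (hs : s ^ 2 = 2) (v : Fin 7 → ℝ) :
    v ⬝ᵥ (X s).mulVec v =
      (v 6 + 1/3 * v 0 + 2/3 * v 1 + 6/7 * v 3) ^ 2
      + (-(1/3 * v 1) + v 2 + (1 - s) * (1/7 * v 3)) ^ 2
      + (-(2/3 * v 0) - 1/3 * v 1 - 1/7 * v 3 + v 4 + (1 - s) * v 5) ^ 2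
      + (2/3 * v 0 + (1 - s) * (1/3 * v 1) + 3 * (1/7 * v 3) + (2 - s) * v 5) ^ 2
      + 2 * s * (1/3 * v 1 + 1/7 * v 3 + (1 - s) * v 5) ^ 2 := by
  simp only [X, M, dotProduct, Matrix.mulVec, Fin.sum_univ_seven, Matrix.of_apply,
    Matrix.cons_val]
  linear_combination (-1/9 * v 1 ^ 2 + 2/3 * v 1 * v 5 - 1/49 * v 3 ^ 2 + 4/7 * v 3 * v 5
    + (2 - 2 * s) * v 5 ^ 2) * hs

theorem dual_zero (s : ℝ) (hs : s ^ 2 = 2) (x y z : ℝ) :
    (2 * s - 2) * (U s ⬝ᵥ (M x y z).mulVec (U s)) + V s ⬝ᵥ (M x y z).mulVec (V s) = 0 := by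
  simp only [M, U, V, dotProduct, Matrix.mulVec, Fin.sum_univ_seven, Matrix.of_apply,
    Matrix.cons_val]
  linear_combination (-14 + 10 * s + (42 - 28 * s) * y) * hs

theorem M_symm (x y z : ℝ) : (M x y z).IsHermitian := by
  ext i j
  fin_cases i <;> fin_cases j <;> simp [M]

theorem X_psd (s : ℝ) (hs : s ^ 2 = 2) (h0 : 0 ≤ s) : (X s).PosSemidef := by
  refine Matrix.PosSemidef.of_dotProduct_mulVec_nonneg (M_symm _ _ _) fun v => ?_
  rw [star_trivial, X_quad s hs v]
  positivity

/-- Any psd matrix of the prescribed shape has entry `1 - s` in position 45. -/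
theorem entry_eq (s : ℝ) (hs : s ^ 2 = 2) (h1 : 1 < s) (x y z : ℝ)
    (h : (M x y z).PosSemidef) : z = 1 - s := by
  have hU := h.dotProduct_mulVec_nonneg (U s)
  have hV := h.dotProduct_mulVec_nonneg (V s)
  rw [star_trivial] at hU hV
  have hz := dual_zero s hs x y z
  have hU0 : U s ⬝ᵥ (M x y z).mulVec (U s) = 0 := by
    have : 0 ≤ (2 * s - 2) * (U s ⬝ᵥ (M x y z).mulVec (U s)) :=
      mul_nonneg (by linarith) hU
    have h2 : (2 * s - 2) * (U s ⬝ᵥ (M x y z).mulVec (U s)) = 0 := by linarith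
    rcases mul_eq_zero.mp h2 with h3 | h3
    · linarith
    · exact h3
  have hker : (M x y z).mulVec (U s) = 0 := by
    have := (h.dotProduct_mulVec_zero_iff (U s)).mp (by rw [star_trivial]; exact hU0)
    exact this
  have h5 := congrFun hker 5
  simp only [M, U, dotProduct, Matrix.mulVec, Fin.sum_univ_seven, Matrix.of_apply,
    Matrix.cons_val, Pi.zero_apply] at h5
  linarith

/-- The negation of the preceding statement: For every finite graph and rational edge values, if some real positive semidefinite matrix with ones on the diagonal matches the values on edges, then some rational such positive semidefinite matrix also matches them. -/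
theorem result :
    ¬ (∀ (n : ℕ) (G : SimpleGraph (Fin n)) (x : Fin n → Fin n → ℚ),
      (∃ X : Matrix (Fin n) (Fin n) ℝ, X.PosSemidef ∧ (∀ i, X i i = 1) ∧
          ∀ i j, G.Adj i j → X i j = (x i j : ℝ)) →
      ∃ Y : Matrix (Fin n) (Fin n) ℚ,
        (Y.map (fun q : ℚ => (q : ℝ))).PosSemidef ∧ (∀ i, Y i i = 1) ∧
          ∀ i j, G.Adj i j → Y i j = x i j) := by
  intro hmain
  have hs : (Real.sqrt 2) ^ 2 = 2 := Real.sq_sqrt (by norm_num)
  have hs0 : 0 ≤ Real.sqrt 2 := Real.sqrt_nonneg 2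
  have hs1 : 1 < Real.sqrt 2 := by
    rw [Real.lt_sqrt (by norm_num)]; norm_num
  obtain ⟨Y, hY, hd, he⟩ := hmain 7 G A ⟨X (Real.sqrt 2), X_psd _ hs hs0, by
    intro i
    fin_cases i <;> simp [X, M], by
    intro i j hij
    fin_cases i <;> fin_cases j <;> simp [G] at hij <;> simp [X, M, A]⟩
  have hsym : ∀ i j, Y i j = Y j i := by
    intro i j
    have := hY.1.apply j i
    simpa using this
  have hshape : Y.map (fun q : ℚ => (q : ℝ)) = M (Y 0 1) (Y 2 3) (Y 4 5) := by
    ext i j
    have hb : ∀ i j : Fin 7, (Y i j : ℝ) = M (Y 0 1) (Y 2 3) (Y 4 5) i j := by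
      intro i j
      by_cases hij : G.Adj i j
      · rw [he i j hij]
        fin_cases i <;> fin_cases j <;> simp [G] at hij <;> simp [M, A]
      · by_cases hd' : i = j
        · subst hd'
          rw [hd i]
          fin_cases i <;> simp [M]
        · fin_cases i <;> fin_cases j <;> first
            | exact absurd rfl hd'
            | (exfalso; apply hij; simp [G]; done)
            | (simp [M]; done)
            | (simpa [M] using hsym _ _)
    simpa using hb i j
  rw [hshape] at hY
  have hz := entry_eq _ hs hs1 _ _ _ hY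
  have : Irrational (Real.sqrt 2) := irrational_sqrt_two
  apply this
  refine ⟨1 - Y 4 5, ?_⟩
  push_cast
  linarith

end Pool.Agent.S11842
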