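import Pool.Statements.S11995
import Pool.Agent.Lib_helper79.Final
import Pool.Agent.Lib_helper79.Minor
import Pool.Agent.Lib_helper79.Slender

set_option autoImplicit false
open Pool Pool.MP_e19d8e_co

namespace Pool.Agent.S11995

open Cardinal Pool.Agent.Lib_helper79

/-- Main theorem: a graph whose automorphism group is free abelian of large rank has large
linked sets of vertices. -/
theorem exists_linked (μ ρ τ : Cardinal.{0}) (hc : Cards μ ρ τ) (I : Type) (hI : τ < #I)
    (V : Type) (X : SimpleGraph V) (e : Multiplicative (I →₀ ℤ) ≃* (X ≃g X)) :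
    ∃ U : Set V, (∀ x ∈ U, ∀ y ∈ U, Lk X μ x y) ∧ μ < #U := by
  classical
  by_contra hcon
  push Not at hcon
  have hNM : NM X μ := hcon
  let _ : MulAction (Multiplicative (I →₀ ℤ)) V :=
    { smul := fun g x => e g x
      one_smul := fun x => by
        show e 1 x = x
        rw [map_one]; rfl
      mul_smul := fun a b x => by
        show e (a * b) x = e a (e b x)
        rw [map_mul]; rfl }
  have hsm : ∀ (g : Multiplicative (I →₀ ℤ)) (x : V), g • x = e g x := fun _ _ => rfl
  have hfaith : ∀ g : Multiplicative (I →₀ ℤ), (∀ x : V, g • x = x) → g = 1 := by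
    intro g hg
    apply e.injective
    rw [map_one]
    ext x
    exact hg x
  have hE : Exact X (Multiplicative (I →₀ ℤ)) :=
    { adj := fun g x y hxy => by
        rw [hsm, hsm]
        exact (e g).map_adj_iff.mpr hxy
      ex := fun f => ⟨e.symm f, fun x => by
        rw [hsm, MulEquiv.apply_symm_apply]⟩
      tf := fun g hg => by
        have h1 : g * g = 1 := hfaith _ (fun x => by rw [mul_smul]; exact hg x)
        have h2 : g = 1 := by
          have h3 : Multiplicative.toAdd g + Multiplicative.toAdd g = 0 := h1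
          have h4 : Multiplicative.toAdd g = 0 := by
            ext i
            have h5 := congrArg (fun f : I →₀ ℤ => f i) h3
            simp only [Finsupp.add_apply, Finsupp.zero_apply] at h5
            rw [Finsupp.zero_apply]
            omega
          exact h4
        intro x
        rw [h2, one_smul] }
  have hsl : ∀ φ : Multiplicative (ℕ → ℤ) →* Multiplicative (I →₀ ℤ),
      ¬ ∀ n : ℕ, φ (Multiplicative.ofAdd (Pi.single n 1)) ≠ 1 := by
    intro φ hφ
    exact slender (AddMonoidHom.toMultiplicative.symm φ) (fun n hn => hφ n hn)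
  have hle := card_group_le hE hfaith hsl hc hNM
  have hge : #I ≤ #(Multiplicative (I →₀ ℤ)) := by
    apply Cardinal.mk_le_of_injective (f := fun i : I =>
      Multiplicative.ofAdd (Finsupp.single i (1 : ℤ)))
    intro i j hij
    have h : Finsupp.single i (1 : ℤ) = Finsupp.single j 1 := Multiplicative.ofAdd.injective hij
    exact Finsupp.single_left_injective one_ne_zero h
  exact absurd (hge.trans hle) (not_le.mpr hI)

/-- If a class of graphs is closed under taking subgraphs of contractions (connected fibres), and every group is the automorphism group of some member, then the class contains every graph. -/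
theorem result :
    ∀ (C : ∀ (V : Type), SimpleGraph V → Prop),
      (∀ (V : Type) (X : SimpleGraph V), C V X →
        ∀ (U : Type) (Y : SimpleGraph U),
          (∃ (W : Type) (Z : SimpleGraph W) (f : V → W),
            (∀ a b : W, Z.Adj a b ↔ (a ≠ b ∧ ∃ x y : V, X.Adj x y ∧ f x = a ∧ f y = b)) ∧
            (∀ w : W, (X.induce (f ⁻¹' {w})).Connected) ∧
            ∃ g : U → W, Function.Injective g ∧ ∀ a b : U, Y.Adj a b → Z.Adj (g a) (g b)) →
          C U Y) →
      (∀ (G : Type) [Group G], ∃ (V : Type) (X : SimpleGraph V), C V X ∧ Nonempty (G ≃* (X ≃g X))) →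
      ∀ (V : Type) (X : SimpleGraph V), C V X := by
  classical
  intro C hclosed huniv V0 Y
  -- cardinals
  let μ : Cardinal.{0} := #(V0 ⊕ ℕ)
  have hμ : ℵ₀ ≤ μ := by
    show ℵ₀ ≤ #(V0 ⊕ ℕ)
    rw [Cardinal.mk_sum]
    simp
  have hV0 : #V0 ≤ μ := Cardinal.mk_le_of_injective (f := (Sum.inl : V0 → V0 ⊕ ℕ)) Sum.inl_injective
  let ρ : Cardinal.{0} := 2 ^ μ
  let τ : Cardinal.{0} := 2 ^ ρ
  have hμρ : μ ≤ ρ := (Cardinal.cantor μ).le
  have hρτ : ρ < τ := Cardinal.cantor ρ
  have hρa : ℵ₀ ≤ ρ := hμ.trans hμρ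
  have hcards : Cards μ ρ τ :=
    { hμ := hμ
      hμρ := hμρ
      hρτ := hρτ
      hρ := by
        show (2 ^ μ : Cardinal.{0}) ^ μ = 2 ^ μ
        rw [← Cardinal.power_mul, Cardinal.mul_eq_self hμ]
      hτ := by
        show (2 ^ ρ : Cardinal.{0}) ^ ρ = 2 ^ ρ
        rw [← Cardinal.power_mul, Cardinal.mul_eq_self hρa] }
  let I : Type := Set (Set (Set (V0 ⊕ ℕ)))
  have hI : τ < #I := by
    show (2 ^ (2 ^ μ) : Cardinal.{0}) < #(Set (Set (Set (V0 ⊕ ℕ))))
    rw [Cardinal.mk_set, Cardinal.mk_set, Cardinal.mk_set]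
    exact Cardinal.cantor _
  obtain ⟨V, X, hX, ⟨e⟩⟩ := huniv (Multiplicative (I →₀ ℤ))
  obtain ⟨U, hU, hUc⟩ := exists_linked μ ρ τ hcards I hI V X e
  obtain ⟨B, hBne, hBconn, hBdisj, hBadj⟩ := exists_minor hμ U hU hUc V0 hV0
  -- the contraction
  let idx : V → V0 ⊕ V := fun v => if h : ∃ t, v ∈ B t then Sum.inl h.choose else Sum.inr v
  have hidx1 : ∀ t, ∀ v ∈ B t, idx v = Sum.inl t := by
    intro t v hv
    have h : ∃ t, v ∈ B t := ⟨t, hv⟩
    have h1 : idx v = Sum.inl h.choose := dif_pos h
    rw [h1]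
    congr 1
    by_contra hne
    exact Set.disjoint_left.mp (hBdisj _ _ hne) h.choose_spec hv
  have hidx2 : ∀ v, (∀ t, v ∉ B t) → idx v = Sum.inr v := by
    intro v hv
    exact dif_neg (fun ⟨t, ht⟩ => hv t ht)
  let W : Type := Set.range idx
  let f : V → W := fun v => ⟨idx v, v, rfl⟩
  have hff : ∀ x y, f x = f y ↔ idx x = idx y := fun x y => Subtype.ext_iff
  let Z : SimpleGraph W :=
    { Adj := fun a b => a ≠ b ∧ ∃ x y : V, X.Adj x y ∧ f x = a ∧ f y = b
      symm := ⟨fun a b ⟨hne, x, y, hxy, hx, hy⟩ => ⟨hne.symm, y, x, hxy.symm, hy, hx⟩⟩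
      loopless := ⟨fun a h => h.1 rfl⟩ }
  apply hclosed V X hX V0 Y
  refine ⟨W, Z, f, fun a b => Iff.rfl, ?_, ?_⟩
  · rintro ⟨w, v, rfl⟩
    -- fibre of `f v`
    have hne : Nonempty (f ⁻¹' {(⟨idx v, v, rfl⟩ : W)}) := ⟨⟨v, rfl⟩⟩
    rw [SimpleGraph.connected_iff]
    refine ⟨?_, hne⟩
    rintro ⟨x, hx⟩ ⟨y, hy⟩
    have hx' : idx x = idx v := (hff x v).mp hx
    have hy' : idx y = idx v := (hff y v).mp hy
    by_cases hv : ∃ t, v ∈ B t
    · obtain ⟨t, ht⟩ := hv
      have hBt : ∀ z, idx z = idx v → z ∈ B t := by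
        intro z hz
        rw [hidx1 t v ht] at hz
        by_cases hz2 : ∃ s, z ∈ B s
        · obtain ⟨s, hs⟩ := hz2
          rw [hidx1 s z hs] at hz
          rw [← Sum.inl_injective hz]; exact hs
        · push Not at hz2
          rw [hidx2 z hz2] at hz
          exact absurd hz (by simp)
      have hfib : ∀ z, z ∈ B t → z ∈ f ⁻¹' {(⟨idx v, v, rfl⟩ : W)} := by
        intro z hz
        show f z = f v
        rw [hff, hidx1 t z hz, hidx1 t v ht]
      have hr := hBconn t x (hBt x hx') y (hBt y hy')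
      have key : ∀ z, Rch X (B t) x z → ∀ hz : z ∈ f ⁻¹' {(⟨idx v, v, rfl⟩ : W)},
          (X.induce (f ⁻¹' {(⟨idx v, v, rfl⟩ : W)})).Reachable ⟨x, hx⟩ ⟨z, hz⟩ := by
        intro z hz
        induction hz with
        | refl => intro _; exact SimpleGraph.Reachable.refl _
        | @tail b c hab hbc ih =>
          intro hcz
          refine (ih (hfib b hbc.2.1)).trans (SimpleGraph.Adj.reachable ?_)
          exact hbc.1
      exact key y hr hy
    · push Not at hv
      have hsing : ∀ z, idx z = idx v → z = v := by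
        intro z hz
        rw [hidx2 v hv] at hz
        by_cases hz2 : ∃ s, z ∈ B s
        · obtain ⟨s, hs⟩ := hz2
          rw [hidx1 s z hs] at hz
          exact absurd hz (by simp)
        · push Not at hz2
          rw [hidx2 z hz2] at hz
          exact Sum.inr_injective hz
      have hxv := hsing x hx'
      have hyv := hsing y hy'
      subst hxv
      subst hyv
      exact SimpleGraph.Reachable.refl _
  · choose b hb using hBne
    refine ⟨fun t => f (b t), ?_, ?_⟩
    · intro s t hst
      have h1 : idx (b s) = idx (b t) := (hff _ _).mp hst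
      rw [hidx1 s _ (hb s), hidx1 t _ (hb t)] at h1
      exact Sum.inl_injective h1
    · intro s t hst
      have hne : s ≠ t := hst.ne
      obtain ⟨x, hx, y, hy, hxy⟩ := hBadj s t hne
      refine ⟨?_, x, y, hxy, ?_, ?_⟩
      · intro h
        have h1 : idx (b s) = idx (b t) := (hff _ _).mp h
        rw [hidx1 s _ (hb s), hidx1 t _ (hb t)] at h1
        exact hne (Sum.inl_injective h1)
      · rw [hff, hidx1 s _ (hb s), hidx1 s _ hx]
      · rw [hff, hidx1 t _ (hb t), hidx1 t _ hy]

end Pool.Agent.S11995
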