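import Pool.Statements.S12621
import Pool.Agent.Lib_helper58.Final

set_option autoImplicit false
open MeasureTheory
open Pool Pool.MP_fe0060_co

namespace Pool.Agent.S12621

/-- There is a finite constant c > 0 such that every Lebesgue-measurable subset of the plane with area at least c contains three points forming a triangle of area exactly 1. -/
theorem result :
    ∃ c : ℝ, 0 < c ∧ ∀ A : Set (ℝ × ℝ), NullMeasurableSet A volume →
      ENNReal.ofReal c ≤ volume A →
      ∃ p ∈ A, ∃ q ∈ A, ∃ r ∈ A,
        |(q.1 - p.1) * (r.2 - p.2) - (r.1 - p.1) * (q.2 - p.2)| = 2 :=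
  Pool.Agent.H58.erdos352

end Pool.Agent.S12621
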