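import Pool.Statements.S13847
import Pool.Agent.Lib_helper40.SurfaceFinite

set_option autoImplicit false
open Pool Pool.MP_be71bd_gt

namespace Pool.Agent.S13847

open Set Filter Topology MeasureTheory Pool.Agent.Lib_helper40

/-- The gauge of a compact convex neighbourhood of the origin. -/
theorem isGauge_gauge {K : Set E3} (hK : Convex ℝ K) (hKc : IsCompact K) (h0 : K ∈ 𝓝 (0 : E3)) :
    IsGauge (gauge K) := by
  have habs : Absorbent ℝ K := absorbent_nhds_zero h0
  refine ⟨⟨convex_univ, ?_⟩, ?_, ?_, ?_⟩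
  · intro x _ y _ a b ha hb _
    calc gauge K (a • x + b • y) ≤ gauge K (a • x) + gauge K (b • y) :=
          gauge_add_le hK habs _ _
      _ = a • gauge K x + b • gauge K y := by
          rw [gauge_smul_of_nonneg ha, gauge_smul_of_nonneg hb]
  · intro t ht y
    rw [gauge_smul_of_nonneg ht]; rfl
  · intro y hy
    exact (gauge_pos habs (NormedSpace.isVonNBounded_of_isBounded ℝ hKc.isBounded)).2 hy
  · exact hK.lipschitz_gauge h0

/-- If K is a compact convex set in 3-space, x is interior, and every plane through x splits the boundary of K into two parts of equal 2-dimensional Hausdorff measure, then K is symmetric about x (y in K implies 2x − y in K). -/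
theorem result :
    ∀ (K : Set (EuclideanSpace ℝ (Fin 3))) (x : EuclideanSpace ℝ (Fin 3)),
      Convex ℝ K → IsCompact K → x ∈ interior K →
      (∀ v : EuclideanSpace ℝ (Fin 3), v ≠ 0 →
        MeasureTheory.Measure.hausdorffMeasure 2
            {y | y ∈ frontier K ∧ 0 < inner ℝ (y - x) v} =
          MeasureTheory.Measure.hausdorffMeasure 2
            {y | y ∈ frontier K ∧ inner ℝ (y - x) v < 0}) →
      ∀ y ∈ K, (2 : ℝ) • x - y ∈ K := by
  intro K x hK hKc hx hbal y hy
  -- translate to the origin
  set τ : E3 ≃ᵢ E3 := IsometryEquiv.addRight x with hτ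
  have hτa : ∀ z, τ z = z + x := fun z => rfl
  set K₀ : Set E3 := τ ⁻¹' K with hK₀
  have hmem : ∀ z, z ∈ K₀ ↔ z + x ∈ K := fun z => Iff.rfl
  have hconv : Convex ℝ K₀ := by
    intro u hu v hv a b ha hb hab
    rw [hmem] at hu hv ⊢
    have := hK hu hv ha hb hab
    have e : a • (u + x) + b • (v + x) = a • u + b • v + (a + b) • x := by module
    rw [e, hab, one_smul] at this
    exact this
  have hcomp : IsCompact K₀ := by
    have : K₀ = τ.symm '' K := by
      rw [hK₀]
      exact (τ.toEquiv.image_symm_eq_preimage K).symm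
    rw [this]
    exact hKc.image τ.symm.continuous
  have hfront : frontier K₀ = τ ⁻¹' frontier K := by
    rw [hK₀]
    exact (τ.toHomeomorph.preimage_frontier K).symm
  have hnhds : K₀ ∈ 𝓝 (0 : E3) := by
    have h1 : K ∈ 𝓝 (τ 0) := by
      rw [hτa, zero_add]
      exact mem_interior_iff_mem_nhds.1 hx
    exact τ.continuous.continuousAt.preimage_mem_nhds h1
  have hG := isGauge_gauge hconv hcomp hnhds
  have hfr : ∀ z, gauge K₀ z = 1 ↔ z ∈ frontier K₀ := fun z =>
    gauge_eq_one_iff_mem_frontier hconv hnhds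
  have hb : ∀ v : E3, μH[2] {z : E3 | gauge K₀ z = 1 ∧ 0 < inner ℝ z v} =
      μH[2] {z : E3 | gauge K₀ z = 1 ∧ inner ℝ z v < 0} := by
    intro v
    by_cases hv : v = 0
    · subst hv
      simp
    have e1 : τ '' {z : E3 | gauge K₀ z = 1 ∧ 0 < inner ℝ z v} =
        {y | y ∈ frontier K ∧ 0 < inner ℝ (y - x) v} := by
      ext w
      constructor
      · rintro ⟨z, ⟨h1, h2⟩, rfl⟩
        rw [hfr, hfront] at h1
        refine ⟨h1, ?_⟩
        rw [hτa, add_sub_cancel_right]
        exact h2
      · rintro ⟨h1, h2⟩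
        refine ⟨w - x, ⟨?_, h2⟩, ?_⟩
        · rw [hfr, hfront, mem_preimage, hτa, sub_add_cancel]
          exact h1
        · rw [hτa, sub_add_cancel]
    have e2 : τ '' {z : E3 | gauge K₀ z = 1 ∧ inner ℝ z v < 0} =
        {y | y ∈ frontier K ∧ inner ℝ (y - x) v < 0} := by
      ext w
      constructor
      · rintro ⟨z, ⟨h1, h2⟩, rfl⟩
        rw [hfr, hfront] at h1
        refine ⟨h1, ?_⟩
        rw [hτa, add_sub_cancel_right]
        exact h2
      · rintro ⟨h1, h2⟩
        refine ⟨w - x, ⟨?_, h2⟩, ?_⟩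
        · rw [hfr, hfront, mem_preimage, hτa, sub_add_cancel]
          exact h1
        · rw [hτa, sub_add_cancel]
    have h := hbal v hv
    rw [← e1, ← e2, IsometryEquiv.hausdorffMeasure_image,
      IsometryEquiv.hausdorffMeasure_image] at h
    exact h
  have heven := gauge_even hG hb (y - x)
  have hy0 : y - x ∈ K₀ := by rw [hmem, sub_add_cancel]; exact hy
  have h1 : gauge K₀ (y - x) ≤ 1 := gauge_le_one_of_mem hy0
  have h2 : gauge K₀ (-(y - x)) ≤ 1 := heven.trans h1
  have h3 : -(y - x) ∈ K₀ := by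
    have := (gauge_le_one_iff_mem_closure hconv hnhds).1 h2
    rwa [hcomp.isClosed.closure_eq] at this
  rw [hmem] at h3
  have e : -(y - x) + x = (2 : ℝ) • x - y := by module
  rwa [e] at h3

end Pool.Agent.S13847
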