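import Pool.Statements.S13874
import Pool.Agent.Lib_helper47.Flip.Assembly
import Pool.Agent.Lib_helper97.Flip.Assemble

set_option autoImplicit false
open Pool Pool.MP_c0c498_gt

namespace Pool.Agent.S13874

/-- The negation of the preceding statement: For every m, the least n admitting a continuous f: C^m→R^n, even, sign-flipping under z↦iz, nonzero off 0, equals the least n admitting n real quadratic forms on C^m, each flipping sign under z↦iz, with no common nonzero zero. -/
theorem result :
    ¬ (∀ m : ℕ,
      sInf {n : ℕ | ∃ f : (Fin m → ℂ) → (Fin n → ℝ), Continuous f ∧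
          (∀ z, f (-z) = f z) ∧ (∀ z, f (Complex.I • z) = - f z) ∧
          ∀ z, z ≠ 0 → f z ≠ 0}
      = sInf {n : ℕ | ∃ q : Fin n → QuadraticForm ℝ (Fin m → ℂ),
          (∀ j z, q j (Complex.I • z) = - q j z) ∧
          ∀ z, z ≠ 0 → ∃ j, q j z ≠ 0}) :=
  Pool.Agent.Lib97.Flip.not_main_of (fun _ hS => Pool.Agent.Flip.not_zeroFree hS)

end Pool.Agent.S13874
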