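-- Frozen statement S13913: the affirmative answer to Q1 of MP_c6464f_gt.
-- Proof: a Lindelof scattered space L has enough closed neighbourhoods with smaller rank for a countable
-- closing off argument; every closed-off set A of functions in K gives a retraction of K and a projection P_A
-- of C(K), and C(K) has countable decompositions into sets of small local norm diameter for the pointwise
-- topology (induction on #A, Pool/Agent/Lib_helper92/SLDMain.lean).  This property gives hereditary weak
-- theta-refinability (Pool/Agent/Lib_helper92/Theta.lean).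
import Pool.Statements.S13913
import Pool.Agent.Lib_helper92.Theta

set_option autoImplicit false
open Pool Pool.MP_c6464f_gt

namespace Pool.Agent.S13913

/-- Let L be a Tychonoff, Lindelöf, scattered space and K a compact subset of C_p(L). Then every subspace Y of C_p(K) is weakly θ-refinable: each open cover has an open refinement split into countably many families, with each point in some family lying in at least one but only finitely many members. -/
theorem result :
  ∀ (L : Type) [TopologicalSpace L] [T35Space L] [LindelofSpace L],
    (∀ S : Set L, S.Nonempty → ∃ x ∈ S, ∃ U : Set L, IsOpen U ∧ U ∩ S = {x}) →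
    ∀ K : Set {f : L → ℝ // Continuous f}, IsCompact K →
    ∀ Y : Set {g : K → ℝ // Continuous g},
    ∀ 𝒰 : Set (Set Y), (∀ U ∈ 𝒰, IsOpen U) → ⋃₀ 𝒰 = Set.univ →
    ∃ 𝒢 : ℕ → Set (Set Y), (∀ n, ∀ G ∈ 𝒢 n, IsOpen G ∧ ∃ U ∈ 𝒰, G ⊆ U) ∧
      ∀ y : Y, ∃ n, (∃ G ∈ 𝒢 n, y ∈ G) ∧ {G ∈ 𝒢 n | y ∈ G}.Finite := by
  intro L _ _ _ hscat K hK Y 𝒰 hU hcov
  have hKc : CompactSpace K := isCompact_iff_compactSpace.mp hK
  have hsld : Lib_helper92.CpK.SLD (Set.univ : Set C(K, ℝ)) := by
    rcases isEmpty_or_nonempty L with hL | hL
    · have hsub : Subsingleton K := ⟨fun a b => Subtype.ext (Subtype.ext (Subsingleton.elim _ _))⟩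
      apply Lib_helper92.CpK.SLD_of_separable
      have : SecondCountableTopology K := inferInstance
      exact TopologicalSpace.isSeparable_univ_iff.mpr inferInstance
    · obtain ⟨S, -⟩ := Lib_helper92.CpK.exists_sys (Q := K) hscat (fun k x => k.1.1 x)
        (continuous_subtype_val.comp continuous_subtype_val)
        (fun a b h => Subtype.ext (Subtype.ext h)) (fun q => q.1.2)
      exact S.sld_univ
  exact Lib_helper92.CpK.refine_of_SLD hsld Y 𝒰 hU hcov

end Pool.Agent.S13913
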