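import Pool.Statements.S13989
import Pool.Agent.Lib_helper93.Omega

set_option autoImplicit false
open Pool Pool.MP_d290f7_gt

namespace Pool.Agent.S13989

/-- There is some n and a connected Hausdorff complex-analytic manifold of complex dimension n (charts in ℂ^n with analytic transition maps) whose topology is not separable. -/
theorem result :
    ∃ (n : ℕ) (M : Type) (_ : TopologicalSpace M)
      (_ : ChartedSpace (EuclideanSpace ℂ (Fin n)) M),
      IsManifold (modelWithCornersSelf ℂ (EuclideanSpace ℂ (Fin n))) (⊤ : WithTop ℕ∞) M ∧
      T2Space M ∧ ConnectedSpace M ∧ ¬ TopologicalSpace.SeparableSpace M := by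
  exact ⟨2, Pool.Agent.Lib_helper93.exists_nonseparable⟩

end Pool.Agent.S13989
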