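import Pool.Statements.S14175
import Pool.Agent.Lib_helper99.Tight

set_option autoImplicit false
open Pool Pool.MP_ed4848_gt

namespace Pool.Agent.S14175

/-- For every index set κ and every compact Hausdorff space K of countable tightness, the image of any continuous map from the product space ℝ^κ into K has a countable network, i.e. is cosmic. -/
theorem result :
    ∀ (κ : Type) (K : Type) [TopologicalSpace K] [CompactSpace K] [T2Space K],
      (∀ (A : Set K) (x : K), x ∈ closure A →
          ∃ C : Set K, C ⊆ A ∧ C.Countable ∧ x ∈ closure C) →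
      ∀ φ : (κ → ℝ) → K, Continuous φ →
        ∃ 𝒩 : Set (Set K), 𝒩.Countable ∧ (∀ N ∈ 𝒩, N ⊆ Set.range φ) ∧
          ∀ x ∈ Set.range φ, ∀ U : Set K, IsOpen U → x ∈ U →
            ∃ N ∈ 𝒩, x ∈ N ∧ N ⊆ U := by
  intro κ K _ _ _ ht φ hφ
  exact Pool.Agent.LibHelper99.Tight.image_cosmic ht hφ

end Pool.Agent.S14175
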