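-- Proof of statement S15019 (finiteness conjecture for nonsingular unsatisfiable hitting clause-sets).
import Pool.Statements.S15019
import Pool.Agent.Lib_helper67.Hitting

set_option autoImplicit false
open Pool Pool.MP_89ac68_lc

namespace Pool.Agent.S15019

/-- For each k there is a bound N such that every unsatisfiable hitting clause-set with deficiency k, where each variable occurs at least twice in each sign, has at most N variables. This is equivalent to there being finitely many isomorphism types per deficiency. -/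
theorem result :
    ∀ k : ℕ, ∃ N : ℕ, ∀ F : Finset (Finset (ℕ × Bool)),
      (∀ C ∈ F, ∀ v : ℕ, ¬ ((v, true) ∈ C ∧ (v, false) ∈ C)) →
      (∀ C ∈ F, ∀ D ∈ F, C ≠ D → ∃ v : ℕ, ∃ b : Bool, (v, b) ∈ C ∧ (v, !b) ∈ D) →
      (∀ σ : ℕ → Bool, ∃ C ∈ F, ∀ l ∈ C, σ l.1 ≠ l.2) →
      (∀ C ∈ F, ∀ v : ℕ, ∀ b : Bool, (v, b) ∈ C →
        ∀ b' : Bool, 2 ≤ (F.filter (fun D => (v, b') ∈ D)).card) →
      (F.card : ℤ) - ((F.biUnion (fun C => C.image Prod.fst)).card : ℤ) = (k : ℤ) →
      (F.biUnion (fun C => C.image Prod.fst)).card ≤ N := by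
  intro k
  refine ⟨Pool.Agent.Lib_helper67.Hitting.bnd k, ?_⟩
  intro F hnt hhit huns hns hdef
  have hF : Pool.Agent.Lib_helper67.Hitting.UHit F := by
    refine ⟨?_, ?_, huns⟩
    · rintro C hC ⟨v, b⟩ hl hl'
      cases b
      · exact hnt C hC v ⟨hl', hl⟩
      · exact hnt C hC v ⟨hl, hl'⟩
    · intro C hC D hD hne
      obtain ⟨v, b, h1, h2⟩ := hhit C hC D hD hne
      exact ⟨(v, b), h1, h2⟩
  have hvars : Pool.Agent.Lib_helper67.Hitting.vars F =
      F.biUnion (fun C => C.image Prod.fst) := rfl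
  have ho : Pool.Agent.Lib_helper67.Hitting.once F = ∅ := by
    rw [Finset.eq_empty_iff_forall_notMem]
    rintro ⟨v, b'⟩ hy
    obtain ⟨L, hL, hyL, -⟩ := Pool.Agent.Lib_helper67.Hitting.once_main hy
    have h1 := hns L hL v b' hyL b'
    have h2 : (F.filter (fun D => (v, b') ∈ D)).card = 1 :=
      Pool.Agent.Lib_helper67.Hitting.mem_once.1 hy
    omega
  rw [← hvars] at hdef ⊢
  exact Pool.Agent.Lib_helper67.Hitting.main_bound k F hF ho (by omega)

end Pool.Agent.S15019
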