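import Pool.Statements.S18519

set_option autoImplicit false
open Pool Pool.MP_cd51d2_nt

namespace Pool.Agent.S18519

/-- If `n` divides `a ^ t - 1` and `t` divides `n - 1` then `n` divides `a ^ (n - 1) - 1`. -/
theorem dvd_of_order {n a t : ℕ} (h1 : n ∣ a ^ t - 1) (h2 : t ∣ n - 1) :
    n ∣ a ^ (n - 1) - 1 := by
  obtain ⟨c, hc⟩ := h2
  rw [hc, pow_mul]
  refine h1.trans ?_
  simpa using Nat.sub_dvd_pow_sub_pow (a ^ t) 1 c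

/-- Criterion for being a Fermat pseudoprime, with divisibilities stated over the integers. -/
theorem psp_of {n a t : ℕ} (ha : 1 ≤ a) (u : ℤ) (hu : 1 < u) (hun : u < n) (hdvd : u ∣ (n : ℤ))
    (h1 : (n : ℤ) ∣ (a : ℤ) ^ t - 1) (h2 : (t : ℤ) ∣ (n : ℤ) - 1) :
    Nat.FermatPsp n a := by
  have hn : 1 < n := by
    have : (1 : ℤ) < n := hu.trans hun
    exact_mod_cast this
  refine ⟨?_, ?_, hn⟩
  · apply dvd_of_order (t := t)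
    · have h : 1 ≤ a ^ t := Nat.one_le_pow _ _ ha
      have : ((a ^ t - 1 : ℕ) : ℤ) = (a : ℤ) ^ t - 1 := by push_cast [h]; rfl
      rw [← Int.natCast_dvd_natCast, this]; exact h1
    · have : ((n - 1 : ℕ) : ℤ) = (n : ℤ) - 1 := by push_cast [hn.le]; rfl
      rw [← Int.natCast_dvd_natCast, this]; exact h2
  · intro hp
    have hp' : Prime (n : ℤ) := Nat.prime_iff_prime_int.mp hp
    obtain ⟨v, hv⟩ := hdvd
    rcases hp'.irreducible.isUnit_or_isUnit hv with h3 | h3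
    · rcases Int.isUnit_iff.mp h3 with h4 | h4 <;> omega
    · rcases Int.isUnit_iff.mp h3 with h4 | h4
      · rw [h4, mul_one] at hv; omega
      · rw [h4] at hv; omega

/-- The arithmetic core: if `x = a ^ k = y ^ 7`, `y ≥ 2` and `120 k ∣ x (x - 1)`, then
`Φ₁₅(x), Φ₂₄(x), Φ₃₀(x)` is an arithmetic progression of three pseudoprimes to base `a`. -/
theorem core {a k y : ℕ} (ha : 1 ≤ a) (hy : 2 ≤ y) (hxy : a ^ k = y ^ 7)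
    (hdvd : (120 * k : ℤ) ∣ (a : ℤ) ^ k * ((a : ℤ) ^ k - 1)) :
    ∃ n d : ℕ, a ^ k < n ∧ 0 < d ∧ Nat.FermatPsp n a ∧ Nat.FermatPsp (n + d) a ∧
      Nat.FermatPsp (n + 2 * d) a := by
  obtain ⟨x, hx⟩ : ∃ x : ℤ, x = (a : ℤ) ^ k := ⟨_, rfl⟩
  obtain ⟨z, hz⟩ : ∃ z : ℤ, z = (y : ℤ) := ⟨_, rfl⟩
  have hxz : x = z ^ 7 := by rw [hx, hz]; exact_mod_cast hxy
  have hz2 : 2 ≤ z := by rw [hz]; exact_mod_cast hy
  obtain ⟨s, hs⟩ : ∃ s : ℤ, s = z - 2 := ⟨_, rfl⟩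
  have hs0 : 0 ≤ s := by omega
  have hzs : z = s + 2 := by omega
  have hz14 : 2 * z ^ 8 ≤ x ^ 2 := by
    have h1 : (1 : ℤ) ≤ z := by omega
    have h2 : (1 : ℤ) ≤ z ^ 5 := one_le_pow₀ h1
    have h3 : (0 : ℤ) ≤ z ^ 8 := by positivity
    have h4 : x ^ 2 = z ^ 8 * (z * z ^ 5) := by rw [hxz]; ring
    have h5 : (2 : ℤ) ≤ z * z ^ 5 := by nlinarith
    rw [h4]; nlinarith
  have hx2 : 2 ≤ x := by
    rw [hxz]
    calc (2 : ℤ) ≤ z := hz2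
      _ ≤ z ^ 7 := le_self_pow₀ (by omega) (by norm_num)
  obtain ⟨w, hw⟩ : ∃ w : ℤ, w = x - 2 := ⟨_, rfl⟩
  have hw0 : 0 ≤ w := by omega
  have hxw : x = w + 2 := by omega
  rw [← hx] at hdvd
  have key : ∀ e : ℕ, (a : ℤ) ^ (e * k) = x ^ e := fun e => by
    rw [hx, mul_comm, pow_mul]
  -- sizes
  have b1 : x ^ 2 < x ^ 8 - x ^ 7 + x ^ 5 - x ^ 4 + x ^ 3 - x + 1 := by
    have : 0 < x ^ 8 - x ^ 7 + x ^ 5 - x ^ 4 + x ^ 3 - x + 1 - x ^ 2 := by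
      rw [hxw]; ring_nf; positivity
    omega
  have b2 : 0 < x ^ 7 - x ^ 5 - x ^ 3 + x := by
    rw [hxw]; ring_nf; positivity
  have u1 : 1 < z ^ 8 - z ^ 7 + z ^ 5 - z ^ 4 + z ^ 3 - z + 1 := by
    have : 0 < z ^ 8 - z ^ 7 + z ^ 5 - z ^ 4 + z ^ 3 - z + 1 - 1 := by
      rw [hzs]; ring_nf; positivity
    omega
  have u1' : z ^ 8 - z ^ 7 + z ^ 5 - z ^ 4 + z ^ 3 - z + 1 ≤ 2 * z ^ 8 := by
    have : 0 ≤ 2 * z ^ 8 - (z ^ 8 - z ^ 7 + z ^ 5 - z ^ 4 + z ^ 3 - z + 1) := by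
      rw [hzs]; ring_nf; positivity
    omega
  have u2 : 1 < z ^ 8 - z ^ 4 + 1 := by
    have : 0 < z ^ 8 - z ^ 4 + 1 - 1 := by
      rw [hzs]; ring_nf; positivity
    omega
  have u2' : z ^ 8 - z ^ 4 + 1 ≤ 2 * z ^ 8 := by
    have : 0 ≤ 2 * z ^ 8 - (z ^ 8 - z ^ 4 + 1) := by
      rw [hzs]; ring_nf; positivity
    omega
  have u3 : 1 < z ^ 8 + z ^ 7 - z ^ 5 - z ^ 4 - z ^ 3 + z + 1 := by
    have : 0 < z ^ 8 + z ^ 7 - z ^ 5 - z ^ 4 - z ^ 3 + z + 1 - 1 := by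
      rw [hzs]; ring_nf; positivity
    omega
  have u3' : z ^ 8 + z ^ 7 - z ^ 5 - z ^ 4 - z ^ 3 + z + 1 ≤ 2 * z ^ 8 := by
    have : 0 ≤ 2 * z ^ 8 - (z ^ 8 + z ^ 7 - z ^ 5 - z ^ 4 - z ^ 3 + z + 1) := by
      rw [hzs]; ring_nf; positivity
    omega
  obtain ⟨n, hn⟩ : ∃ n : ℕ, (n : ℤ) = x ^ 8 - x ^ 7 + x ^ 5 - x ^ 4 + x ^ 3 - x + 1 :=
    ⟨(x ^ 8 - x ^ 7 + x ^ 5 - x ^ 4 + x ^ 3 - x + 1).toNat, Int.toNat_of_nonneg (by nlinarith)⟩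
  obtain ⟨d, hd⟩ : ∃ d : ℕ, (d : ℤ) = x ^ 7 - x ^ 5 - x ^ 3 + x :=
    ⟨(x ^ 7 - x ^ 5 - x ^ 3 + x).toNat, Int.toNat_of_nonneg b2.le⟩
  have hn2 : ((n + d : ℕ) : ℤ) = x ^ 8 - x ^ 4 + 1 := by push_cast; rw [hn, hd]; ring
  have hn3 : ((n + 2 * d : ℕ) : ℤ) = x ^ 8 + x ^ 7 - x ^ 5 - x ^ 4 - x ^ 3 + x + 1 := by
    push_cast; rw [hn, hd]; ring
  refine ⟨n, d, ?_, ?_, ?_, ?_, ?_⟩
  · have h1 : ((a ^ k : ℕ) : ℤ) < (n : ℤ) := by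
      push_cast; rw [← hx, hn]; nlinarith
    exact_mod_cast h1
  · have h1 : (0 : ℤ) < (d : ℤ) := by rw [hd]; exact b2
    exact_mod_cast h1
  · refine psp_of ha (t := 15 * k) (z ^ 8 - z ^ 7 + z ^ 5 - z ^ 4 + z ^ 3 - z + 1) u1 ?_ ?_ ?_ ?_
    · rw [hn]; linarith
    · rw [hn, hxz]
      exact ⟨z ^ 48 + z ^ 47 + z ^ 46 - z ^ 43 - z ^ 42 - 2 * z ^ 41 - z ^ 40 - z ^ 39 + z ^ 36
        + z ^ 35 + z ^ 34 + z ^ 33 + z ^ 32 + z ^ 31 - z ^ 28 - z ^ 26 - z ^ 24 - z ^ 22 - z ^ 20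
        + z ^ 17 + z ^ 16 + z ^ 15 + z ^ 14 + z ^ 13 + z ^ 12 - z ^ 9 - z ^ 8 - 2 * z ^ 7 - z ^ 6
        - z ^ 5 + z ^ 2 + z + 1, by ring⟩
    · rw [key, hn]
      exact ⟨x ^ 7 + x ^ 6 + x ^ 5 - x ^ 2 - x - 1, by ring⟩
    · rw [hn]
      have h1 : (x ^ 8 - x ^ 7 + x ^ 5 - x ^ 4 + x ^ 3 - x + 1) - 1 =
          x * (x - 1) * (x ^ 6 + x ^ 3 + x + 1) := by ring
      rw [h1]
      refine Dvd.dvd.mul_right (Dvd.dvd.trans ?_ hdvd) _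
      exact ⟨8, by push_cast; ring⟩
  · refine psp_of ha (t := 24 * k) (z ^ 8 - z ^ 4 + 1) u2 ?_ ?_ ?_ ?_
    · rw [hn2]; linarith
    · rw [hn2, hxz]
      exact ⟨z ^ 48 + z ^ 44 - z ^ 36 - z ^ 32 + z ^ 24 - z ^ 16 - z ^ 12 + z ^ 4 + 1, by ring⟩
    · rw [key, hn2]
      exact ⟨x ^ 16 + x ^ 12 - x ^ 4 - 1, by ring⟩
    · rw [hn2]
      have h1 : (x ^ 8 - x ^ 4 + 1) - 1 =
          x * (x - 1) * (x ^ 6 + x ^ 5 + x ^ 4 + x ^ 3) := by ring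
      rw [h1]
      refine Dvd.dvd.mul_right (Dvd.dvd.trans ?_ hdvd) _
      exact ⟨5, by push_cast; ring⟩
  · refine psp_of ha (t := 30 * k) (z ^ 8 + z ^ 7 - z ^ 5 - z ^ 4 - z ^ 3 + z + 1) u3 ?_ ?_ ?_ ?_
    · rw [hn3]; linarith
    · rw [hn3, hxz]
      exact ⟨z ^ 48 - z ^ 47 + z ^ 46 + z ^ 43 - z ^ 42 + 2 * z ^ 41 - z ^ 40 + z ^ 39 + z ^ 36
        - z ^ 35 + z ^ 34 - z ^ 33 + z ^ 32 - z ^ 31 - z ^ 28 - z ^ 26 - z ^ 24 - z ^ 22 - z ^ 20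
        - z ^ 17 + z ^ 16 - z ^ 15 + z ^ 14 - z ^ 13 + z ^ 12 + z ^ 9 - z ^ 8 + 2 * z ^ 7 - z ^ 6
        + z ^ 5 + z ^ 2 - z + 1, by ring⟩
    · rw [key, hn3]
      exact ⟨x ^ 22 - x ^ 21 + x ^ 20 + x ^ 17 - x ^ 16 + x ^ 15 - x ^ 7 + x ^ 6 - x ^ 5 - x ^ 2
        + x - 1, by ring⟩
    · rw [hn3]
      have h1 : (x ^ 8 + x ^ 7 - x ^ 5 - x ^ 4 - x ^ 3 + x + 1) - 1 =
          x * (x - 1) * (x ^ 6 + 2 * x ^ 5 + 2 * x ^ 4 + x ^ 3 - x - 1) := by ring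
      rw [h1]
      refine Dvd.dvd.mul_right (Dvd.dvd.trans ?_ hdvd) _
      exact ⟨4, by push_cast; ring⟩

/-- For a prime `p` and any `a`, if `φ(p ^ (e + 1)) ∣ k` and `e + 1 ≤ k` then
`p ^ (e + 1) ∣ a ^ k (a ^ k - 1)`. -/
theorem prime_pow_dvd {p a k e : ℕ} (hp : p.Prime) (ha : 1 ≤ a)
    (hk : (p ^ e * (p - 1)) ∣ k) (hek : e + 1 ≤ k) :
    p ^ (e + 1) ∣ a ^ k * (a ^ k - 1) := by
  by_cases h : p ∣ a
  · exact Dvd.dvd.mul_right ((pow_dvd_pow_of_dvd h _).trans (pow_dvd_pow a hek)) _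
  · have hcop : Nat.Coprime a (p ^ (e + 1)) :=
      Nat.Coprime.pow_right _ ((Nat.Prime.coprime_iff_not_dvd hp).mpr h).symm
    have h1 : a ^ Nat.totient (p ^ (e + 1)) ≡ 1 [MOD p ^ (e + 1)] := Nat.ModEq.pow_totient hcop
    rw [Nat.totient_prime_pow_succ hp] at h1
    obtain ⟨c, hc⟩ := hk
    have h2 : a ^ k ≡ 1 [MOD p ^ (e + 1)] := by
      rw [hc, pow_mul]
      simpa using h1.pow c
    have h3 : p ^ (e + 1) ∣ a ^ k - 1 :=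
      (Nat.modEq_iff_dvd' (Nat.one_le_pow _ _ ha)).mp h2.symm
    exact Dvd.dvd.mul_left h3 _

theorem dvd_main {a j : ℕ} (ha : 1 ≤ a) (ha2 : Even a) (hj : 1 ≤ j) :
    120 * 420 ^ j ∣ a ^ (420 ^ j) * (a ^ (420 ^ j) - 1) := by
  have hlt : j < 420 ^ j := Nat.lt_pow_self (by norm_num)
  have h420 : 420 ≤ 420 ^ j := Nat.le_self_pow (by omega) _
  have e : 120 * 420 ^ j = 2 ^ (2 * j + 3) * (3 ^ (j + 1) * (5 ^ (j + 1) * 7 ^ j)) := by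
    have : (420 : ℕ) = 2 ^ 2 * 3 * 5 * 7 := by norm_num
    conv_lhs => rw [this, mul_pow, mul_pow, mul_pow, ← pow_mul]
    ring
  have d2 : 2 ^ (2 * j + 3) ∣ a ^ (420 ^ j) * (a ^ (420 ^ j) - 1) := by
    have h : 2 * j + 3 ≤ 420 ^ j := by
      obtain ⟨i, rfl⟩ : ∃ i, j = i + 1 := ⟨j - 1, by omega⟩
      have : i < 420 ^ i := Nat.lt_pow_self (by norm_num)
      rw [pow_succ]; omega
    exact Dvd.dvd.mul_right ((pow_dvd_pow_of_dvd ha2.two_dvd _).trans (pow_dvd_pow a h)) _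
  have d3 : 3 ^ (j + 1) ∣ a ^ (420 ^ j) * (a ^ (420 ^ j) - 1) := by
    refine prime_pow_dvd Nat.prime_three ha ?_ (by omega)
    have : (420 : ℕ) = 3 * 140 := by norm_num
    rw [this, mul_pow]
    exact Nat.mul_dvd_mul_left _ (Dvd.dvd.pow (by norm_num) (by omega))
  have d5 : 5 ^ (j + 1) ∣ a ^ (420 ^ j) * (a ^ (420 ^ j) - 1) := by
    refine prime_pow_dvd Nat.prime_five ha ?_ (by omega)
    have : (420 : ℕ) = 5 * 84 := by norm_num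
    rw [this, mul_pow]
    exact Nat.mul_dvd_mul_left _ (Dvd.dvd.pow (by norm_num) (by omega))
  have d7 : 7 ^ j ∣ a ^ (420 ^ j) * (a ^ (420 ^ j) - 1) := by
    refine (pow_dvd_pow 7 (Nat.le_succ j)).trans ?_
    refine prime_pow_dvd (by norm_num) ha ?_ (by omega)
    have : (420 : ℕ) = 7 * 60 := by norm_num
    rw [this, mul_pow]
    exact Nat.mul_dvd_mul_left _ (Dvd.dvd.pow (by norm_num) (by omega))
  rw [e]
  have c57 : Nat.Coprime (5 ^ (j + 1)) (7 ^ j) := Nat.Coprime.pow _ _ (by norm_num)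
  have c3 : Nat.Coprime (3 ^ (j + 1)) (5 ^ (j + 1) * 7 ^ j) :=
    Nat.Coprime.mul_right (Nat.Coprime.pow _ _ (by norm_num)) (Nat.Coprime.pow _ _ (by norm_num))
  have c2 : Nat.Coprime (2 ^ (2 * j + 3)) (3 ^ (j + 1) * (5 ^ (j + 1) * 7 ^ j)) :=
    Nat.Coprime.mul_right (Nat.Coprime.pow _ _ (by norm_num))
      (Nat.Coprime.mul_right (Nat.Coprime.pow _ _ (by norm_num))
        (Nat.Coprime.pow _ _ (by norm_num)))
  exact c2.mul_dvd_of_dvd_of_dvd d2 (c3.mul_dvd_of_dvd_of_dvd d3 (c57.mul_dvd_of_dvd_of_dvd d5 d7))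

theorem step {a : ℕ} (ha : 2 ≤ a) (ha2 : Even a) (j : ℕ) :
    ∃ n d : ℕ, j < n ∧ 0 < d ∧ Nat.FermatPsp n a ∧ Nat.FermatPsp (n + d) a ∧
      Nat.FermatPsp (n + 2 * d) a := by
  have hk7 : 420 ^ (j + 1) = (60 * 420 ^ j) * 7 := by rw [pow_succ]; ring
  have hy : 2 ≤ a ^ (60 * 420 ^ j) := by
    calc 2 ≤ a := ha
      _ ≤ a ^ (60 * 420 ^ j) := Nat.le_self_pow (by positivity) _
  have hd := dvd_main (a := a) (j := j + 1) (by omega) ha2 (by omega)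
  have hd' : (120 * ((420 ^ (j + 1) : ℕ) : ℤ)) ∣
      (a : ℤ) ^ (420 ^ (j + 1)) * ((a : ℤ) ^ (420 ^ (j + 1)) - 1) := by
    have h1 : 1 ≤ a ^ (420 ^ (j + 1)) := Nat.one_le_pow _ _ (by omega)
    have h2 := Int.natCast_dvd_natCast.mpr hd
    push_cast [h1] at h2
    exact_mod_cast h2
  obtain ⟨n, d, hn, hd0, h1, h2, h3⟩ := core (a := a) (k := 420 ^ (j + 1))
    (y := a ^ (60 * 420 ^ j)) (by omega) hy (by rw [hk7, pow_mul]) hd'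
  refine ⟨n, d, ?_, hd0, h1, h2, h3⟩
  calc j < 420 ^ j := Nat.lt_pow_self (by norm_num)
    _ ≤ 420 ^ (j + 1) := Nat.pow_le_pow_right (by norm_num) (by omega)
    _ ≤ a ^ (420 ^ (j + 1)) := (Nat.lt_pow_self (by omega)).le
    _ ≤ n := hn.le

/-- For every even natural base a ≥ 2, there are infinitely many pairs (n, d) with d > 0 such that n, n+d and n+2d are all Fermat pseudoprimes to base a. -/
theorem result :
    ∀ a : ℕ, 2 ≤ a → Even a →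
      Set.Infinite {p : ℕ × ℕ | 0 < p.2 ∧ Nat.FermatPsp p.1 a ∧
        Nat.FermatPsp (p.1 + p.2) a ∧ Nat.FermatPsp (p.1 + 2 * p.2) a} := by
  intro a ha ha2
  apply Set.Infinite.of_image Prod.fst
  apply Set.infinite_of_forall_exists_gt
  intro j
  obtain ⟨n, d, hn, hd0, h1, h2, h3⟩ := step ha ha2 j
  exact ⟨n, ⟨(n, d), ⟨hd0, h1, h2, h3⟩, rfl⟩, hn⟩

end Pool.Agent.S18519
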