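import Pool.Statements.S18933
import Pool.Agent.Lib_helper18.FiveE2
import Pool.Agent.LowAsm.CV2

set_option autoImplicit false
open Pool Pool.MP_f1c1a6_nt

namespace Pool.Agent.S18933

/-- Let T(n)=n/2 for even n and (5n+1)/2 for odd n on the integers. For every integer a not divisible by 5, the limsup over k of (1/k)·log of the number of integers n with T^k(n)=a equals log(6/5). -/
theorem result :
    ∀ a : ℤ, ¬ ((5 : ℤ) ∣ a) →
      Filter.limsup
        (fun k : ℕ =>
          Real.log ((Set.ncard {n : ℤ |
            (fun m : ℤ => if m % 2 = 0 then m / 2 else (5 * m + 1) / 2)^[k] n = a} : ℕ) : ℝ)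
            / (k : ℝ))
        Filter.atTop = Real.log (6 / 5) := by
  intro a ha
  exact le_antisymm (Pool.Agent.Lib_helper18.Five.final2 a)
    (Pool.Agent.Lib_helper56.Low.lower_final a ha)

end Pool.Agent.S18933
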