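import Pool.Statements.S19397
import Pool.Agent.Lib_helper17.LQ.FI

set_option autoImplicit false
open MeasureTheory ProbabilityTheory
open Pool Pool.MP_70a3e9_pr

namespace Pool.Agent.S19397

/-- For independent random vectors X, Y, Z in R^d with densities and finite differential entropies (also for X+Z, Y+Z, X+Y+Z), with N(W)=exp(2h(W)/d): N(X+Y+Z)N(Z) + N(X)N(Y) ≤ N(X+Z)N(Y+Z). -/
theorem result :
    ∀ (d : ℕ), 0 < d →
    ∀ (Ω : Type) [MeasurableSpace Ω] (P : Measure Ω) [IsProbabilityMeasure P]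
      (X Y Z : Ω → EuclideanSpace ℝ (Fin d)),
      Measurable X → Measurable Y → Measurable Z →
      iIndepFun ![X, Y, Z] P →
      P.map X ≪ volume → P.map Y ≪ volume → P.map Z ≪ volume →
      ∀ H : (Ω → EuclideanSpace ℝ (Fin d)) → ℝ,
        (∀ W : Ω → EuclideanSpace ℝ (Fin d),
          H W = ∫ x, Real.negMulLog (((P.map W).rnDeriv volume x).toReal) ∂volume) →
        (∀ W ∈ [X, Y, Z, X + Z, Y + Z, X + Y + Z],
          Integrable (fun x => Real.negMulLog (((P.map W).rnDeriv volume x).toReal)) volume) →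
        Real.exp ((2 / (d : ℝ)) * H (X + Y + Z)) * Real.exp ((2 / (d : ℝ)) * H Z)
          + Real.exp ((2 / (d : ℝ)) * H X) * Real.exp ((2 / (d : ℝ)) * H Y)
          ≤ Real.exp ((2 / (d : ℝ)) * H (X + Z)) * Real.exp ((2 / (d : ℝ)) * H (Y + Z)) := by
  intro d hd Ω _ P _ X Y Z hX hY hZ hI aX aY aZ H hH hint
  have hm : ∀ i, Measurable (![X, Y, Z] i) := by
    intro i
    fin_cases i
    · exact hX
    · exact hY
    · exact hZ
  have iXY : IndepFun X Y P := by
    have := hI.indepFun (i := 0) (j := 1) (by decide)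
    simpa using this
  have iXZ : IndepFun X Z P := by
    have := hI.indepFun (i := 0) (j := 2) (by decide)
    simpa using this
  have iYZ : IndepFun Y Z P := by
    have := hI.indepFun (i := 1) (j := 2) (by decide)
    simpa using this
  have iXYZ : IndepFun (X + Y) Z P := by
    have := hI.indepFun_add_left hm 0 1 2 (by decide) (by decide)
    simpa using this
  have pX : IsProbabilityMeasure (P.map X) := Measure.isProbabilityMeasure_map hX.aemeasurable
  have pY : IsProbabilityMeasure (P.map Y) := Measure.isProbabilityMeasure_map hY.aemeasurable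
  have pZ : IsProbabilityMeasure (P.map Z) := Measure.isProbabilityMeasure_map hZ.aemeasurable
  have eXY : P.map (X + Y) = (P.map X).conv (P.map Y) := iXY.map_add_eq_map_conv_map hX hY
  have eXZ : P.map (X + Z) = (P.map X).conv (P.map Z) := iXZ.map_add_eq_map_conv_map hX hZ
  have eYZ : P.map (Y + Z) = (P.map Y).conv (P.map Z) := iYZ.map_add_eq_map_conv_map hY hZ
  have eXYZ : P.map (X + Y + Z) = ((P.map X).conv (P.map Y)).conv (P.map Z) := by
    rw [← eXY]
    exact iXYZ.map_add_eq_map_conv_map (hX.add hY) hZ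
  have fX : Pool.Agent.EPS.FinE (P.map X) := ⟨aX, hint X (by simp)⟩
  have fY : Pool.Agent.EPS.FinE (P.map Y) := ⟨aY, hint Y (by simp)⟩
  have fZ : Pool.Agent.EPS.FinE (P.map Z) := ⟨aZ, hint Z (by simp)⟩
  have fXZ : Pool.Agent.EPS.FinE ((P.map X).conv (P.map Z)) := by
    have h := hint (X + Z) (by simp)
    rw [eXZ] at h
    exact Pool.Agent.EPS.finE_conv _ _ aZ h
  have fYZ : Pool.Agent.EPS.FinE ((P.map Y).conv (P.map Z)) := by
    have h := hint (Y + Z) (by simp)
    rw [eYZ] at h
    exact Pool.Agent.EPS.finE_conv _ _ aZ h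
  have fXYZ : Pool.Agent.EPS.FinE (((P.map X).conv (P.map Y)).conv (P.map Z)) := by
    have h := hint (X + Y + Z) (by simp)
    rw [eXYZ] at h
    exact Pool.Agent.EPS.finE_conv _ _ aZ h
  have key := Pool.Agent.LQ.q1_meas hd (P.map X) (P.map Y) (P.map Z) fX fY fZ fXZ fYZ fXYZ
  have n1 : H X = Pool.Agent.EPS.ent (P.map X) := hH X
  have n2 : H Y = Pool.Agent.EPS.ent (P.map Y) := hH Y
  have n3 : H Z = Pool.Agent.EPS.ent (P.map Z) := hH Z
  have n4 : H (X + Z) = Pool.Agent.EPS.ent ((P.map X).conv (P.map Z)) := by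
    rw [← eXZ]; exact hH _
  have n5 : H (Y + Z) = Pool.Agent.EPS.ent ((P.map Y).conv (P.map Z)) := by
    rw [← eYZ]; exact hH _
  have n6 : H (X + Y + Z) = Pool.Agent.EPS.ent (((P.map X).conv (P.map Y)).conv (P.map Z)) := by
    rw [← eXYZ]; exact hH _
  rw [n1, n2, n3, n4, n5, n6]
  exact key

end Pool.Agent.S19397
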