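import Pool.Statements.S19527
import Pool.Agent.Lib_helper59.HT.FinalA
import Pool.Agent.Lib_helper6.HT.BRIDGE

set_option autoImplicit false
open Pool Pool.MP_a0015d_pr

namespace Pool.Agent.S19527

/-- For each prime p and ε>0 there is K such that, for all large n, a 2-dim determinantal hypertree on n vertices (law ∝ ∣H_1∣², computed as a boundary-matrix Gram determinant) has p-part of H_1 larger than K with probability below ε. -/
theorem result :
    ∀ p : ℕ, p.Prime → ∀ ε : ℝ, 0 < ε → ∃ K : ℕ, ∃ N : ℕ, ∀ n : ℕ, N ≤ n →
      (∑ T ∈ (((((Finset.univ : Finset (Fin n × Fin n × Fin n)).filter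
                (fun t => t.1 < t.2.1 ∧ t.2.1 < t.2.2)).powerset).filter
                (fun T => T.card = (n - 1).choose 2)).filter
              (fun T => K < p ^ (padicValInt p (Matrix.det (Matrix.of
                (fun e f : {x : Fin n × Fin n // 0 < x.1.val ∧ x.1 < x.2} =>
                  ∑ t ∈ T,
                    ((if e.1 = (t.2.1, t.2.2) then (1 : ℤ) else 0)
                      - (if e.1 = (t.1, t.2.2) then (1 : ℤ) else 0)
                      + (if e.1 = (t.1, t.2.1) then (1 : ℤ) else 0)) *
                    ((if f.1 = (t.2.1, t.2.2) then (1 : ℤ) else 0)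
                      - (if f.1 = (t.1, t.2.2) then (1 : ℤ) else 0)
                      + (if f.1 = (t.1, t.2.1) then (1 : ℤ) else 0))))) / 2))),
          ((Matrix.det (Matrix.of
                (fun e f : {x : Fin n × Fin n // 0 < x.1.val ∧ x.1 < x.2} =>
                  ∑ t ∈ T,
                    ((if e.1 = (t.2.1, t.2.2) then (1 : ℤ) else 0)
                      - (if e.1 = (t.1, t.2.2) then (1 : ℤ) else 0)
                      + (if e.1 = (t.1, t.2.1) then (1 : ℤ) else 0)) *
                    ((if f.1 = (t.2.1, t.2.2) then (1 : ℤ) else 0)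
                      - (if f.1 = (t.1, t.2.2) then (1 : ℤ) else 0)
                      + (if f.1 = (t.1, t.2.1) then (1 : ℤ) else 0))))) : ℝ))
      < ε * (∑ T ∈ ((((Finset.univ : Finset (Fin n × Fin n × Fin n)).filter
                (fun t => t.1 < t.2.1 ∧ t.2.1 < t.2.2)).powerset).filter
                (fun T => T.card = (n - 1).choose 2)),
          ((Matrix.det (Matrix.of
                (fun e f : {x : Fin n × Fin n // 0 < x.1.val ∧ x.1 < x.2} =>
                  ∑ t ∈ T,
                    ((if e.1 = (t.2.1, t.2.2) then (1 : ℤ) else 0)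
                      - (if e.1 = (t.1, t.2.2) then (1 : ℤ) else 0)
                      + (if e.1 = (t.1, t.2.1) then (1 : ℤ) else 0)) *
                    ((if f.1 = (t.2.1, t.2.2) then (1 : ℤ) else 0)
                      - (if f.1 = (t.1, t.2.2) then (1 : ℤ) else 0)
                      + (if f.1 = (t.1, t.2.1) then (1 : ℤ) else 0))))) : ℝ)) := by
  exact Pool.Agent.HT.bridge_S19527 Pool.Agent.HT.main_tuple

end Pool.Agent.S19527
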