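import Pool.Statements.S19632
import Pool.Agent.Lib_helper83.AlphaExample

set_option autoImplicit false
open MeasureTheory Filter Topology
open Pool Pool.MP_c7dc48_pr

namespace Pool.Agent.S19632

/-- The negation of the preceding statement: Take a stationary α-mixing process on X with marginal P0 and an infinite class of measurable functions into [0,B] whose empirical means converge uniformly in probability under i.i.d. P0 samples. Then empirical means along the process also converge uniformly in probability. -/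
theorem result :
    ¬ (∀ (X : Type) [mX : MeasurableSpace X] (P : Measure (ℕ → X)) [IsProbabilityMeasure P]
    (P0 : Measure X) [IsProbabilityMeasure P0] (𝓕 : Set (X → ℝ)) (B : ℝ),
    P.map (fun (ω : ℕ → X) (n : ℕ) => ω (n + 1)) = P →
    P0 = P.map (fun (ω : ℕ → X) => ω 0) →
    (∀ ε : ℝ, 0 < ε → ∃ K : ℕ, ∀ k : ℕ, K ≤ k → ∀ l : ℕ, ∀ A S : Set (ℕ → X),
       @MeasurableSet (ℕ → X)
         (⨆ (i : ℕ) (_ : i ≤ l), MeasurableSpace.comap (fun ω : ℕ → X => ω i) mX) A →
       @MeasurableSet (ℕ → X)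
         (⨆ (i : ℕ) (_ : l + k ≤ i), MeasurableSpace.comap (fun ω : ℕ → X => ω i) mX) S →
       |P.real (A ∩ S) - P.real A * P.real S| ≤ ε) →
    𝓕.Infinite →
    (∀ f ∈ 𝓕, Measurable f ∧ ∀ x, 0 ≤ f x ∧ f x ≤ B) →
    (∀ ε : ℝ, 0 < ε →
      Tendsto (fun m : ℕ => Measure.pi (fun _ : Fin m => P0)
        {x : Fin m → X | ∃ f ∈ 𝓕,
          ε < |(1 / (m : ℝ)) * ∑ i : Fin m, f (x i) - ∫ y, f y ∂P0|}) atTop (𝓝 0)) →
    (∀ ε : ℝ, 0 < ε →
      Tendsto (fun m : ℕ => P
        {ω : ℕ → X | ∃ f ∈ 𝓕,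
          ε < |(1 / (m : ℝ)) * ∑ i ∈ Finset.range m, f (ω i) - ∫ y, f y ∂P0|}) atTop (𝓝 0))) := by
  intro H
  have h := H Pool.Agent.Lib_helper83.Alpha.St
    (Pool.Agent.Lib_helper83.walkLaw Pool.Agent.Lib_helper83.Alpha.LAM
      Pool.Agent.Lib_helper83.Alpha.STEP)
    Pool.Agent.Lib_helper83.Alpha.LAM Pool.Agent.Lib_helper83.Alpha.FF 1
    (Pool.Agent.Lib_helper83.walkLaw_stationary _ _ Pool.Agent.Lib_helper83.Alpha.LAM_inv)
    (Pool.Agent.Lib_helper83.walkLaw_marginal _ _).symm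
    (by
      intro ε hε
      obtain ⟨K, hK⟩ := exists_pow_lt_of_lt_one hε (by norm_num : (1 / 2 : ℝ) < 1)
      refine ⟨K, fun k hk l A S hA hS => ?_⟩
      have h1 := Pool.Agent.Lib_helper83.walkLaw_mixing Pool.Agent.Lib_helper83.Alpha.LAM
        Pool.Agent.Lib_helper83.Alpha.STEP Pool.Agent.Lib_helper83.Alpha.LAM_inv l k
        ((1 / 2 : ℝ) ^ k) (Pool.Agent.Lib_helper83.Alpha.mix_all l k) A S hA hS
      refine h1.trans ?_
      refine le_trans ?_ hK.le
      exact pow_le_pow_of_le_one (by norm_num) (by norm_num) hk)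
    Pool.Agent.Lib_helper83.Alpha.FF_infinite
    (by
      rintro f ⟨κ, c, rfl⟩
      exact ⟨Pool.Agent.Lib_helper83.Alpha.measurable_ff κ c,
        Pool.Agent.Lib_helper83.Alpha.ff_bounds κ c⟩)
    (fun ε hε => Pool.Agent.Lib_helper83.Alpha.iid_ucem ε hε)
    (1 / 4) (by norm_num)
  have h2 := h.eventually_lt_const (show (0 : ENNReal) < 1 by norm_num)
  obtain ⟨M, hM⟩ := h2.exists_forall_of_atTop
  have h3 := hM (M + 1) (by omega)
  have h4 := Pool.Agent.Lib_helper83.Alpha.process_fails M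
  exact absurd h4 (ne_of_lt h3)

end Pool.Agent.S19632
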